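import Mathlib

/-!
# Gaussian averages: the heat semigroup, Stein's lemma and the heat equation
-/

open MeasureTheory ProbabilityTheory Filter Topology Set

namespace Pool.Agent.ATLine

/-- the standard Gaussian measure -/
noncomputable abbrev gam : Measure ℝ := gaussianReal 0 1

/-- continuous functions with at most exponential growth -/
structure ExpBdd (φ : ℝ → ℝ) : Prop where
  cont : Continuous φ
  bound : ∃ C A : ℝ, 0 ≤ C ∧ 0 ≤ A ∧ ∀ x, |φ x| ≤ C * Real.exp (A * |x|)

namespace ExpBdd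

lemma const (c : ℝ) : ExpBdd (fun _ => c) :=
  ⟨continuous_const, |c|, 0, abs_nonneg _, le_refl _, fun x => by simp⟩

lemma id : ExpBdd (fun x => x) := by
  refine ⟨continuous_id, 1, 1, zero_le_one, zero_le_one, fun x => ?_⟩
  have := Real.add_one_le_exp |x|
  rw [one_mul, one_mul]
  linarith

lemma of_bounded {φ : ℝ → ℝ} (h : Continuous φ) {C : ℝ} (hC : ∀ x, |φ x| ≤ C) : ExpBdd φ := by
  refine ⟨h, C, 0, (abs_nonneg _).trans (hC 0), le_refl _, fun x => ?_⟩
  simpa using hC x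

lemma add {φ ψ : ℝ → ℝ} (h : ExpBdd φ) (h' : ExpBdd ψ) : ExpBdd (fun x => φ x + ψ x) := by
  obtain ⟨c, C, A, hC, hA, hb⟩ := h
  obtain ⟨c', C', A', hC', hA', hb'⟩ := h'
  refine ⟨c.add c', C + C', A + A', by positivity, by positivity, fun x => ?_⟩
  have e1 : Real.exp (A * |x|) ≤ Real.exp ((A + A') * |x|) := by
    apply Real.exp_le_exp.2; nlinarith [abs_nonneg x]
  have e2 : Real.exp (A' * |x|) ≤ Real.exp ((A + A') * |x|) := by
    apply Real.exp_le_exp.2; nlinarith [abs_nonneg x]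
  calc |φ x + ψ x| ≤ |φ x| + |ψ x| := abs_add_le _ _
    _ ≤ C * Real.exp (A * |x|) + C' * Real.exp (A' * |x|) := add_le_add (hb x) (hb' x)
    _ ≤ C * Real.exp ((A + A') * |x|) + C' * Real.exp ((A + A') * |x|) := by gcongr
    _ = _ := by ring

lemma mul {φ ψ : ℝ → ℝ} (h : ExpBdd φ) (h' : ExpBdd ψ) : ExpBdd (fun x => φ x * ψ x) := by
  obtain ⟨c, C, A, hC, hA, hb⟩ := h
  obtain ⟨c', C', A', hC', hA', hb'⟩ := h'
  refine ⟨c.mul c', C * C', A + A', by positivity, by positivity, fun x => ?_⟩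
  rw [abs_mul]
  calc |φ x| * |ψ x| ≤ (C * Real.exp (A * |x|)) * (C' * Real.exp (A' * |x|)) :=
        mul_le_mul (hb x) (hb' x) (abs_nonneg _) (by positivity)
    _ = C * C' * Real.exp ((A + A') * |x|) := by rw [add_mul, Real.exp_add]; ring

lemma const_mul {φ : ℝ → ℝ} (h : ExpBdd φ) (c : ℝ) : ExpBdd (fun x => c * φ x) :=
  (ExpBdd.const c).mul h

lemma neg {φ : ℝ → ℝ} (h : ExpBdd φ) : ExpBdd (fun x => -φ x) := by
  have := h.const_mul (-1)
  simpa using this

lemma sub {φ ψ : ℝ → ℝ} (h : ExpBdd φ) (h' : ExpBdd ψ) : ExpBdd (fun x => φ x - ψ x) := by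
  have := h.add h'.neg
  simpa [sub_eq_add_neg] using this

lemma pow {φ : ℝ → ℝ} (h : ExpBdd φ) (n : ℕ) : ExpBdd (fun x => φ x ^ n) := by
  induction n with
  | zero => simpa using ExpBdd.const 1
  | succ n ih =>
    have := ih.mul h
    simpa [pow_succ] using this

lemma comp_affine {φ : ℝ → ℝ} (h : ExpBdd φ) (x a : ℝ) : ExpBdd (fun z => φ (x + a * z)) := by
  obtain ⟨c, C, A, hC, hA, hb⟩ := h
  refine ⟨by fun_prop, C * Real.exp (A * |x|), A * |a|, by positivity, by positivity,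
    fun z => ?_⟩
  refine (hb _).trans ?_
  rw [mul_assoc, ← Real.exp_add]
  gcongr
  have : |x + a * z| ≤ |x| + |a| * |z| := by
    rw [← abs_mul]; exact abs_add_le _ _
  nlinarith

lemma exp_abs_bound {φ : ℝ → ℝ} (hc : Continuous φ) (A C : ℝ) (hC : 0 ≤ C) (hA : 0 ≤ A)
    (h : ∀ x, |φ x| ≤ C * Real.exp (A * |x|)) : ExpBdd φ := ⟨hc, C, A, hC, hA, h⟩

lemma exp_mul (a : ℝ) : ExpBdd (fun x => Real.exp (a * x)) := by
  refine ⟨by fun_prop, 1, |a|, zero_le_one, abs_nonneg _, fun x => ?_⟩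
  rw [Real.abs_exp, one_mul]
  apply Real.exp_le_exp.2
  rw [← abs_mul]
  exact le_abs_self _

lemma cosh : ExpBdd Real.cosh := by
  have h := ((exp_mul 1).add (exp_mul (-1))).const_mul (1 / 2)
  refine ⟨Real.continuous_cosh, ?_⟩
  obtain ⟨C, A, h1, h2, h3⟩ := h.bound
  refine ⟨C, A, h1, h2, fun x => ?_⟩
  have := h3 x
  have e : Real.cosh x = 1 / 2 * (Real.exp (1 * x) + Real.exp (-1 * x)) := by
    rw [Real.cosh_eq]
    ring_nf
  rw [e]
  exact this

lemma sinh : ExpBdd Real.sinh := by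
  have h := ((exp_mul 1).sub (exp_mul (-1))).const_mul (1 / 2)
  refine ⟨Real.continuous_sinh, ?_⟩
  obtain ⟨C, A, h1, h2, h3⟩ := h.bound
  refine ⟨C, A, h1, h2, fun x => ?_⟩
  have := h3 x
  have e : Real.sinh x = 1 / 2 * (Real.exp (1 * x) - Real.exp (-1 * x)) := by
    rw [Real.sinh_eq]
    ring_nf
  rw [e]
  exact this

end ExpBdd

lemma integrable_exp_abs (A : ℝ) : Integrable (fun z : ℝ => Real.exp (A * |z|)) gam := by
  have h1 := integrable_exp_mul_gaussianReal (μ := 0) (v := 1) A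
  have h2 := integrable_exp_mul_gaussianReal (μ := 0) (v := 1) (-A)
  refine (h1.add h2).mono' (Continuous.aestronglyMeasurable (by fun_prop)) (ae_of_all _ fun z => ?_)
  rw [Real.norm_eq_abs, Real.abs_exp]
  simp only [Pi.add_apply]
  rcases abs_cases z with ⟨h, _⟩ | ⟨h, _⟩ <;> rw [h]
  · have := Real.exp_pos (-A * z); linarith
  · have e : A * -z = -A * z := by ring
    rw [e]
    have := Real.exp_pos (A * z); linarith

lemma ExpBdd.integrable {φ : ℝ → ℝ} (h : ExpBdd φ) : Integrable φ gam := by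
  obtain ⟨c, C, A, hC, hA, hb⟩ := h
  refine ((integrable_exp_abs A).const_mul C).mono' c.aestronglyMeasurable (ae_of_all _ fun z => ?_)
  rw [Real.norm_eq_abs]
  exact hb z

/-- the heat semigroup: `P s φ x = E φ(x + √s z)` with `z` standard Gaussian -/
noncomputable def P (s : ℝ) (φ : ℝ → ℝ) (x : ℝ) : ℝ := ∫ z, φ (x + √s * z) ∂gam

lemma ExpBdd.integrable_comp {φ : ℝ → ℝ} (h : ExpBdd φ) (x a : ℝ) :
    Integrable (fun z => φ (x + a * z)) gam := (h.comp_affine x a).integrable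

lemma P_zero (φ : ℝ → ℝ) (x : ℝ) : P 0 φ x = φ x := by
  unfold P
  simp

lemma P_const (s c x : ℝ) : P s (fun _ => c) x = c := by
  unfold P
  simp

lemma P_add {φ ψ : ℝ → ℝ} (h : ExpBdd φ) (h' : ExpBdd ψ) (s x : ℝ) :
    P s (fun y => φ y + ψ y) x = P s φ x + P s ψ x :=
  integral_add (h.integrable_comp _ _) (h'.integrable_comp _ _)

lemma P_sub {φ ψ : ℝ → ℝ} (h : ExpBdd φ) (h' : ExpBdd ψ) (s x : ℝ) :
    P s (fun y => φ y - ψ y) x = P s φ x - P s ψ x :=
  integral_sub (h.integrable_comp _ _) (h'.integrable_comp _ _)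

lemma P_const_mul (φ : ℝ → ℝ) (c s x : ℝ) :
    P s (fun y => c * φ y) x = c * P s φ x := integral_const_mul _ _

lemma P_mono {φ ψ : ℝ → ℝ} (h : ExpBdd φ) (h' : ExpBdd ψ) (hle : ∀ y, φ y ≤ ψ y) (s x : ℝ) :
    P s φ x ≤ P s ψ x :=
  integral_mono (h.integrable_comp _ _) (h'.integrable_comp _ _) (fun _ => hle _)

lemma P_nonneg {φ : ℝ → ℝ} (hle : ∀ y, 0 ≤ φ y) (s x : ℝ) : 0 ≤ P s φ x :=
  integral_nonneg (fun _ => hle _)

lemma P_pos {φ : ℝ → ℝ} (h : ExpBdd φ) (hpos : ∀ y, 0 < φ y) (s x : ℝ) : 0 < P s φ x := by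
  unfold P
  rw [integral_pos_iff_support_of_nonneg (fun _ => (hpos _).le) (h.integrable_comp _ _)]
  have : Function.support (fun z => φ (x + √s * z)) = univ := by
    ext z
    simp [(hpos _).ne']
  rw [this]
  simp

/-- continuity of Gaussian averages in the parameters -/
lemma continuous_avg {φ : ℝ → ℝ} (h : ExpBdd φ) :
    Continuous (fun p : ℝ × ℝ => ∫ z, φ (p.1 + p.2 * z) ∂gam) := by
  obtain ⟨c, C, A, hC, hA, hb⟩ := h
  rw [continuous_iff_continuousAt]
  rintro ⟨x₀, a₀⟩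
  have hnb : ∀ᶠ p : ℝ × ℝ in 𝓝 (x₀, a₀), |p.1| ≤ |x₀| + 1 ∧ |p.2| ≤ |a₀| + 1 := by
    have h1 : ∀ᶠ p : ℝ × ℝ in 𝓝 (x₀, a₀), |p.1| < |x₀| + 1 :=
      (continuous_fst.abs.tendsto (x₀, a₀)).eventually (gt_mem_nhds (by simp))
    have h2 : ∀ᶠ p : ℝ × ℝ in 𝓝 (x₀, a₀), |p.2| < |a₀| + 1 :=
      (continuous_snd.abs.tendsto (x₀, a₀)).eventually (gt_mem_nhds (by simp))
    filter_upwards [h1, h2] with p h1 h2 using ⟨h1.le, h2.le⟩
  refine continuousAt_of_dominated
    (bound := fun z => C * Real.exp (A * (|x₀| + 1)) * Real.exp (A * (|a₀| + 1) * |z|))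
    ?_ ?_ ?_ ?_
  · exact Eventually.of_forall fun p => Continuous.aestronglyMeasurable (by fun_prop)
  · filter_upwards [hnb] with p hp
    refine ae_of_all _ fun z => ?_
    rw [Real.norm_eq_abs]
    refine (hb _).trans ?_
    rw [mul_assoc, ← Real.exp_add]
    gcongr
    have h3 : |p.1 + p.2 * z| ≤ |p.1| + |p.2| * |z| := by
      rw [← abs_mul]; exact abs_add_le _ _
    have h4 : |p.2| * |z| ≤ (|a₀| + 1) * |z| := by gcongr; exact hp.2
    nlinarith [hp.1]
  · exact (integrable_exp_abs _).const_mul _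
  · refine ae_of_all _ fun z => ?_
    exact Continuous.continuousAt (by fun_prop)

lemma continuous_P {φ : ℝ → ℝ} (h : ExpBdd φ) :
    Continuous (fun p : ℝ × ℝ => P p.1 φ p.2) := by
  have := (continuous_avg h).comp
    (continuous_snd.prodMk (Real.continuous_sqrt.comp continuous_fst) :
      Continuous (fun p : ℝ × ℝ => (p.2, √p.1)))
  exact this

lemma continuous_P_x {φ : ℝ → ℝ} (h : ExpBdd φ) (s : ℝ) : Continuous (P s φ) := by
  have := (continuous_P h).comp (Continuous.prodMk_right s)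
  exact this

lemma continuous_P_s {φ : ℝ → ℝ} (h : ExpBdd φ) (x : ℝ) : Continuous (fun s => P s φ x) := by
  have := (continuous_P h).comp (Continuous.prodMk_left x)
  exact this

/-- bound of averages, locally uniform in the variance -/
lemma abs_P_le {φ : ℝ → ℝ} {C A : ℝ} (hc : Continuous φ) (hC : 0 ≤ C) (hA : 0 ≤ A)
    (hb : ∀ x, |φ x| ≤ C * Real.exp (A * |x|)) (s x : ℝ) :
    |P s φ x| ≤ C * (∫ z, Real.exp (A * √s * |z|) ∂gam) * Real.exp (A * |x|) := by
  unfold P
  calc |∫ z, φ (x + √s * z) ∂gam| ≤ ∫ z, |φ (x + √s * z)| ∂gam := abs_integral_le_integral_abs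
    _ ≤ ∫ z, (C * Real.exp (A * |x|)) * Real.exp (A * √s * |z|) ∂gam := by
        refine integral_mono (ExpBdd.integrable_comp ⟨hc, C, A, hC, hA, hb⟩ x (√s)).abs
          ((integrable_exp_abs _).const_mul _) (fun z => ?_)
        refine (hb _).trans ?_
        rw [mul_assoc, ← Real.exp_add]
        gcongr
        have h3 : |x + √s * z| ≤ |x| + √s * |z| := by
          refine (abs_add_le _ _).trans ?_
          rw [abs_mul, abs_of_nonneg (Real.sqrt_nonneg s)]
        nlinarith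
    _ = _ := by rw [integral_const_mul]; ring

lemma ExpBdd.P {φ : ℝ → ℝ} (h : ExpBdd φ) (s : ℝ) : ExpBdd (P s φ) := by
  have hc := continuous_P_x h s
  obtain ⟨c, C, A, hC, hA, hb⟩ := h
  exact ⟨hc, _, A, mul_nonneg hC (integral_nonneg fun _ => (Real.exp_pos _).le), hA,
    abs_P_le c hC hA hb s⟩

/-- change of variables: the law of `√s z` -/
lemma integral_sqrt_mul (s : ℝ) (hs : 0 ≤ s) {φ : ℝ → ℝ} (hc : Continuous φ) :
    ∫ z, φ (√s * z) ∂gam = ∫ y, φ y ∂(gaussianReal 0 ⟨s, hs⟩) := by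
  have h := gaussianReal_map_const_mul (μ := 0) (v := 1) (√s)
  have e : (NNReal.mk (√s ^ 2) (sq_nonneg _) * 1 : NNReal) = ⟨s, hs⟩ := by
    rw [mul_one]
    exact NNReal.eq (Real.sq_sqrt hs)
  rw [mul_zero, e] at h
  rw [← h, integral_map (by fun_prop) hc.aestronglyMeasurable]

lemma integral_gaussian_shift (s : ℝ) (hs : 0 ≤ s) {φ : ℝ → ℝ} (hc : Continuous φ) (x : ℝ) :
    Pool.Agent.ATLine.P s φ x = ∫ y, φ (x + y) ∂(gaussianReal 0 ⟨s, hs⟩) :=
  integral_sqrt_mul s hs (φ := fun y => φ (x + y)) (by fun_prop)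

/-- the semigroup property -/
lemma P_P {φ : ℝ → ℝ} (h : ExpBdd φ) {s r : ℝ} (hs : 0 ≤ s) (hr : 0 ≤ r) (x : ℝ) :
    P s (P r φ) x = P (s + r) φ x := by
  rw [integral_gaussian_shift (s + r) (by positivity) h.cont,
    integral_gaussian_shift s hs (continuous_P_x h r)]
  have hconv := gaussianReal_conv_gaussianReal (m₁ := 0) (m₂ := 0) (v₁ := ⟨s, hs⟩) (v₂ := ⟨r, hr⟩)
  have e : (⟨s, hs⟩ + ⟨r, hr⟩ : NNReal) = ⟨s + r, by positivity⟩ := rfl
  rw [add_zero, e] at hconv
  have hint : Integrable (fun y => φ (x + y)) (gaussianReal 0 ⟨s + r, by positivity⟩) := by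
    have h1 := gaussianReal_map_const_mul (μ := 0) (v := 1) (√(s + r))
    have e1 : (NNReal.mk (√(s + r) ^ 2) (sq_nonneg _) * 1 : NNReal)
        = ⟨s + r, by positivity⟩ := by
      rw [mul_one]
      exact NNReal.eq (Real.sq_sqrt (by positivity : 0 ≤ s + r))
    rw [mul_zero, e1] at h1
    have hc : Continuous (fun y => φ (x + y)) := h.cont.comp (continuous_const.add continuous_id)
    rw [← h1, integrable_map_measure hc.aestronglyMeasurable (by fun_prop)]
    exact h.integrable_comp x (√(s + r))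
  rw [← hconv] at hint ⊢
  rw [integral_conv hint]
  refine integral_congr_ae (ae_of_all _ fun y => ?_)
  simp only
  rw [integral_gaussian_shift r hr h.cont]
  refine integral_congr_ae (ae_of_all _ fun y' => ?_)
  simp only
  rw [add_assoc]

/-- reflection invariance -/
lemma integral_neg_gam (φ : ℝ → ℝ) : ∫ z, φ (-z) ∂gam = ∫ z, φ z ∂gam := by
  have h := gaussianReal_map_neg (μ := 0) (v := 1)
  rw [neg_zero] at h
  have h2 : ∫ z, φ z ∂(Measure.map (fun x => -x) gam) = ∫ z, φ (-z) ∂gam :=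
    (MeasurableEquiv.neg ℝ).measurableEmbedding.integral_map _
  rw [← h2, h]

/-! ### Differentiation in the parameters -/

lemma hasDerivAt_avg_x {φ φ' : ℝ → ℝ} (h : ExpBdd φ) (h' : ExpBdd φ')
    (hd : ∀ y, HasDerivAt φ (φ' y) y) (x a : ℝ) :
    HasDerivAt (fun x => ∫ z, φ (x + a * z) ∂gam) (∫ z, φ' (x + a * z) ∂gam) x := by
  obtain ⟨c', C, A, hC, hA, hb⟩ := h'
  have := hasDerivAt_integral_of_dominated_loc_of_deriv_le (μ := gam)
    (F := fun x z => φ (x + a * z)) (F' := fun x z => φ' (x + a * z)) (x₀ := x)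
    (s := Metric.ball x 1)
    (bound := fun z => C * Real.exp (A * (|x| + 1)) * Real.exp (A * |a| * |z|))
    (Metric.ball_mem_nhds x one_pos)
    (Eventually.of_forall fun y => (h.integrable_comp y a).aestronglyMeasurable)
    (h.integrable_comp x a) (Continuous.aestronglyMeasurable (by fun_prop)) ?_
    ((integrable_exp_abs _).const_mul _) ?_
  · exact this.2
  · refine ae_of_all _ fun z y hy => ?_
    rw [Real.norm_eq_abs]
    refine (hb _).trans ?_
    rw [mul_assoc, ← Real.exp_add]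
    gcongr
    have h3 : |y + a * z| ≤ |y| + |a| * |z| := by
      rw [← abs_mul]; exact abs_add_le _ _
    have h4 : |y| ≤ |x| + 1 := by
      rw [Metric.mem_ball, Real.dist_eq] at hy
      have := abs_sub_abs_le_abs_sub y x
      linarith
    nlinarith
  · refine ae_of_all _ fun z y _ => ?_
    have := (hd (y + a * z)).comp_add_const y (a * z)
    exact this

lemma hasDerivAt_avg_a {φ φ' : ℝ → ℝ} (h : ExpBdd φ) (h' : ExpBdd φ')
    (hd : ∀ y, HasDerivAt φ (φ' y) y) (x a : ℝ) :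
    HasDerivAt (fun a => ∫ z, φ (x + a * z) ∂gam) (∫ z, z * φ' (x + a * z) ∂gam) a := by
  obtain ⟨c', C, A, hC, hA, hb⟩ := h'
  have := hasDerivAt_integral_of_dominated_loc_of_deriv_le (μ := gam)
    (F := fun a z => φ (x + a * z)) (F' := fun a z => z * φ' (x + a * z)) (x₀ := a)
    (s := Metric.ball a 1)
    (bound := fun z => C * Real.exp (A * |x|) * Real.exp ((A * (|a| + 1) + 1) * |z|))
    (Metric.ball_mem_nhds a one_pos)
    (Eventually.of_forall fun y => (h.integrable_comp x y).aestronglyMeasurable)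
    (h.integrable_comp x a) (Continuous.aestronglyMeasurable (by fun_prop)) ?_
    ((integrable_exp_abs _).const_mul _) ?_
  · exact this.2
  · refine ae_of_all _ fun z b hy => ?_
    rw [Real.norm_eq_abs, abs_mul]
    have hz : |z| ≤ Real.exp |z| := by
      have := Real.add_one_le_exp |z|; linarith
    have h4 : |b| ≤ |a| + 1 := by
      rw [Metric.mem_ball, Real.dist_eq] at hy
      have := abs_sub_abs_le_abs_sub b a
      linarith
    have h3 : |x + b * z| ≤ |x| + |b| * |z| := by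
      rw [← abs_mul]; exact abs_add_le _ _
    calc |z| * |φ' (x + b * z)| ≤ Real.exp |z| * (C * Real.exp (A * |x + b * z|)) :=
          mul_le_mul hz (hb _) (abs_nonneg _) (Real.exp_pos _).le
      _ ≤ Real.exp |z| * (C * Real.exp (A * (|x| + (|a| + 1) * |z|))) := by
          gcongr
          refine h3.trans ?_
          gcongr
      _ = C * Real.exp (A * |x|) * Real.exp ((A * (|a| + 1) + 1) * |z|) := by
          have e1 : A * (|x| + (|a| + 1) * |z|) = A * |x| + A * (|a| + 1) * |z| := by ring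
          have e2 : (A * (|a| + 1) + 1) * |z| = A * (|a| + 1) * |z| + |z| := by ring
          rw [e1, e2, Real.exp_add, Real.exp_add]
          ring
  · refine ae_of_all _ fun z b _ => ?_
    have h1 : HasDerivAt (fun a => x + a * z) z b := by
      simpa using ((hasDerivAt_id b).mul_const z).const_add x
    have := (hd (x + b * z)).comp b h1
    rw [mul_comm] at this
    exact this

/-- integrability with respect to the Gaussian measure in terms of the density -/
lemma integrable_pdf_mul {φ : ℝ → ℝ} (h : Integrable φ gam) :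
    Integrable (fun z => gaussianPDFReal 0 1 z * φ z) := by
  have h1 : gam = volume.withDensity (gaussianPDF 0 1) := gaussianReal_of_var_ne_zero 0 one_ne_zero
  rw [h1, integrable_withDensity_iff_integrable_smul' (measurable_gaussianPDF 0 1)
    (ae_of_all _ fun _ => gaussianPDF_lt_top)] at h
  simpa [toReal_gaussianPDF] using h

lemma hasDerivAt_pdf (z : ℝ) :
    HasDerivAt (gaussianPDFReal 0 1) (-(z * gaussianPDFReal 0 1 z)) z := by
  have e : gaussianPDFReal 0 1 = fun z => (√(2 * Real.pi))⁻¹ * Real.exp (-z ^ 2 / 2) := by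
    funext z
    rw [gaussianPDFReal]
    simp
  rw [e]
  have h1 : HasDerivAt (fun z : ℝ => -z ^ 2 / 2) (-z) z := by
    have := ((hasDerivAt_pow 2 z).neg).div_const 2
    refine this.congr_deriv ?_
    push_cast
    ring
  have h2 := (h1.exp).const_mul ((√(2 * Real.pi))⁻¹)
  refine h2.congr_deriv ?_
  ring

/-- **Stein's lemma** -/
lemma stein {φ φ' : ℝ → ℝ} (h : ExpBdd φ) (h' : ExpBdd φ') (hd : ∀ y, HasDerivAt φ (φ' y) y) :
    ∫ z, z * φ z ∂gam = ∫ z, φ' z ∂gam := by
  rw [integral_gaussianReal_eq_integral_smul one_ne_zero,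
    integral_gaussianReal_eq_integral_smul one_ne_zero]
  simp only [smul_eq_mul]
  have h1 := integral_mul_deriv_eq_deriv_mul_of_integrable (u := φ)
    (v := fun z => -gaussianPDFReal 0 1 z) (u' := φ') (v' := fun z => z * gaussianPDFReal 0 1 z)
    (fun z _ => hd z) (fun z _ => by
      have := (hasDerivAt_pdf z).neg
      rw [neg_neg] at this
      exact this) ?_ ?_ ?_
  · calc ∫ z, gaussianPDFReal 0 1 z * (z * φ z) = ∫ z, φ z * (z * gaussianPDFReal 0 1 z) := by
          refine integral_congr_ae (ae_of_all _ fun z => ?_)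
          simp only; ring
      _ = _ := h1
      _ = _ := by
          rw [← integral_neg]
          refine integral_congr_ae (ae_of_all _ fun z => ?_)
          simp only; ring
  · have := integrable_pdf_mul (ExpBdd.id.mul h).integrable
    refine this.congr (ae_of_all _ fun z => ?_)
    simp only [Pi.mul_apply]; ring
  · have := (integrable_pdf_mul h'.integrable).neg
    refine this.congr (ae_of_all _ fun z => ?_)
    simp only [Pi.mul_apply, Pi.neg_apply]; ring
  · have := (integrable_pdf_mul h.integrable).neg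
    refine this.congr (ae_of_all _ fun z => ?_)
    simp only [Pi.mul_apply, Pi.neg_apply]; ring

/-- Stein's lemma for an affine image -/
lemma stein_affine {φ φ' : ℝ → ℝ} (h : ExpBdd φ) (h' : ExpBdd φ')
    (hd : ∀ y, HasDerivAt φ (φ' y) y) (x a : ℝ) :
    ∫ z, z * φ (x + a * z) ∂gam = a * ∫ z, φ' (x + a * z) ∂gam := by
  rw [stein (h.comp_affine x a) ((h'.comp_affine x a).const_mul a), integral_const_mul]
  intro y
  have h1 : HasDerivAt (fun z => x + a * z) a y := by
    simpa using ((hasDerivAt_id y).const_mul a).const_add x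
  have := (hd (x + a * y)).comp y h1
  rw [mul_comm] at this
  exact this

/-- the heat equation -/
lemma hasDerivAt_P_s {φ φ' φ'' : ℝ → ℝ} (h : ExpBdd φ) (h' : ExpBdd φ') (h'' : ExpBdd φ'')
    (hd : ∀ y, HasDerivAt φ (φ' y) y) (hd' : ∀ y, HasDerivAt φ' (φ'' y) y) (x : ℝ) {s : ℝ}
    (hs : 0 < s) : HasDerivAt (fun s => P s φ x) (1 / 2 * P s φ'' x) s := by
  have h1 := (hasDerivAt_avg_a h h' hd x (√s)).comp s (Real.hasDerivAt_sqrt hs.ne')
  rw [stein_affine h' h'' hd'] at h1
  have hsq : √s ≠ 0 := (Real.sqrt_pos.2 hs).ne'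
  refine h1.congr_deriv ?_
  show _ = 1 / 2 * ∫ z, φ'' (x + √s * z) ∂gam
  field_simp

/-- the heat equation in integrated form -/
lemma P_eq_add_integral {φ φ' φ'' : ℝ → ℝ} (h : ExpBdd φ) (h' : ExpBdd φ') (h'' : ExpBdd φ'')
    (hd : ∀ y, HasDerivAt φ (φ' y) y) (hd' : ∀ y, HasDerivAt φ' (φ'' y) y) (x : ℝ) {s r : ℝ}
    (hs : 0 ≤ s) (hr : s ≤ r) :
    P r φ x = P s φ x + ∫ u in s..r, 1 / 2 * P u φ'' x := by
  have := intervalIntegral.integral_eq_sub_of_hasDerivAt_of_le hr
    (f := fun s => P s φ x) (f' := fun s => 1 / 2 * P s φ'' x)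
    (continuous_P_s h x).continuousOn
    (fun u hu => hasDerivAt_P_s h h' h'' hd hd' x (lt_of_le_of_lt hs hu.1))
    ((continuous_const.mul (continuous_P_s h'' x)).intervalIntegrable _ _)
  rw [this]
  ring

lemma hasDerivAt_P_x {φ φ' : ℝ → ℝ} (h : ExpBdd φ) (h' : ExpBdd φ')
    (hd : ∀ y, HasDerivAt φ (φ' y) y) (s x : ℝ) : HasDerivAt (P s φ) (P s φ' x) x :=
  hasDerivAt_avg_x h h' hd x (√s)

end Pool.Agent.ATLine
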