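import Mathlib
import Pool.Agent.Lib.ATLine.Gauss

/-!
# Elementary facts on hyperbolic functions
-/

open MeasureTheory ProbabilityTheory Filter Topology Set Real

namespace Pool.Agent.ATLine

/-- the hyperbolic secant -/
noncomputable def sc (x : ℝ) : ℝ := (cosh x)⁻¹

/-- the function `log cosh` -/
noncomputable def lc (x : ℝ) : ℝ := log (cosh x)

lemma sc_pos (x : ℝ) : 0 < sc x := inv_pos.2 (cosh_pos x)

lemma sc_le_one (x : ℝ) : sc x ≤ 1 := inv_le_one_of_one_le₀ (one_le_cosh x)

lemma sc_neg (x : ℝ) : sc (-x) = sc x := by unfold sc; rw [cosh_neg]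

lemma lc_neg (x : ℝ) : lc (-x) = lc x := by unfold lc; rw [cosh_neg]

lemma sc_mul_cosh (x : ℝ) : sc x * cosh x = 1 := inv_mul_cancel₀ (cosh_pos x).ne'

lemma tanh_eq_sc (x : ℝ) : tanh x = sinh x * sc x := by
  rw [tanh_eq_sinh_div_cosh, sc, div_eq_mul_inv]

lemma sc_sq (x : ℝ) : sc x ^ 2 = 1 - tanh x ^ 2 := by
  rw [tanh_eq_sc, sc]
  have h := cosh_sq x
  have hc := (cosh_pos x).ne'
  field_simp
  linarith

lemma tanh_sq (x : ℝ) : tanh x ^ 2 = 1 - sc x ^ 2 := by rw [sc_sq]; ring

lemma abs_tanh_le_one (x : ℝ) : |tanh x| ≤ 1 := (abs_tanh_lt_one x).le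

lemma tanh_sq_le_one (x : ℝ) : tanh x ^ 2 ≤ 1 := (tanh_sq_lt_one x).le

lemma hasDerivAt_sc (x : ℝ) : HasDerivAt sc (-(sc x * tanh x)) x := by
  have h := (hasDerivAt_cosh x).inv (cosh_pos x).ne'
  refine h.congr_deriv ?_
  rw [tanh_eq_sc, sc]
  have hc := (cosh_pos x).ne'
  field_simp

lemma hasDerivAt_tanh (x : ℝ) : HasDerivAt tanh (sc x ^ 2) x := by
  have h := (hasDerivAt_sinh x).mul (hasDerivAt_sc x)
  have e : tanh = fun y => sinh y * sc y := by
    funext y; exact tanh_eq_sc y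
  rw [e]
  refine h.congr_deriv ?_
  have h1 := sc_sq x
  have h2 := sc_mul_cosh x
  have h3 := tanh_eq_sc x
  have h4 : cosh x * sc x = 1 := by rw [mul_comm]; exact h2
  rw [h4]
  have h5 : sinh x * -(sc x * tanh x) = -(tanh x ^ 2) := by
    rw [h3]; ring
  rw [h5, h1]
  ring

lemma hasDerivAt_lc (x : ℝ) : HasDerivAt lc (tanh x) x := by
  have h := (hasDerivAt_cosh x).log (cosh_pos x).ne'
  refine h.congr_deriv ?_
  rw [tanh_eq_sinh_div_cosh]

lemma hasDerivAt_sc' (x : ℝ) :
    HasDerivAt (fun x => -(sc x * tanh x)) (sc x - 2 * sc x ^ 3) x := by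
  have h := ((hasDerivAt_sc x).mul (hasDerivAt_tanh x)).neg
  refine h.congr_deriv ?_
  have h1 := tanh_sq x
  have : -(-(sc x * tanh x) * tanh x + sc x * sc x ^ 2) = sc x * tanh x ^ 2 - sc x ^ 3 := by ring
  rw [this, h1]
  ring

lemma continuous_sc : Continuous sc :=
  continuous_iff_continuousAt.2 fun x => (hasDerivAt_sc x).continuousAt

lemma continuous_tanh : Continuous tanh :=
  continuous_iff_continuousAt.2 fun x => (hasDerivAt_tanh x).continuousAt

lemma continuous_lc : Continuous lc :=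
  continuous_iff_continuousAt.2 fun x => (hasDerivAt_lc x).continuousAt

lemma monotone_tanh : Monotone tanh :=
  monotone_of_hasDerivAt_nonneg hasDerivAt_tanh (fun x => sq_nonneg _)

lemma tanh_nonneg {x : ℝ} (h : 0 ≤ x) : 0 ≤ tanh x := by
  have := monotone_tanh h
  rwa [tanh_zero] at this

/-- `tanh` is a contraction -/
lemma abs_tanh_sub_le (x y : ℝ) : |tanh y - tanh x| ≤ |y - x| := by
  have := Convex.norm_image_sub_le_of_norm_hasDerivWithin_le (f := tanh) (f' := fun x => sc x ^ 2)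
    (s := univ) (C := 1) (fun z _ => (hasDerivAt_tanh z).hasDerivWithinAt) (fun z _ => by
      rw [Real.norm_eq_abs, abs_of_nonneg (sq_nonneg _)]
      exact pow_le_one₀ (sc_pos z).le (sc_le_one z)) convex_univ (mem_univ x) (mem_univ y)
  simpa using this

/-- `log cosh` is convex -/
lemma lc_tangent (x y : ℝ) : lc x + tanh x * (y - x) ≤ lc y := by
  have hconv : ConvexOn ℝ univ lc := by
    apply MonotoneOn.convexOn_of_deriv convex_univ
    · exact continuous_lc.continuousOn
    · intro z _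
      exact (hasDerivAt_lc z).differentiableAt.differentiableWithinAt
    · have : deriv lc = tanh := by
        funext z; exact (hasDerivAt_lc z).deriv
      rw [this]
      exact monotone_tanh.monotoneOn _
  rcases lt_trichotomy x y with h | h | h
  · have := hconv.le_slope_of_hasDerivAt (mem_univ x) (mem_univ y) h (hasDerivAt_lc x)
    rw [slope_def_field, le_div_iff₀ (by linarith)] at this
    linarith
  · subst h; simp
  · have := hconv.slope_le_of_hasDerivAt (mem_univ y) (mem_univ x) h (hasDerivAt_lc x)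
    rw [slope_def_field, div_le_iff₀ (by linarith)] at this
    linarith

lemma lc_nonneg (x : ℝ) : 0 ≤ lc x := log_nonneg (one_le_cosh x)

lemma lc_le_abs (x : ℝ) : lc x ≤ |x| := by
  unfold lc
  rw [log_le_iff_le_exp (cosh_pos x), ← cosh_abs, cosh_eq]
  have h1 : exp (-|x|) ≤ exp |x| := exp_le_exp.2 (by linarith [abs_nonneg x])
  linarith

lemma expBdd_tanh : ExpBdd tanh := ExpBdd.of_bounded continuous_tanh (C := 1) abs_tanh_le_one

lemma expBdd_sc : ExpBdd sc := ExpBdd.of_bounded continuous_sc (C := 1) fun x => by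
  rw [abs_of_pos (sc_pos x)]; exact sc_le_one x

lemma expBdd_lc : ExpBdd lc := by
  obtain ⟨C, A, h1, h2, h3⟩ := ExpBdd.id.bound
  refine ⟨continuous_lc, C, A, h1, h2, fun x => ?_⟩
  rw [abs_of_nonneg (lc_nonneg x)]
  exact (lc_le_abs x).trans (h3 x)

end Pool.Agent.ATLine
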