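import Mathlib
import Pool.Agent.Lib.ATLine.Gauss
import Pool.Agent.Lib.ATLine.Hyp

/-!
# The tilted semigroup (Doob transform of the heat semigroup by `cosh`)
-/

open MeasureTheory ProbabilityTheory Filter Topology Set Real

namespace Pool.Agent.ATLine

/-- Cameron-Martin shift -/
lemma integral_mul_exp (b : ℝ) (ψ : ℝ → ℝ) :
    ∫ z, ψ z * exp (b * z) ∂gam = exp (b ^ 2 / 2) * ∫ z, ψ (z + b) ∂gam := by
  rw [integral_gaussianReal_eq_integral_smul one_ne_zero,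
    integral_gaussianReal_eq_integral_smul one_ne_zero]
  simp only [smul_eq_mul]
  have h := integral_add_right_eq_self (μ := volume)
    (fun u => gaussianPDFReal 0 1 (u - b) * ψ u) b
  simp only [add_sub_cancel_right] at h
  rw [h, ← integral_const_mul]
  refine integral_congr_ae (ae_of_all _ fun z => ?_)
  simp only
  have e : gaussianPDFReal 0 1 z * exp (b * z) = exp (b ^ 2 / 2) * gaussianPDFReal 0 1 (z - b) := by
    rw [gaussianPDFReal, gaussianPDFReal]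
    have : exp (-(z - 0) ^ 2 / (2 * (1 : NNReal))) * exp (b * z)
        = exp (b ^ 2 / 2) * exp (-(z - b - 0) ^ 2 / (2 * (1 : NNReal))) := by
      rw [← exp_add, ← exp_add]
      congr 1
      push_cast
      ring
    calc _ = (√(2 * π * (1 : NNReal)))⁻¹ * (exp (-(z - 0) ^ 2 / (2 * (1 : NNReal))) * exp (b * z)) := by
          ring
      _ = _ := by rw [this]; ring
  calc gaussianPDFReal 0 1 z * (ψ z * exp (b * z))
      = (gaussianPDFReal 0 1 z * exp (b * z)) * ψ z := by ring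
    _ = _ := by rw [e]; ring

/-- exponential tilt of the heat semigroup -/
lemma P_mul_exp {τ : ℝ} (hτ : 0 ≤ τ) (a : ℝ) (φ : ℝ → ℝ) (x : ℝ) :
    P τ (fun y => φ y * exp (a * y)) x = exp (a * x + a ^ 2 * τ / 2) * P τ φ (x + a * τ) := by
  unfold P
  have h := integral_mul_exp (a * √τ) (fun z => φ (x + √τ * z))
  have e1 : (a * √τ) ^ 2 / 2 = a ^ 2 * τ / 2 := by
    rw [mul_pow, sq_sqrt hτ]
  have e2 : ∀ z, x + √τ * (z + a * √τ) = x + a * τ + √τ * z := by
    intro z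
    have : √τ * √τ = τ := mul_self_sqrt hτ
    linear_combination a * this
  simp only [e2] at h
  rw [e1] at h
  rw [exp_add, mul_assoc, ← h, ← integral_const_mul]
  refine integral_congr_ae (ae_of_all _ fun z => ?_)
  simp only
  have : exp (a * (x + √τ * z)) = exp (a * x) * exp (a * √τ * z) := by
    rw [← exp_add]; ring_nf
  rw [this]
  ring

lemma P_exp {τ : ℝ} (hτ : 0 ≤ τ) (a : ℝ) (x : ℝ) :
    P τ (fun y => exp (a * y)) x = exp (a * x + a ^ 2 * τ / 2) := by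
  have := P_mul_exp hτ a (fun _ => 1) x
  simpa [P_const] using this

/-- splitting `cosh` into exponentials -/
lemma P_mul_cosh {τ : ℝ} (hτ : 0 ≤ τ) {φ : ℝ → ℝ} (h : ExpBdd φ) (x : ℝ) :
    P τ (fun y => φ y * cosh y) x =
      exp (τ / 2) * (exp x / 2 * P τ φ (x + τ) + exp (-x) / 2 * P τ φ (x - τ)) := by
  have e : (fun y => φ y * cosh y) =
      fun y => 1 / 2 * (φ y * exp (1 * y) + φ y * exp (-1 * y)) := by
    funext y
    rw [cosh_eq]
    ring_nf
  rw [e, P_const_mul, P_add (h.mul (ExpBdd.exp_mul 1)) (h.mul (ExpBdd.exp_mul (-1))),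
    P_mul_exp hτ, P_mul_exp hτ, exp_add, exp_add]
  have e1 : (1:ℝ) ^ 2 * τ / 2 = τ / 2 := by ring
  have e2 : (-1:ℝ) ^ 2 * τ / 2 = τ / 2 := by ring
  have e3 : x + -1 * τ = x - τ := by ring
  rw [e1, e2, e3, one_mul, one_mul, neg_one_mul]
  ring

lemma P_mul_sinh {τ : ℝ} (hτ : 0 ≤ τ) {φ : ℝ → ℝ} (h : ExpBdd φ) (x : ℝ) :
    P τ (fun y => φ y * sinh y) x =
      exp (τ / 2) * (exp x / 2 * P τ φ (x + τ) - exp (-x) / 2 * P τ φ (x - τ)) := by
  have e : (fun y => φ y * sinh y) =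
      fun y => 1 / 2 * (φ y * exp (1 * y) - φ y * exp (-1 * y)) := by
    funext y
    rw [sinh_eq]
    ring_nf
  rw [e, P_const_mul, P_sub (h.mul (ExpBdd.exp_mul 1)) (h.mul (ExpBdd.exp_mul (-1))),
    P_mul_exp hτ, P_mul_exp hτ, exp_add, exp_add]
  have e1 : (1:ℝ) ^ 2 * τ / 2 = τ / 2 := by ring
  have e2 : (-1:ℝ) ^ 2 * τ / 2 = τ / 2 := by ring
  have e3 : x + -1 * τ = x - τ := by ring
  rw [e1, e2, e3, one_mul, one_mul, neg_one_mul]
  ring

lemma P_cosh {τ : ℝ} (hτ : 0 ≤ τ) (x : ℝ) : P τ cosh x = exp (τ / 2) * cosh x := by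
  have := P_mul_cosh hτ (ExpBdd.const 1) x
  simp only [one_mul, P_const, mul_one] at this
  rw [cosh_eq, ← add_div] at *
  exact this

lemma P_sinh {τ : ℝ} (hτ : 0 ≤ τ) (x : ℝ) : P τ sinh x = exp (τ / 2) * sinh x := by
  have := P_mul_sinh hτ (ExpBdd.const 1) x
  simp only [one_mul, P_const, mul_one] at this
  rw [sinh_eq, ← sub_div] at *
  exact this

/-- the tilted semigroup -/
noncomputable def T (τ : ℝ) (φ : ℝ → ℝ) (x : ℝ) : ℝ :=
  exp (-τ / 2) * P τ (fun y => φ y * cosh y) x * sc x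

lemma ExpBdd.T {φ : ℝ → ℝ} (h : ExpBdd φ) (τ : ℝ) : ExpBdd (T τ φ) := by
  have := (((h.mul ExpBdd.cosh).P τ).const_mul (exp (-τ / 2))).mul expBdd_sc
  exact this

lemma T_zero (φ : ℝ → ℝ) (x : ℝ) : T 0 φ x = φ x := by
  unfold T
  rw [P_zero, neg_zero, zero_div, exp_zero, one_mul, mul_assoc, mul_comm (cosh x), sc_mul_cosh,
    mul_one]

lemma T_add {φ ψ : ℝ → ℝ} (h : ExpBdd φ) (h' : ExpBdd ψ) (τ x : ℝ) :
    T τ (fun y => φ y + ψ y) x = T τ φ x + T τ ψ x := by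
  unfold T
  have : (fun y => (φ y + ψ y) * cosh y) = fun y => φ y * cosh y + ψ y * cosh y := by
    funext y; ring
  rw [this, P_add (h.mul ExpBdd.cosh) (h'.mul ExpBdd.cosh)]
  ring

lemma T_sub {φ ψ : ℝ → ℝ} (h : ExpBdd φ) (h' : ExpBdd ψ) (τ x : ℝ) :
    T τ (fun y => φ y - ψ y) x = T τ φ x - T τ ψ x := by
  unfold T
  have : (fun y => (φ y - ψ y) * cosh y) = fun y => φ y * cosh y - ψ y * cosh y := by
    funext y; ring
  rw [this, P_sub (h.mul ExpBdd.cosh) (h'.mul ExpBdd.cosh)]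
  ring

lemma T_const_mul (φ : ℝ → ℝ) (c τ x : ℝ) : T τ (fun y => c * φ y) x = c * T τ φ x := by
  unfold T
  have : (fun y => c * φ y * cosh y) = fun y => c * (φ y * cosh y) := by
    funext y; ring
  rw [this, P_const_mul]
  ring

lemma T_mono {φ ψ : ℝ → ℝ} (h : ExpBdd φ) (h' : ExpBdd ψ) (hle : ∀ y, φ y ≤ ψ y) (τ x : ℝ) :
    T τ φ x ≤ T τ ψ x := by
  unfold T
  have := P_mono (h.mul ExpBdd.cosh) (h'.mul ExpBdd.cosh)
    (fun y => mul_le_mul_of_nonneg_right (hle y) (cosh_pos y).le) τ x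
  have h1 := exp_pos (-τ / 2)
  have h2 := sc_pos x
  gcongr

lemma T_one {τ : ℝ} (hτ : 0 ≤ τ) (x : ℝ) : T τ (fun _ => 1) x = 1 := by
  unfold T
  simp only [one_mul]
  have : (fun y => cosh y) = cosh := rfl
  rw [this, P_cosh hτ, ← mul_assoc, ← exp_add, mul_assoc, mul_comm (cosh x), sc_mul_cosh]
  ring_nf
  simp

lemma T_const {τ : ℝ} (hτ : 0 ≤ τ) (c x : ℝ) : T τ (fun _ => c) x = c := by
  have := T_const_mul (fun _ => 1) c τ x
  rw [T_one hτ] at this
  simpa using this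

lemma T_nonneg {φ : ℝ → ℝ} (hle : ∀ y, 0 ≤ φ y) (τ x : ℝ) : 0 ≤ T τ φ x := by
  unfold T
  have := P_nonneg (fun y => mul_nonneg (hle y) (cosh_pos y).le) τ x
  have h2 := sc_pos x
  positivity

/-- the semigroup property of the tilted semigroup -/
lemma T_T {φ : ℝ → ℝ} (h : ExpBdd φ) {τ σ : ℝ} (hτ : 0 ≤ τ) (hσ : 0 ≤ σ) (x : ℝ) :
    T τ (T σ φ) x = T (τ + σ) φ x := by
  unfold T
  have e : (fun y => exp (-σ / 2) * P σ (fun y => φ y * cosh y) y * sc y * cosh y)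
      = fun y => exp (-σ / 2) * P σ (fun y => φ y * cosh y) y := by
    funext y
    rw [mul_assoc, sc_mul_cosh, mul_one]
  rw [e, P_const_mul, P_P (h.mul ExpBdd.cosh) hτ hσ, ← mul_assoc, ← exp_add]
  congr 3
  ring

/-- the tilted semigroup as a mixture -/
lemma T_eq_mix {τ : ℝ} (hτ : 0 ≤ τ) {φ : ℝ → ℝ} (h : ExpBdd φ) (x : ℝ) :
    T τ φ x = (1 + tanh x) / 2 * P τ φ (x + τ) + (1 - tanh x) / 2 * P τ φ (x - τ) := by
  unfold T
  rw [P_mul_cosh hτ h, ← mul_assoc, ← exp_add]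
  have e : -τ / 2 + τ / 2 = 0 := by ring
  have h1 : exp x = cosh x + sinh x := (cosh_add_sinh x).symm
  have h2 : exp (-x) = cosh x - sinh x := (cosh_sub_sinh x).symm
  have h3 := sc_mul_cosh x
  rw [e, exp_zero, one_mul, h1, h2, tanh_eq_sc]
  linear_combination (P τ φ (x + τ) / 2 + P τ φ (x - τ) / 2) * h3

/-- the signed mixture -/
lemma mix_sub {τ : ℝ} (hτ : 0 ≤ τ) {φ : ℝ → ℝ} (h : ExpBdd φ) (x : ℝ) :
    (1 + tanh x) / 2 * P τ φ (x + τ) - (1 - tanh x) / 2 * P τ φ (x - τ)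
      = T τ (fun y => φ y * tanh y) x := by
  unfold T
  have e0 : (fun y => φ y * tanh y * cosh y) = fun y => φ y * sinh y := by
    funext y
    rw [mul_assoc]
    congr 1
    rw [tanh_eq_sc, mul_assoc, sc_mul_cosh, mul_one]
  rw [e0, P_mul_sinh hτ h, ← mul_assoc, ← exp_add]
  have e : -τ / 2 + τ / 2 = 0 := by ring
  have h1 : exp x = cosh x + sinh x := (cosh_add_sinh x).symm
  have h2 : exp (-x) = cosh x - sinh x := (cosh_sub_sinh x).symm
  have h3 := sc_mul_cosh x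
  rw [e, exp_zero, one_mul, h1, h2, tanh_eq_sc]
  linear_combination -(P τ φ (x + τ) / 2 - P τ φ (x - τ) / 2) * h3

/-- `tanh` is a martingale -/
lemma T_tanh {τ : ℝ} (hτ : 0 ≤ τ) (x : ℝ) : T τ tanh x = tanh x := by
  unfold T
  have e0 : (fun y => tanh y * cosh y) = sinh := by
    funext y
    rw [tanh_eq_sc, mul_assoc, sc_mul_cosh, mul_one]
  rw [e0, P_sinh hτ, ← mul_assoc, ← exp_add]
  have e : -τ / 2 + τ / 2 = 0 := by ring
  rw [e, exp_zero, one_mul, tanh_eq_sc]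

lemma T_tanh_sq_ge {τ : ℝ} (hτ : 0 ≤ τ) (x : ℝ) :
    tanh x ^ 2 ≤ T τ (fun y => tanh y ^ 2) x := by
  have h : 0 ≤ T τ (fun y => (tanh y - tanh x) ^ 2) x := T_nonneg (fun y => sq_nonneg _) τ x
  have e : (fun y => (tanh y - tanh x) ^ 2)
      = fun y => (tanh y ^ 2 - (2 * tanh x) * tanh y) + tanh x ^ 2 := by
    funext y; ring
  have b1 : ExpBdd (fun y => tanh y ^ 2) := expBdd_tanh.pow 2
  have b2 : ExpBdd (fun y => (2 * tanh x) * tanh y) := expBdd_tanh.const_mul _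
  rw [e, T_add (b1.sub b2) (ExpBdd.const _), T_sub b1 b2, T_const_mul, T_tanh hτ, T_const hτ] at h
  linarith

lemma integral_sq_gam : ∫ z, z * z ∂gam = 1 := by
  have := stein (φ := fun z => z) (φ' := fun _ => 1) ExpBdd.id (ExpBdd.const 1)
    (fun y => hasDerivAt_id y)
  rw [this]
  simp

lemma integral_id_gam : ∫ z, z ∂gam = 0 := integral_id_gaussianReal

lemma P_sub_sq {τ : ℝ} (hτ : 0 ≤ τ) (x c : ℝ) :
    P τ (fun y => (y - c) ^ 2) x = (x - c) ^ 2 + τ := by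
  unfold P
  have h1 : Integrable (fun z : ℝ => z) gam := ExpBdd.id.integrable
  have h2 : Integrable (fun z : ℝ => z * z) gam := (ExpBdd.id.mul ExpBdd.id).integrable
  have e : (fun z : ℝ => (x + √τ * z - c) ^ 2)
      = fun z => (x - c) ^ 2 + (2 * (x - c) * √τ * z + τ * (z * z)) := by
    funext z
    have : √τ ^ 2 = τ := sq_sqrt hτ
    linear_combination z ^ 2 * this
  have h3 : Integrable (fun z : ℝ => 2 * (x - c) * √τ * z + τ * (z * z)) gam :=
    (h1.const_mul _).add (h2.const_mul _)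
  rw [e, integral_add (integrable_const _) h3,
    integral_add (h1.const_mul _) (h2.const_mul _), integral_const_mul, integral_const_mul,
    integral_id_gam, integral_sq_gam]
  simp

lemma P_sub_id {τ : ℝ} (x c : ℝ) : P τ (fun y => y - c) x = x - c := by
  unfold P
  have h1 : Integrable (fun z : ℝ => z) gam := ExpBdd.id.integrable
  have e : (fun z : ℝ => (x + √τ * z - c)) = fun z => (x - c) + √τ * z := by
    funext z; ring
  rw [e, integral_add (integrable_const _) (h1.const_mul _), integral_const_mul, integral_id_gam]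
  simp

lemma expBdd_sub_sq (c : ℝ) : ExpBdd (fun y => (y - c) ^ 2) :=
  (ExpBdd.id.sub (ExpBdd.const c)).pow 2

lemma T_sub_sq {τ : ℝ} (hτ : 0 ≤ τ) (x : ℝ) : T τ (fun y => (y - x) ^ 2) x = τ + τ ^ 2 := by
  rw [T_eq_mix hτ (expBdd_sub_sq x), P_sub_sq hτ, P_sub_sq hτ]
  ring

lemma T_sub_id {τ : ℝ} (hτ : 0 ≤ τ) (x : ℝ) : T τ (fun y => y - x) x = τ * tanh x := by
  rw [T_eq_mix hτ (ExpBdd.id.sub (ExpBdd.const x)), P_sub_id, P_sub_id]
  ring

lemma T_tanh_sq_le {τ : ℝ} (hτ : 0 ≤ τ) (x : ℝ) :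
    T τ (fun y => tanh y ^ 2) x ≤ tanh x ^ 2 + (τ + τ ^ 2) := by
  have b0 : ExpBdd (fun y => (tanh y - tanh x) ^ 2) := (expBdd_tanh.sub (ExpBdd.const _)).pow 2
  have h : T τ (fun y => (tanh y - tanh x) ^ 2) x ≤ T τ (fun y => (y - x) ^ 2) x :=
    T_mono b0 (expBdd_sub_sq x) (fun y => by
      have := abs_tanh_sub_le x y
      exact sq_le_sq.2 this) τ x
  have e : (fun y => (tanh y - tanh x) ^ 2)
      = fun y => (tanh y ^ 2 - (2 * tanh x) * tanh y) + tanh x ^ 2 := by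
    funext y; ring
  have b1 : ExpBdd (fun y => tanh y ^ 2) := expBdd_tanh.pow 2
  have b2 : ExpBdd (fun y => (2 * tanh x) * tanh y) := expBdd_tanh.const_mul _
  rw [e, T_add (b1.sub b2) (ExpBdd.const _), T_sub b1 b2, T_const_mul, T_tanh hτ, T_const hτ,
    T_sub_sq hτ] at h
  linarith

/-- lower bound for the tilted average of `log cosh` -/
lemma T_lc_ge {τ : ℝ} (hτ : 0 ≤ τ) (x : ℝ) :
    lc x + τ / 2 + τ / 2 * tanh x ^ 2 ≤ T τ lc x := by
  set l := tanh x with hl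
  -- the reference exponential
  have hB : ExpBdd (fun y => exp (l * (y - x) - l ^ 2 * τ / 2) * cosh x * exp (τ / 2) * sc y) := by
    have h1 : ExpBdd (fun y => exp (l * y)) := ExpBdd.exp_mul l
    have h2 := ((h1.const_mul (exp (-l * x - l ^ 2 * τ / 2))).const_mul
      (cosh x * exp (τ / 2))).mul expBdd_sc
    have e : (fun y => exp (l * (y - x) - l ^ 2 * τ / 2) * cosh x * exp (τ / 2) * sc y)
        = fun y => cosh x * exp (τ / 2) * (exp (-l * x - l ^ 2 * τ / 2) * exp (l * y)) * sc y := by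
      funext y
      rw [← exp_add (-l * x - l ^ 2 * τ / 2)]
      have : -l * x - l ^ 2 * τ / 2 + l * y = l * (y - x) - l ^ 2 * τ / 2 := by ring
      rw [this]
      ring
    rw [e]
    exact h2
  have hpt : ∀ y, 1 - exp (l * (y - x) - l ^ 2 * τ / 2) * cosh x * exp (τ / 2) * sc y ≤
      lc y - (l * (y - x)) + (l ^ 2 * τ / 2 - lc x - τ / 2) := by
    intro y
    set r := lc y - (l * (y - x)) + (l ^ 2 * τ / 2 - lc x - τ / 2) with hr
    have h1 := add_one_le_exp (-r)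
    have h2 : exp (-r) = exp (l * (y - x) - l ^ 2 * τ / 2) * cosh x * exp (τ / 2) * sc y := by
      have e : -r = (l * (y - x) - l ^ 2 * τ / 2) + lc x + τ / 2 + -lc y := by rw [hr]; ring
      rw [e, exp_add, exp_add, exp_add, exp_neg]
      unfold lc sc
      rw [exp_log (cosh_pos x), exp_log (cosh_pos y)]
    rw [h2] at h1
    linarith
  have b3 : ExpBdd (fun y => l * (y - x)) := (ExpBdd.id.sub (ExpBdd.const x)).const_mul l
  have hT := T_mono ((ExpBdd.const 1).sub hB) ((expBdd_lc.sub b3).add (ExpBdd.const _)) hpt τ x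
  rw [T_sub (ExpBdd.const 1) hB, T_one hτ, T_add (expBdd_lc.sub b3) (ExpBdd.const _),
    T_sub expBdd_lc b3, T_const_mul, T_sub_id hτ, T_const hτ] at hT
  have hone : T τ (fun y => exp (l * (y - x) - l ^ 2 * τ / 2) * cosh x * exp (τ / 2) * sc y) x
      = 1 := by
    unfold T
    have e : (fun y => exp (l * (y - x) - l ^ 2 * τ / 2) * cosh x * exp (τ / 2) * sc y * cosh y)
        = fun y => (exp (-l * x - l ^ 2 * τ / 2) * cosh x * exp (τ / 2)) * exp (l * y) := by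
      funext y
      rw [mul_assoc, sc_mul_cosh, mul_one]
      have : exp (l * (y - x) - l ^ 2 * τ / 2) = exp (-l * x - l ^ 2 * τ / 2) * exp (l * y) := by
        rw [← exp_add]; ring_nf
      rw [this]
      ring
    rw [e, P_const_mul, P_exp hτ]
    have h3 := sc_mul_cosh x
    have h4 : exp (-τ / 2) * exp (τ / 2) = 1 := by
      rw [← exp_add]
      have : -τ / 2 + τ / 2 = 0 := by ring
      rw [this, exp_zero]
    have h5 : exp (-l * x - l ^ 2 * τ / 2) * exp (l * x + l ^ 2 * τ / 2) = 1 := by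
      rw [← exp_add]
      have : -l * x - l ^ 2 * τ / 2 + (l * x + l ^ 2 * τ / 2) = 0 := by ring
      rw [this, exp_zero]
    calc exp (-τ / 2) * (exp (-l * x - l ^ 2 * τ / 2) * cosh x * exp (τ / 2) *
          exp (l * x + l ^ 2 * τ / 2)) * sc x
        = (exp (-τ / 2) * exp (τ / 2)) * (exp (-l * x - l ^ 2 * τ / 2) *
          exp (l * x + l ^ 2 * τ / 2)) * (sc x * cosh x) := by ring
      _ = 1 := by rw [h3, h4, h5]; ring
  rw [hone] at hT
  rw [← hl] at hT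
  nlinarith

lemma T_sc_sq (τ x : ℝ) : T τ (fun y => sc y ^ 2) x = exp (-τ / 2) * P τ sc x * sc x := by
  unfold T
  have e : (fun y => sc y ^ 2 * cosh y) = sc := by
    funext y
    rw [sq, mul_assoc, sc_mul_cosh, mul_one]
  rw [e]

lemma T_sc_four (τ x : ℝ) :
    T τ (fun y => sc y ^ 4) x = exp (-τ / 2) * P τ (fun y => sc y ^ 3) x * sc x := by
  unfold T
  have e : (fun y => sc y ^ 4 * cosh y) = fun y => sc y ^ 3 := by
    funext y
    rw [pow_succ, mul_assoc, sc_mul_cosh, mul_one]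
  rw [e]

lemma expBdd_sc_pow (n : ℕ) : ExpBdd (fun y => sc y ^ n) := expBdd_sc.pow n

lemma T_sc_sq_eq {τ : ℝ} (hτ : 0 ≤ τ) (x : ℝ) :
    T τ (fun y => sc y ^ 2) x = 1 - T τ (fun y => tanh y ^ 2) x := by
  have e : (fun y => sc y ^ 2) = fun y => 1 - tanh y ^ 2 := by
    funext y; exact sc_sq y
  rw [e, T_sub (ExpBdd.const 1) (expBdd_tanh.pow 2), T_one hτ]

lemma T_sc_sq_le {τ : ℝ} (hτ : 0 ≤ τ) (x : ℝ) : T τ (fun y => sc y ^ 2) x ≤ sc x ^ 2 := by
  rw [T_sc_sq_eq hτ, sc_sq]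
  have := T_tanh_sq_ge hτ x
  linarith

end Pool.Agent.ATLine
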