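import Mathlib
import Pool.Agent.Lib.ATLine.Gauss
import Pool.Agent.Lib.ATLine.Hyp
import Pool.Agent.Lib.ATLine.Tilt

/-!
# The key monotonicity: `E sech⁴` stays below its critical value along the tilted flow
-/

open MeasureTheory ProbabilityTheory Filter Topology Set Real

namespace Pool.Agent.ATLine

/-! ### Symmetrisation -/

lemma P_symm {φ : ℝ → ℝ} (s x : ℝ) (he : ∀ y, φ (-y) = φ y) : P s φ (-x) = P s φ x := by
  unfold P
  rw [← integral_neg_gam (fun z => φ (-x + √s * z))]
  refine integral_congr_ae (ae_of_all _ fun z => ?_)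
  simp only
  rw [← he]
  congr 1
  ring

lemma T_symm {φ : ℝ → ℝ} (s x : ℝ) (he : ∀ y, φ (-y) = φ y) : T s φ (-x) = T s φ x := by
  unfold T
  rw [P_symm s x (fun y => by rw [he, cosh_neg]), sc_neg]

/-- centred representation of a Gaussian average with mean `h = b √v` -/
lemma P_centred {φ : ℝ → ℝ} (v b : ℝ) :
    P v φ (√v * b) = exp (-(b ^ 2 / 2)) * ∫ z, φ (√v * z) * exp (b * z) ∂gam := by
  rw [integral_mul_exp, ← mul_assoc, ← exp_add, neg_add_cancel, exp_zero, one_mul]
  unfold P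
  refine integral_congr_ae (ae_of_all _ fun z => ?_)
  simp only
  congr 1
  ring

lemma integral_symm {F : ℝ → ℝ} (hF : ExpBdd F) :
    ∫ z, F z ∂gam = ∫ z, (F z + F (-z)) / 2 ∂gam := by
  have h := integral_neg_gam F
  have hn : ExpBdd (fun z => F (-z)) := by
    have := hF.comp_affine 0 (-1)
    simpa using this
  rw [integral_div, integral_add hF.integrable hn.integrable, h]
  ring

/-! ### The case `h ≥ v` -/

lemma tanh_pair_nonneg {k x : ℝ} (hk : 1 ≤ k) :
    0 ≤ (tanh x - tanh x ^ 2) * exp (k * x) + (tanh (-x) - tanh (-x) ^ 2) * exp (k * -x) := by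
  have e : (tanh x - tanh x ^ 2) * exp (k * x) + (tanh (-x) - tanh (-x) ^ 2) * exp (k * -x)
      = 2 * cosh (k * x) * (tanh x * (tanh (k * x) - tanh x)) := by
    rw [tanh_neg, tanh_eq_sc (k * x)]
    have h1 : exp (k * x) = cosh (k * x) + sinh (k * x) := (cosh_add_sinh _).symm
    have h2 : exp (k * -x) = cosh (k * x) - sinh (k * x) := by
      rw [cosh_sub_sinh]; ring_nf
    rw [h1, h2]
    have h3 := sc_mul_cosh (k * x)
    linear_combination -2 * sinh (k * x) * tanh x * h3
  rw [e]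
  have hc := cosh_pos (k * x)
  apply mul_nonneg (by positivity)
  rcases le_total 0 x with hx | hx
  · apply mul_nonneg (tanh_nonneg hx)
    rw [sub_nonneg]
    apply monotone_tanh
    nlinarith
  · apply mul_nonneg_of_nonpos_of_nonpos
    · have := tanh_nonneg (neg_nonneg.2 hx)
      rw [tanh_neg] at this
      linarith
    · rw [sub_nonpos]
      apply monotone_tanh
      nlinarith

/-- for `h ≥ v` the mean of `tanh` is at least the mean of `tanh²` -/
lemma P_tanh_ge {v h : ℝ} (hv : 0 < v) (hh : v ≤ h) :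
    P v (fun y => tanh y ^ 2) h ≤ P v tanh h := by
  have b1 : ExpBdd (fun y => tanh y ^ 2) := expBdd_tanh.pow 2
  rw [← sub_nonneg, ← P_sub expBdd_tanh b1]
  have hsv : 0 < √v := sqrt_pos.2 hv
  have hb : h = √v * (h / √v) := by field_simp
  rw [hb, P_centred]
  apply mul_nonneg (exp_pos _).le
  set b := h / √v with hbd
  have hF : ExpBdd (fun z => (tanh (√v * z) - tanh (√v * z) ^ 2) * exp (b * z)) := by
    have := ((expBdd_tanh.sub b1).comp_affine 0 (√v)).mul (ExpBdd.exp_mul b)
    simpa using this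
  rw [integral_symm hF]
  refine integral_nonneg fun z => ?_
  simp only
  have hk : 1 ≤ b / √v := by
    rw [le_div_iff₀ hsv, hbd, le_div_iff₀ hsv, one_mul, mul_self_sqrt hv.le]
    exact hh
  have := tanh_pair_nonneg (k := b / √v) (x := √v * z) hk
  have e1 : b / √v * (√v * z) = b * z := by field_simp
  have e2 : b / √v * -(√v * z) = b * -z := by field_simp
  rw [e1, e2] at this
  have e3 : √v * -z = -(√v * z) := by ring
  simp only [Pi.zero_apply]
  rw [e3]
  linarith

/-- for `h ≥ v` the mean of `sech²` is at most `1/(1+v)` -/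
lemma case_large {v h : ℝ} (hv : 0 < v) (hh : v ≤ h) :
    v * P v (fun y => sc y ^ 2) h ≤ P v (fun y => tanh y ^ 2) h := by
  have b1 : ExpBdd (fun y => tanh y ^ 2) := expBdd_tanh.pow 2
  have b2 : ExpBdd (fun y => sc y ^ 2) := expBdd_sc_pow 2
  set y := P v (fun y => sc y ^ 2) h with hy
  set q := P v (fun y => tanh y ^ 2) h with hq
  set t := P v tanh h with ht
  have hyq : y = 1 - q := by
    rw [hy, hq]
    have e : (fun y => sc y ^ 2) = fun y => 1 - tanh y ^ 2 := by
      funext y; exact sc_sq y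
    rw [e, P_sub (ExpBdd.const 1) b1, P_const]
  have htq : q ≤ t := P_tanh_ge hv hh
  have hq0 : 0 ≤ q := P_nonneg (fun _ => sq_nonneg _) _ _
  have hy0 : 0 < y := P_pos b2 (fun _ => pow_pos (sc_pos _) 2) _ _
  -- Stein
  have hst : ∫ z, z * tanh (h + √v * z) ∂gam = √v * y :=
    stein_affine expBdd_tanh b2 hasDerivAt_tanh h (√v)
  -- Cauchy-Schwarz through a nonnegative square
  have hI : ∀ l : ℝ, 0 ≤ (q - t ^ 2) - 2 * l * (√v * y) + l ^ 2 := by
    intro l
    have hnn : 0 ≤ ∫ z, (tanh (h + √v * z) - t - l * z) ^ 2 ∂gam :=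
      integral_nonneg fun z => sq_nonneg _
    have i1 : Integrable (fun z => tanh (h + √v * z)) gam := expBdd_tanh.integrable_comp h (√v)
    have i2 : Integrable (fun z => tanh (h + √v * z) ^ 2) gam := b1.integrable_comp h (√v)
    have i3 : Integrable (fun z : ℝ => z) gam := ExpBdd.id.integrable
    have i4 : Integrable (fun z : ℝ => z * z) gam := (ExpBdd.id.mul ExpBdd.id).integrable
    have i5 : Integrable (fun z => z * tanh (h + √v * z)) gam :=
      (ExpBdd.id.mul (expBdd_tanh.comp_affine h (√v))).integrable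
    have e : (fun z => (tanh (h + √v * z) - t - l * z) ^ 2) = fun z =>
        (tanh (h + √v * z) ^ 2 + (-(2 * t)) * tanh (h + √v * z)) +
        ((-(2 * l)) * (z * tanh (h + √v * z)) + (l ^ 2 * (z * z) + ((2 * t * l) * z + t ^ 2))) := by
      funext z; ring
    have i6 : Integrable (fun z : ℝ => (2 * t * l) * z + t ^ 2) gam :=
      (i3.const_mul _).add (integrable_const _)
    have i7 : Integrable (fun z : ℝ => l ^ 2 * (z * z) + ((2 * t * l) * z + t ^ 2)) gam :=
      (i4.const_mul _).add i6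
    have i8 : Integrable (fun z : ℝ => (-(2 * l)) * (z * tanh (h + √v * z)) +
        (l ^ 2 * (z * z) + ((2 * t * l) * z + t ^ 2))) gam := (i5.const_mul _).add i7
    have i9 : Integrable (fun z : ℝ => tanh (h + √v * z) ^ 2 +
        (-(2 * t)) * tanh (h + √v * z)) gam := i2.add (i1.const_mul _)
    rw [e, integral_add i9 i8, integral_add i2 (i1.const_mul _),
      integral_add (i5.const_mul _) i7, integral_add (i4.const_mul _) i6,
      integral_add (i3.const_mul _) (integrable_const _), integral_const_mul, integral_const_mul,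
      integral_const_mul, integral_const_mul, hst, integral_sq_gam, integral_id_gam] at hnn
    have e1 : ∫ z, tanh (h + √v * z) ^ 2 ∂gam = q := rfl
    have e2 : ∫ z, tanh (h + √v * z) ∂gam = t := rfl
    rw [e1, e2] at hnn
    simp at hnn
    nlinarith
  have h1 := hI (√v * y)
  have h2 : (√v * y) ^ 2 = v * y ^ 2 := by rw [mul_pow, sq_sqrt hv.le]
  have h3 : v * y ^ 2 ≤ q - t ^ 2 := by nlinarith
  have h4 : q ^ 2 ≤ t ^ 2 := by nlinarith
  have h5 : v * y * y ≤ q * y := by nlinarith
  exact le_of_mul_le_mul_right h5 hy0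

/-! ### The case `h ≤ v` -/

lemma theta_mono {C a b : ℝ} (hC : 0 < C) (hab : a ^ 2 ≤ b ^ 2) (hb : b ^ 2 < C ^ 2) :
    (C + a)⁻¹ ^ 3 + (C - a)⁻¹ ^ 3 ≤ (C + b)⁻¹ ^ 3 + (C - b)⁻¹ ^ 3 := by
  have form : ∀ c : ℝ, c ^ 2 < C ^ 2 →
      (C + c)⁻¹ ^ 3 + (C - c)⁻¹ ^ 3 = (2 * C ^ 3 + 6 * C * c ^ 2) / (C ^ 2 - c ^ 2) ^ 3 := by
    intro c hc
    have h1 : |c| < C := by
      have := sq_lt_sq.1 hc
      rwa [abs_of_pos hC] at this
    rw [abs_lt] at h1
    have h2 : C + c ≠ 0 := by linarith
    have h3 : C - c ≠ 0 := by linarith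
    have h4 : C ^ 2 - c ^ 2 = (C + c) * (C - c) := by ring
    rw [h4]
    field_simp
    ring
  rw [form a (lt_of_le_of_lt hab hb), form b hb]
  have h1 : 0 < C ^ 2 - b ^ 2 := by linarith
  have h2 : C ^ 2 - b ^ 2 ≤ C ^ 2 - a ^ 2 := by linarith
  gcongr

lemma cosh_add_div (x u : ℝ) : cosh x / cosh (x + u) = (cosh u + tanh x * sinh u)⁻¹ := by
  have hx := (cosh_pos x).ne'
  have e : cosh (x + u) = cosh x * (cosh u + tanh x * sinh u) := by
    rw [cosh_add, tanh_eq_sinh_div_cosh]
    field_simp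
  rw [e]
  have h2 : cosh u + tanh x * sinh u ≠ 0 := by
    intro h
    rw [h, mul_zero] at e
    exact (cosh_pos (x + u)).ne' e
  field_simp

lemma theta_le {x y : ℝ} (hxy : |x| ≤ |y|) (u : ℝ) :
    (cosh x / cosh (x + u)) ^ 3 + (cosh x / cosh (x + -u)) ^ 3 ≤
      (cosh y / cosh (y + u)) ^ 3 + (cosh y / cosh (y + -u)) ^ 3 := by
  rw [cosh_add_div, cosh_add_div, cosh_add_div, cosh_add_div, cosh_neg, sinh_neg, mul_neg,
    mul_neg, ← sub_eq_add_neg, ← sub_eq_add_neg]
  apply theta_mono (cosh_pos u)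
  · rw [mul_pow, mul_pow]
    have h1 : tanh x ^ 2 ≤ tanh y ^ 2 := by
      rw [← sq_abs (tanh x), ← sq_abs (tanh y)]
      have habs : ∀ w, |tanh w| = tanh |w| := by
        intro w
        rcases le_total 0 w with hw | hw
        · rw [abs_of_nonneg hw, abs_of_nonneg (tanh_nonneg hw)]
        · rw [abs_of_nonpos hw, tanh_neg, abs_of_nonpos]
          have := tanh_nonneg (neg_nonneg.2 hw)
          rw [tanh_neg] at this
          linarith
      rw [habs, habs]
      have h2 := monotone_tanh hxy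
      have h3 := tanh_nonneg (abs_nonneg x)
      nlinarith
    nlinarith [sq_nonneg (sinh u)]
  · rw [mul_pow]
    have h1 := tanh_sq_le_one y
    have h2 := cosh_sq u
    nlinarith [sq_nonneg (sinh u)]

/-- the ratio `ρ` of the tilted average of `sech⁴` and `sech⁴` -/
noncomputable def rho (τ x : ℝ) : ℝ :=
  exp (-τ / 2) * P τ (fun y => sc y ^ 3) x * cosh x ^ 3

lemma rho_eq (τ x : ℝ) :
    rho τ x = exp (-τ / 2) * ∫ z, ((cosh x / cosh (x + √τ * z)) ^ 3 +
      (cosh x / cosh (x + -(√τ * z))) ^ 3) / 2 ∂gam := by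
  unfold rho P
  rw [mul_assoc, ← integral_mul_const]
  congr 1
  have hF : ExpBdd (fun z => sc (x + √τ * z) ^ 3 * cosh x ^ 3) :=
    (((expBdd_sc_pow 3).comp_affine x (√τ)).mul (ExpBdd.const _))
  rw [integral_symm hF]
  refine integral_congr_ae (ae_of_all _ fun z => ?_)
  simp only
  unfold sc
  have e : x + √τ * -z = x + -(√τ * z) := by ring
  rw [e]
  have e1 : ∀ w, (cosh w)⁻¹ ^ 3 * cosh x ^ 3 = (cosh x / cosh w) ^ 3 := by
    intro w; rw [div_pow, inv_pow]; ring
  rw [e1, e1]

lemma rho_mono (τ : ℝ) {x y : ℝ} (hxy : |x| ≤ |y|) : rho τ x ≤ rho τ y := by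
  rw [rho_eq, rho_eq]
  have hI : ∀ w, Integrable (fun z => ((cosh w / cosh (w + √τ * z)) ^ 3 +
      (cosh w / cosh (w + -(√τ * z))) ^ 3) / 2) gam := by
    intro w
    have h1 := ((expBdd_sc_pow 3).comp_affine w (√τ)).const_mul (cosh w ^ 3 / 2)
    have h2 := ((expBdd_sc_pow 3).comp_affine w (-√τ)).const_mul (cosh w ^ 3 / 2)
    refine (h1.add h2).integrable.congr (ae_of_all _ fun z => ?_)
    simp only
    unfold sc
    have e : w + -√τ * z = w + -(√τ * z) := by ring
    rw [e, div_pow, div_pow, inv_pow, inv_pow]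
    ring
  have := integral_mono (hI x) (hI y) (fun z => by
    have := theta_le hxy (√τ * z)
    simp only
    linarith)
  have h0 := exp_pos (-τ / 2)
  gcongr

/-- monotonicity of `cosh(kx)/cosh(x)` -/
lemma cosh_ratio_anti {k : ℝ} (hk0 : 0 ≤ k) (hk1 : k ≤ 1) {x y : ℝ} (hxy : |x| ≤ |y|) :
    cosh (k * y) / cosh y ≤ cosh (k * x) / cosh x := by
  rw [div_le_div_iff₀ (cosh_pos y) (cosh_pos x)]
  have e1 : cosh (k * y) = cosh (k * |y|) := by
    rw [← cosh_abs (k * y), abs_mul, abs_of_nonneg hk0]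
  have e2 : cosh (k * x) = cosh (k * |x|) := by
    rw [← cosh_abs (k * x), abs_mul, abs_of_nonneg hk0]
  rw [e1, e2, ← cosh_abs x, ← cosh_abs y]
  set X := |x|
  set Y := |y|
  have hX : 0 ≤ X := abs_nonneg x
  have p1 : cosh (k * Y) * cosh X = (cosh (X + k * Y) + cosh (X - k * Y)) / 2 := by
    rw [cosh_add, cosh_sub]; ring
  have p2 : cosh (k * X) * cosh Y = (cosh (Y + k * X) + cosh (Y - k * X)) / 2 := by
    rw [cosh_add, cosh_sub]; ring
  rw [p1, p2]
  have h1 : cosh (X + k * Y) ≤ cosh (Y + k * X) := by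
    rw [cosh_le_cosh, abs_of_nonneg (by positivity), abs_of_nonneg (by nlinarith)]
    nlinarith
  have h2 : cosh (X - k * Y) ≤ cosh (Y - k * X) := by
    rw [cosh_le_cosh, abs_of_nonneg (by nlinarith : 0 ≤ Y - k * X), abs_le]
    constructor <;> nlinarith
  linarith

/-- the base inequality -/
lemma base_nonneg {v τ : ℝ} (hv : 0 ≤ v) (hτ : 0 ≤ τ) :
    0 ≤ P v (fun x => sc x ^ 3 - exp (-τ / 2) * P τ (fun y => sc y ^ 3) x) 0 := by
  have b3 := expBdd_sc_pow 3
  rw [P_sub b3 ((b3.P τ).const_mul _), P_const_mul]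
  rw [P_P b3 hv hτ]
  have hle : P (v + τ) (fun y => sc y ^ 3) 0 ≤ P v (fun y => sc y ^ 3) 0 := by
    unfold P
    refine integral_mono (b3.integrable_comp 0 _) (b3.integrable_comp 0 _) (fun z => ?_)
    simp only [zero_add]
    have h1 : √v ≤ √(v + τ) := sqrt_le_sqrt (by linarith)
    have h2 : sc (√(v + τ) * z) ≤ sc (√v * z) := by
      unfold sc
      apply inv_anti₀ (cosh_pos _)
      rw [cosh_le_cosh, abs_mul, abs_mul, abs_of_nonneg (sqrt_nonneg v),
        abs_of_nonneg (sqrt_nonneg (v + τ))]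
      gcongr
    have := (sc_pos (√(v + τ) * z)).le
    gcongr
  have h0 : 0 ≤ P (v + τ) (fun y => sc y ^ 3) 0 := P_nonneg (fun y => (pow_pos (sc_pos y) 3).le) _ _
  have h1 : exp (-τ / 2) ≤ 1 := by
    rw [exp_le_one_iff]; linarith
  nlinarith

/-- monotonicity of the mean of `sech⁴` along the tilted flow when `0 ≤ h ≤ v` -/
lemma case_small {v h τ : ℝ} (hv : 0 < v) (h0 : 0 ≤ h) (hh : h ≤ v) (hτ : 0 ≤ τ) :
    P v (T τ (fun y => sc y ^ 4)) h ≤ P v (fun y => sc y ^ 4) h := by
  have b3 := expBdd_sc_pow 3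
  have b4 := expBdd_sc_pow 4
  rw [← sub_nonneg, ← P_sub b4 (b4.T τ)]
  have hsv : 0 < √v := sqrt_pos.2 hv
  have hb : h = √v * (h / √v) := by field_simp
  rw [hb, P_centred]
  apply mul_nonneg (exp_pos _).le
  set b := h / √v with hbd
  set k := b / √v with hkd
  have hk0 : 0 ≤ k := by positivity
  have hk1 : k ≤ 1 := by
    rw [hkd, div_le_one hsv, hbd, div_le_iff₀ hsv, mul_self_sqrt hv.le]
    exact hh
  have hkz : ∀ z, b * z = k * (√v * z) := by
    intro z; rw [hkd]; field_simp
  set α : ℝ → ℝ := fun x => sc x ^ 3 - exp (-τ / 2) * P τ (fun y => sc y ^ 3) x with hα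
  set g : ℝ → ℝ := fun x => cosh (k * x) / cosh x with hg
  have hαE : ExpBdd α := b3.sub ((b3.P τ).const_mul _)
  have hgE : ExpBdd g := by
    have h1 : ExpBdd (fun x => cosh (k * x)) := by
      have := ExpBdd.cosh.comp_affine 0 k
      simpa using this
    have h2 := h1.mul expBdd_sc
    exact h2
  have hD : ∀ x, sc x ^ 4 - T τ (fun y => sc y ^ 4) x = α x * sc x := by
    intro x
    rw [T_sc_four, hα]
    ring
  have hαrho : ∀ x, α x = sc x ^ 3 * (1 - rho τ x) := by
    intro x
    rw [hα]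
    unfold rho
    have : sc x ^ 3 * cosh x ^ 3 = 1 := by rw [← mul_pow, sc_mul_cosh, one_pow]
    simp only
    linear_combination exp (-τ / 2) * P τ (fun y => sc y ^ 3) x * this
  -- symmetrised integral
  have hαs : ∀ x, α (-x) = α x := by
    intro x
    rw [hα]
    simp only
    rw [sc_neg, P_symm τ x (fun y => by rw [sc_neg])]
  have hF : ExpBdd (fun z => (sc (√v * z) ^ 4 - T τ (fun y => sc y ^ 4) (√v * z)) *
      exp (b * z)) := by
    have := ((b4.sub (b4.T τ)).comp_affine 0 (√v)).mul (ExpBdd.exp_mul b)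
    simpa using this
  have hint : ∫ z, (sc (√v * z) ^ 4 - T τ (fun y => sc y ^ 4) (√v * z)) * exp (b * z) ∂gam
      = P v (fun x => α x * g x) 0 := by
    rw [integral_symm hF]
    unfold P
    refine integral_congr_ae (ae_of_all _ fun z => ?_)
    simp only
    rw [hD, hD, zero_add]
    have e1 : √v * -z = -(√v * z) := by ring
    rw [e1, hαs, sc_neg, hg, hkz z]
    have e2 : b * -z = -(k * (√v * z)) := by rw [mul_neg, hkz z]
    rw [e2]
    simp only
    rw [cosh_eq (k * (√v * z)), div_eq_mul_inv _ (cosh (√v * z))]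
    unfold sc
    ring
  rw [hint]
  -- the threshold constant
  obtain ⟨c, hc0, hc⟩ : ∃ c : ℝ, 0 ≤ c ∧ ∀ x, 0 ≤ α x * (g x - c) := by
    have hgpos : ∀ x, 0 < g x := fun x => div_pos (cosh_pos _) (cosh_pos _)
    by_cases hall : ∀ x, rho τ x ≤ 1
    · refine ⟨0, le_refl _, fun x => ?_⟩
      rw [sub_zero, hαrho]
      have h1 := hall x
      have h2 := pow_pos (sc_pos x) 3
      have h3 := (hgpos x).le
      have : 0 ≤ 1 - rho τ x := by linarith
      positivity
    · push Not at hall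
      obtain ⟨x₁, hx₁⟩ := hall
      set S : Set ℝ := g '' {x | 1 < rho τ x} with hS
      have hSne : S.Nonempty := ⟨g x₁, x₁, hx₁, rfl⟩
      have hg0 : ∀ x, g x ≤ g 0 := by
        intro x
        exact cosh_ratio_anti hk0 hk1 (by rw [abs_zero]; exact abs_nonneg x)
      have hSbd : BddAbove S := by
        refine ⟨g 0, ?_⟩
        rintro _ ⟨x, _, rfl⟩
        exact hg0 x
      refine ⟨sSup S, ?_, fun x => ?_⟩
      · exact (hgpos x₁).le.trans (le_csSup hSbd ⟨x₁, hx₁, rfl⟩)
      · rw [hαrho]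
        have h2 := pow_pos (sc_pos x) 3
        by_cases hx : 1 < rho τ x
        · have h3 : g x ≤ sSup S := le_csSup hSbd ⟨x, hx, rfl⟩
          rw [mul_assoc]
          apply mul_nonneg h2.le
          apply mul_nonneg_of_nonpos_of_nonpos <;> linarith
        · push Not at hx
          have h3 : sSup S ≤ g x := by
            apply csSup_le hSne
            rintro _ ⟨x', hx', rfl⟩
            apply cosh_ratio_anti hk0 hk1
            by_contra hlt
            push Not at hlt
            have := rho_mono τ hlt.le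
            have hx'' : 1 < rho τ x' := hx'
            linarith
          rw [mul_assoc]
          apply mul_nonneg h2.le
          apply mul_nonneg <;> linarith
  have hbase := base_nonneg hv.le hτ
  have h1 : 0 ≤ P v (fun x => α x * (g x - c)) 0 := P_nonneg hc _ _
  have e : (fun x => α x * (g x - c)) = fun x => α x * g x - c * α x := by
    funext x; ring
  rw [e, P_sub (hαE.mul hgE) (hαE.const_mul c), P_const_mul] at h1
  have h2 : 0 ≤ P v α 0 := hbase
  nlinarith

/-- **Key lemma.** Along the tilted flow the mean of `sech⁴` stays below its critical value. -/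
theorem mean_sc_four_le {v h κ : ℝ} (hv : 0 < v) (hκ : v * κ = P v (fun y => tanh y ^ 2) h)
    (hcrit : P v (fun y => sc y ^ 4) h ≤ κ) {τ : ℝ} (hτ : 0 ≤ τ) :
    P v (T τ (fun y => sc y ^ 4)) h ≤ κ := by
  wlog h0 : 0 ≤ h generalizing h
  · have h1 : 0 ≤ -h := by linarith
    have h2 := this (h := -h)
      (by rw [P_symm v h (fun y => by rw [tanh_neg]; ring)]; exact hκ)
      (by rw [P_symm v h (fun y => by rw [sc_neg])]; exact hcrit) h1
    rwa [P_symm v h (fun y => T_symm τ y (fun y => by rw [sc_neg]))] at h2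
  rcases le_total h v with hh | hh
  · exact (case_small hv h0 hh hτ).trans hcrit
  · have b4 := expBdd_sc_pow 4
    have b2 := expBdd_sc_pow 2
    have h1 : P v (T τ (fun y => sc y ^ 4)) h ≤ P v (fun y => sc y ^ 2) h := by
      refine P_mono (b4.T τ) b2 (fun y => ?_) v h
      refine le_trans (T_mono b4 b2 (fun w => ?_) τ y) (T_sc_sq_le hτ y)
      exact pow_le_pow_of_le_one (sc_pos w).le (sc_le_one w) (by norm_num)
    have h2 := case_large hv hh
    rw [← hκ] at h2
    exact h1.trans (le_of_mul_le_mul_left h2 hv)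

end Pool.Agent.ATLine
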