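import Mathlib
import Pool.Agent.Lib.ATLine.Gauss
import Pool.Agent.Lib.ATLine.Hyp
import Pool.Agent.Lib.ATLine.Tilt
import Pool.Agent.Lib.ATLine.Analytic

/-!
# Bounds for the overlap function `ψ`
-/

open MeasureTheory ProbabilityTheory Filter Topology Set Real

namespace Pool.Agent.ATLine

/-! ### The part above `q` -/

lemma hasDerivAt_T_sc_sq (x : ℝ) {τ : ℝ} (hτ : 0 < τ) :
    HasDerivAt (fun τ => T τ (fun y => sc y ^ 2) x) (-(T τ (fun y => sc y ^ 4) x)) τ := by
  have b1 := expBdd_sc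
  have b3 := expBdd_sc_pow 3
  have b' : ExpBdd (fun y => -(sc y * tanh y)) := (expBdd_sc.mul expBdd_tanh).neg
  have b'' : ExpBdd (fun y => sc y - 2 * sc y ^ 3) := expBdd_sc.sub (b3.const_mul 2)
  have h1 := hasDerivAt_P_s b1 b' b'' hasDerivAt_sc hasDerivAt_sc' x hτ
  have h2 : HasDerivAt (fun τ : ℝ => exp (-τ / 2)) (exp (-τ / 2) * (-1 / 2)) τ := by
    have h3 : HasDerivAt (fun τ : ℝ => -τ / 2) (-1 / 2) τ := (hasDerivAt_id τ).neg.div_const 2
    exact h3.exp
  have h4 := (h2.mul h1).mul_const (sc x)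
  have e : (fun τ => T τ (fun y => sc y ^ 2) x) = fun τ => exp (-τ / 2) * P τ sc x * sc x := by
    funext τ; exact T_sc_sq τ x
  rw [e]
  refine h4.congr_deriv ?_
  rw [T_sc_four, P_sub b1 (b3.const_mul 2), P_const_mul]
  ring

lemma T_sc_four_bounds {τ : ℝ} (hτ : 0 ≤ τ) (x : ℝ) :
    0 ≤ T τ (fun y => sc y ^ 4) x ∧ T τ (fun y => sc y ^ 4) x ≤ 1 := by
  refine ⟨T_nonneg (fun y => (pow_pos (sc_pos y) 4).le) _ _, ?_⟩
  have := T_mono (expBdd_sc_pow 4) (ExpBdd.const 1)
    (fun y => pow_le_one₀ (sc_pos y).le (sc_le_one y)) τ x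
  rwa [T_one hτ] at this

lemma T_sc_sq_bounds {τ : ℝ} (hτ : 0 ≤ τ) (x : ℝ) :
    0 ≤ T τ (fun y => sc y ^ 2) x ∧ T τ (fun y => sc y ^ 2) x ≤ 1 := by
  refine ⟨T_nonneg (fun y => (pow_pos (sc_pos y) 2).le) _ _, ?_⟩
  have := T_mono (expBdd_sc_pow 2) (ExpBdd.const 1)
    (fun y => pow_le_one₀ (sc_pos y).le (sc_le_one y)) τ x
  rwa [T_one hτ] at this

lemma continuous_T_s {φ : ℝ → ℝ} (h : ExpBdd φ) (x : ℝ) : Continuous (fun τ => T τ φ x) := by
  unfold T
  exact ((continuous_exp.comp (continuous_neg.div_const 2)).mul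
    (continuous_P_s (h.mul ExpBdd.cosh) x)).mul continuous_const

/-- the mean of `sech²` along the tilted flow has derivative minus the mean of `sech⁴` -/
lemma hasDerivAt_mean_sc_sq (v h : ℝ) {τ : ℝ} (hτ : 0 < τ) :
    HasDerivAt (fun τ => P v (T τ (fun y => sc y ^ 2)) h) (-(P v (T τ (fun y => sc y ^ 4)) h)) τ := by
  have b2 := expBdd_sc_pow 2
  have b4 := expBdd_sc_pow 4
  have := hasDerivAt_integral_of_dominated_loc_of_deriv_le (μ := gam)
    (F := fun τ z => T τ (fun y => sc y ^ 2) (h + √v * z))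
    (F' := fun τ z => -(T τ (fun y => sc y ^ 4) (h + √v * z))) (x₀ := τ)
    (s := Metric.ball τ τ) (bound := fun _ => 1) (Metric.ball_mem_nhds τ hτ)
    (Eventually.of_forall fun y => ((b2.T y).integrable_comp h (√v)).aestronglyMeasurable)
    ((b2.T τ).integrable_comp h (√v))
    ((b4.T τ).neg.integrable_comp h (√v)).aestronglyMeasurable ?_
    (integrable_const _) ?_
  · refine this.2.congr_deriv ?_
    rw [integral_neg]
    rfl
  · refine ae_of_all _ fun z y hy => ?_
    have hy0 : 0 < y := by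
      rw [Metric.mem_ball, Real.dist_eq, abs_lt] at hy
      linarith
    have := T_sc_four_bounds hy0.le (h + √v * z)
    rw [norm_neg, Real.norm_eq_abs, abs_of_nonneg this.1]
    exact this.2
  · refine ae_of_all _ fun z y hy => ?_
    have hy0 : 0 < y := by
      rw [Metric.mem_ball, Real.dist_eq, abs_lt] at hy
      linarith
    exact hasDerivAt_T_sc_sq (h + √v * z) hy0

lemma continuousOn_mean_sc_sq (v h : ℝ) :
    ContinuousOn (fun τ => P v (T τ (fun y => sc y ^ 2)) h) (Ici 0) := by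
  have b2 := expBdd_sc_pow 2
  refine continuousOn_of_dominated (bound := fun _ => 1)
    (F := fun τ z => T τ (fun y => sc y ^ 2) (h + √v * z)) ?_ ?_ (integrable_const _) ?_
  · intro τ _
    exact ((b2.T τ).integrable_comp h (√v)).aestronglyMeasurable
  · intro τ hτ
    refine ae_of_all _ fun z => ?_
    have := T_sc_sq_bounds hτ (h + √v * z)
    rw [Real.norm_eq_abs, abs_of_nonneg this.1]
    exact this.2
  · exact ae_of_all _ fun z => (continuous_T_s b2 _).continuousOn

lemma mean_tanh_sq_eq {v h τ : ℝ} (hτ : 0 ≤ τ) :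
    P v (T τ (fun y => tanh y ^ 2)) h = 1 - P v (T τ (fun y => sc y ^ 2)) h := by
  have b2 := expBdd_sc_pow 2
  have e : T τ (fun y => tanh y ^ 2) = fun x => 1 - T τ (fun y => sc y ^ 2) x := by
    funext x
    rw [T_sc_sq_eq hτ]; ring
  rw [e, P_sub (ExpBdd.const 1) (b2.T τ), P_const]

/-- if the mean of `sech⁴` stays below `κ` then the overlap grows at most at rate `κ` -/
theorem mean_tanh_sq_le {v h κ : ℝ}
    (hcrit : ∀ τ, 0 < τ → P v (T τ (fun y => sc y ^ 4)) h ≤ κ) {τ : ℝ} (hτ : 0 ≤ τ) :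
    P v (T τ (fun y => tanh y ^ 2)) h ≤ P v (fun y => tanh y ^ 2) h + κ * τ := by
  have hmv := Convex.mul_sub_le_image_sub_of_le_deriv (convex_Ici (0:ℝ))
    (f := fun τ => P v (T τ (fun y => sc y ^ 2)) h) (continuousOn_mean_sc_sq v h)
    (fun τ hτ => by
      rw [interior_Ici] at hτ
      exact (hasDerivAt_mean_sc_sq v h hτ).differentiableAt.differentiableWithinAt)
    (C := -κ) (fun τ hτ => by
      rw [interior_Ici] at hτ
      rw [(hasDerivAt_mean_sc_sq v h hτ).deriv]
      have := hcrit τ hτ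
      linarith) 0 (mem_Ici.2 (le_refl _)) τ hτ hτ
  rw [mean_tanh_sq_eq hτ]
  have e0 : P v (fun y => tanh y ^ 2) h = 1 - P v (T 0 (fun y => sc y ^ 2)) h := by
    rw [← mean_tanh_sq_eq (le_refl _)]
    have : T 0 (fun y => tanh y ^ 2) = fun y => tanh y ^ 2 := by
      funext y; exact T_zero _ _
    rw [this]
  rw [e0]
  linarith

/-! ### A Poincare type inequality -/

/-- the difference quotient of `tanh` -/
noncomputable def dq (x a : ℝ) : ℝ → ℝ := dslope (fun z => tanh (x + a * z)) 0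

lemma hasDerivAt_tanh_affine (x a z : ℝ) :
    HasDerivAt (fun z => tanh (x + a * z)) (a * sc (x + a * z) ^ 2) z := by
  have h1 : HasDerivAt (fun z => x + a * z) a z := by
    simpa using ((hasDerivAt_id z).const_mul a).const_add x
  have := (hasDerivAt_tanh (x + a * z)).comp z h1
  rw [mul_comm] at this
  exact this

lemma continuous_dq (x a : ℝ) : Continuous (dq x a) := by
  have h := (continuousOn_dslope (f := fun z => tanh (x + a * z)) (a := (0:ℝ)) (s := univ)
    univ_mem).2 ⟨?_, (hasDerivAt_tanh_affine x a 0).differentiableAt⟩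
  · rwa [continuousOn_univ] at h
  · exact (continuous_iff_continuousAt.2
      fun z => (hasDerivAt_tanh_affine x a z).continuousAt).continuousOn

lemma dq_zero (x a : ℝ) : dq x a 0 = a * sc x ^ 2 := by
  unfold dq
  rw [dslope_same, (hasDerivAt_tanh_affine x a 0).deriv]
  simp

lemma mul_dq (x a z : ℝ) : z * dq x a z = tanh (x + a * z) - tanh x := by
  by_cases h : z = 0
  · subst h; simp
  · unfold dq
    rw [dslope_of_ne _ h, slope_def_field]
    simp only [mul_zero, add_zero, sub_zero]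
    field_simp

lemma abs_dq_le (x a z : ℝ) : |dq x a z| ≤ |a| := by
  by_cases h : z = 0
  · subst h
    rw [dq_zero, abs_mul, abs_of_pos (pow_pos (sc_pos x) 2)]
    have := pow_le_one₀ (n := 2) (sc_pos x).le (sc_le_one x)
    have := abs_nonneg a
    nlinarith
  · have h1 := abs_tanh_sub_le x (x + a * z)
    rw [← mul_dq, abs_mul] at h1
    have h2 : x + a * z - x = a * z := by ring
    rw [h2, abs_mul, mul_comm |a|] at h1
    exact le_of_mul_le_mul_left h1 (abs_pos.2 h)

lemma expBdd_dq (x a : ℝ) : ExpBdd (dq x a) := ExpBdd.of_bounded (continuous_dq x a) (abs_dq_le x a)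

lemma hasDerivAt_mul_dq_sq (x a z : ℝ) :
    HasDerivAt (fun z => z * dq x a z ^ 2)
      (2 * dq x a z * (a * sc (x + a * z) ^ 2) - dq x a z ^ 2) z := by
  by_cases h : z = 0
  · subst h
    have e : 2 * dq x a 0 * (a * sc (x + a * 0) ^ 2) - dq x a 0 ^ 2 = dq x a 0 ^ 2 := by
      rw [dq_zero]; simp only [mul_zero, add_zero]; ring
    rw [e, hasDerivAt_iff_tendsto_slope]
    have h1 : Tendsto (fun z => dq x a z ^ 2) (𝓝[≠] 0) (𝓝 (dq x a 0 ^ 2)) :=
      (((continuous_dq x a).pow 2).tendsto 0).mono_left nhdsWithin_le_nhds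
    refine h1.congr' ?_
    filter_upwards [self_mem_nhdsWithin] with z hz
    have hz' : z ≠ 0 := hz
    rw [slope_def_field]
    simp only [zero_mul, sub_zero]
    field_simp
  · have h1 : HasDerivAt (fun z => (tanh (x + a * z) - tanh x) ^ 2 / z)
        (2 * dq x a z * (a * sc (x + a * z) ^ 2) - dq x a z ^ 2) z := by
      have h2 := (((hasDerivAt_tanh_affine x a z).sub_const (tanh x)).pow 2).div (hasDerivAt_id z) h
      refine h2.congr_deriv ?_
      have h3 := mul_dq x a z
      simp only [id, Pi.pow_apply, Nat.cast_ofNat, mul_one, Nat.add_one_sub_one, pow_one]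
      rw [← h3]
      field_simp
      try ring
    refine h1.congr_of_eventuallyEq ?_
    filter_upwards [isOpen_ne.mem_nhds h] with w hw
    have hw' : w ≠ 0 := hw
    rw [← mul_dq]
    field_simp

/-- a Hardy-Poincare identity for `tanh` -/
lemma hardy_identity (x a : ℝ) :
    ∫ z, (tanh (x + a * z) - tanh x) ^ 2 ∂gam + ∫ z, (a * sc (x + a * z) ^ 2 - dq x a z) ^ 2 ∂gam
      = ∫ z, (a * sc (x + a * z) ^ 2) ^ 2 ∂gam := by
  have bd : ExpBdd (fun z => a * sc (x + a * z) ^ 2) :=
    ((expBdd_sc_pow 2).comp_affine x a).const_mul a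
  have bu := expBdd_dq x a
  have b1 : ExpBdd (fun z => z * dq x a z ^ 2) := ExpBdd.id.mul (bu.pow 2)
  have b2 : ExpBdd (fun z => 2 * dq x a z * (a * sc (x + a * z) ^ 2) - dq x a z ^ 2) :=
    ((bu.const_mul 2).mul bd).sub (bu.pow 2)
  have h := stein b1 b2 (hasDerivAt_mul_dq_sq x a)
  have e : (fun z => z * (z * dq x a z ^ 2)) = fun z => (tanh (x + a * z) - tanh x) ^ 2 := by
    funext z
    rw [← mul_dq]
    ring
  rw [e] at h
  rw [h, ← integral_add b2.integrable ((bd.sub bu).pow 2).integrable]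
  refine integral_congr_ae (ae_of_all _ fun z => ?_)
  simp only
  ring

/-- Poincare inequality for `tanh` -/
lemma poincare_tanh {r : ℝ} (hr : 0 ≤ r) (x : ℝ) :
    P r (fun y => tanh y ^ 2) x - P r tanh x ^ 2 ≤ r * P r (fun y => sc y ^ 4) x := by
  have b2 : ExpBdd (fun y => tanh y ^ 2) := expBdd_tanh.pow 2
  have h := hardy_identity x (√r)
  have h1 : 0 ≤ ∫ z, (√r * sc (x + √r * z) ^ 2 - dq x (√r) z) ^ 2 ∂gam :=
    integral_nonneg fun z => sq_nonneg _
  have h2 : ∫ z, (√r * sc (x + √r * z) ^ 2) ^ 2 ∂gam = r * P r (fun y => sc y ^ 4) x := by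
    unfold P
    rw [← integral_const_mul]
    refine integral_congr_ae (ae_of_all _ fun z => ?_)
    simp only
    rw [mul_pow, sq_sqrt hr]
    ring
  have h3 : ∫ z, (tanh (x + √r * z) - tanh x) ^ 2 ∂gam =
      P r (fun y => tanh y ^ 2) x - 2 * tanh x * P r tanh x + tanh x ^ 2 := by
    have e : ∫ z, (tanh (x + √r * z) - tanh x) ^ 2 ∂gam
        = P r (fun y => (tanh y ^ 2 - (2 * tanh x) * tanh y) + tanh x ^ 2) x := by
      unfold P
      refine integral_congr_ae (ae_of_all _ fun z => ?_)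
      simp only
      ring
    have b3 : ExpBdd (fun y => (2 * tanh x) * tanh y) := expBdd_tanh.const_mul _
    rw [e, P_add (b2.sub b3) (ExpBdd.const _), P_sub b2 b3, P_const_mul, P_const]
  rw [h2, h3] at h
  nlinarith [sq_nonneg (P r tanh x - tanh x)]

/-- lower bound for the overlap function below `q` -/
theorem mean_sq_ge {s v : ℝ} (hs : 0 ≤ s) (hsv : s ≤ v) (h : ℝ) :
    P v (fun y => tanh y ^ 2) h - (v - s) * P v (fun y => sc y ^ 4) h ≤
      P s (fun x => P (v - s) tanh x ^ 2) h := by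
  have b2 : ExpBdd (fun y => tanh y ^ 2) := expBdd_tanh.pow 2
  have b4 := expBdd_sc_pow 4
  have hr : 0 ≤ v - s := by linarith
  have h1 : P s (fun x => P (v - s) (fun y => tanh y ^ 2) x - (v - s) * P (v - s) (fun y => sc y ^ 4) x) h
      ≤ P s (fun x => P (v - s) tanh x ^ 2) h := by
    refine P_mono ((b2.P _).sub ((b4.P _).const_mul _)) ((expBdd_tanh.P _).pow 2) (fun x => ?_) s h
    have := poincare_tanh hr x
    linarith
  rw [P_sub (b2.P _) ((b4.P _).const_mul _), P_const_mul, P_P b2 hs hr, P_P b4 hs hr] at h1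
  have e : s + (v - s) = v := by ring
  rw [e] at h1
  exact h1

end Pool.Agent.ATLine
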