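import Mathlib
import Pool.Agent.Lib.ATLine.Psi
import Pool.Agent.Lib.ATLine.Analytic

/-!
# The Latala-Guerra lemma
-/

open MeasureTheory ProbabilityTheory Filter Topology Set Real

namespace Pool.Agent.ATLine

/-- strict positivity of a Gaussian average -/
lemma P_pos_of_ne {φ : ℝ → ℝ} (h : ExpBdd φ) (hnn : ∀ y, 0 ≤ φ y) {y₀ : ℝ} (hy : 0 < φ y₀)
    {s : ℝ} (hs : 0 < s) (x : ℝ) : 0 < P s φ x := by
  unfold P
  rw [integral_pos_iff_support_of_nonneg (fun _ => hnn _) (h.integrable_comp _ _)]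
  have hopen : IsOpen (Function.support (fun z => φ (x + √s * z))) := by
    have hc : Continuous (fun z => φ (x + √s * z)) := by
      have := h.cont
      fun_prop
    exact hc.isOpen_support
  have hne : (Function.support (fun z => φ (x + √s * z))).Nonempty := by
    refine ⟨(y₀ - x) / √s, ?_⟩
    have hsq : √s ≠ 0 := (Real.sqrt_pos.2 hs).ne'
    have e : x + √s * ((y₀ - x) / √s) = y₀ := by field_simp; ring
    rw [Function.mem_support, e]
    exact hy.ne'
  rw [pos_iff_ne_zero]
  intro h0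
  have h1 := gaussianReal_absolutelyContinuous' (0:ℝ) (v := 1) one_ne_zero h0
  exact (hopen.measure_pos volume hne).ne' h1

lemma hasDerivAt_tanh_sq (y : ℝ) :
    HasDerivAt (fun y => tanh y ^ 2) (2 * tanh y * sc y ^ 2) y := by
  have := (hasDerivAt_tanh y).pow 2
  refine this.congr_deriv ?_
  simp only [Nat.cast_ofNat, Nat.add_one_sub_one, pow_one]

lemma hasDerivAt_tanh_sq' (y : ℝ) :
    HasDerivAt (fun y => 2 * tanh y * sc y ^ 2) (2 * sc y ^ 4 - 4 * tanh y ^ 2 * sc y ^ 2) y := by
  have h1 := (hasDerivAt_sc y).pow 2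
  have := ((hasDerivAt_tanh y).const_mul 2).mul h1
  refine this.congr_deriv ?_
  simp only [Nat.cast_ofNat, Nat.add_one_sub_one, pow_one, Pi.pow_apply]
  ring

lemma expBdd_tanh_sq' : ExpBdd (fun y => 2 * tanh y * sc y ^ 2) :=
  (expBdd_tanh.const_mul 2).mul (expBdd_sc_pow 2)

lemma expBdd_tanh_sq'' : ExpBdd (fun y => 2 * sc y ^ 4 - 4 * tanh y ^ 2 * sc y ^ 2) :=
  ((expBdd_sc_pow 4).const_mul 2).sub (((expBdd_tanh.pow 2).const_mul 4).mul (expBdd_sc_pow 2))

/-- `tanh² y - y tanh y sech² y` is nonnegative -/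
lemma tanh_gap_nonneg (y : ℝ) : 0 ≤ tanh y ^ 2 - y * (tanh y * sc y ^ 2) := by
  have key : ∀ y, 0 ≤ y → y * sc y ^ 2 ≤ tanh y := by
    intro y hy
    have h1 : y ≤ sinh y := self_le_sinh_iff.2 hy
    have h2 := sc_pos y
    have h3 := sc_le_one y
    have h4 : 0 ≤ sinh y := hy.trans h1
    rw [tanh_eq_sc]
    calc y * sc y ^ 2 ≤ sinh y * sc y ^ 2 := by gcongr
      _ ≤ sinh y * sc y := by
        have : sc y ^ 2 ≤ sc y := by nlinarith
        gcongr
  rcases le_total 0 y with hy | hy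
  · have h1 := key y hy
    have h2 := tanh_nonneg hy
    nlinarith
  · have h1 := key (-y) (by linarith)
    have h2 := tanh_nonneg (x := -y) (by linarith)
    rw [sc_neg, tanh_neg] at h1
    rw [tanh_neg] at h2
    nlinarith

lemma tanh_gap_pos : 0 < tanh 1 ^ 2 - 1 * (tanh 1 * sc 1 ^ 2) := by
  have h1 : (1:ℝ) < sinh 1 := self_lt_sinh_iff.2 one_pos
  have h2 := sc_pos 1
  have h3 := sc_le_one 1
  have h4 : 0 < tanh 1 := by
    rw [tanh_eq_sc]
    have : (0:ℝ) < sinh 1 := by linarith
    positivity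
  have h5 : 1 * sc 1 ^ 2 < tanh 1 := by
    rw [tanh_eq_sc]
    calc 1 * sc 1 ^ 2 < sinh 1 * sc 1 ^ 2 := by gcongr
      _ ≤ sinh 1 * sc 1 := by
        have : sc 1 ^ 2 ≤ sc 1 := by nlinarith
        gcongr
  nlinarith

/-- a Gaussian average with nonnegative mean of an odd function which is nonnegative on the
positive half-line -/
lemma P_odd_nonneg {φ : ℝ → ℝ} (hφ : ExpBdd φ) (hodd : ∀ y, φ (-y) = -φ y)
    (hpos : ∀ y, 0 ≤ y → 0 ≤ φ y) {s h : ℝ} (hs : 0 < s) (hh : 0 ≤ h) : 0 ≤ P s φ h := by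
  have hsq : 0 < √s := sqrt_pos.2 hs
  set b := h / √s with hb
  have hb0 : 0 ≤ b := by positivity
  have e : h = √s * b := by rw [hb]; field_simp
  rw [e, P_centred]
  refine mul_nonneg (exp_pos _).le ?_
  have hF : ExpBdd (fun z => φ (√s * z) * exp (b * z)) := by
    have h1 := hφ.comp_affine 0 (√s)
    simp only [zero_add] at h1
    exact h1.mul (ExpBdd.exp_mul b)
  rw [integral_symm hF]
  refine integral_nonneg (fun z => ?_)
  have key : ∀ z, 0 ≤ z → 0 ≤ φ (√s * z) * (exp (b * z) - exp (-(b * z))) := by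
    intro z hz
    refine mul_nonneg (hpos _ (by positivity)) ?_
    have : exp (-(b * z)) ≤ exp (b * z) := exp_le_exp.2 (by
      have : 0 ≤ b * z := by positivity
      linarith)
    linarith
  have e1 : √s * -z = -(√s * z) := by ring
  have e2 : b * -z = -(b * z) := by ring
  simp only [Pi.zero_apply]
  rw [e1, e2, hodd]
  rcases le_total 0 z with hz | hz
  · have := key z hz
    nlinarith
  · have := key (-z) (by linarith)
    rw [e1, e2, hodd, neg_neg] at this
    nlinarith

/-- the key inequality in the Latala-Guerra lemma -/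
lemma latala_deriv {s h : ℝ} (hs : 0 < s) (hh : 0 ≤ h) :
    s * (1 / 2 * P s (fun y => 2 * sc y ^ 4 - 4 * tanh y ^ 2 * sc y ^ 2) h) <
      P s (fun y => tanh y ^ 2) h := by
  have bt2 : ExpBdd (fun y => tanh y ^ 2) := expBdd_tanh.pow 2
  have b1 := expBdd_tanh_sq'
  have b2 := expBdd_tanh_sq''
  have bts : ExpBdd (fun y => tanh y * sc y ^ 2) := expBdd_tanh.mul (expBdd_sc_pow 2)
  have byts : ExpBdd (fun y => y * (tanh y * sc y ^ 2)) := ExpBdd.id.mul bts
  have hstein := stein_affine b1 b2 hasDerivAt_tanh_sq' h (√s)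
  have hss : √s * √s = s := mul_self_sqrt hs.le
  have e1 : s * (1 / 2 * P s (fun y => 2 * sc y ^ 4 - 4 * tanh y ^ 2 * sc y ^ 2) h) =
      1 / 2 * (√s * ∫ z, z * (2 * tanh (h + √s * z) * sc (h + √s * z) ^ 2) ∂gam) := by
    rw [hstein]
    unfold P
    rw [← mul_assoc (√s), hss]
    ring
  have e2 : 1 / 2 * (√s * ∫ z, z * (2 * tanh (h + √s * z) * sc (h + √s * z) ^ 2) ∂gam) =
      P s (fun y => y * (tanh y * sc y ^ 2) - h * (tanh y * sc y ^ 2)) h := by
    unfold P
    rw [← integral_const_mul, ← integral_const_mul]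
    refine integral_congr_ae (ae_of_all _ fun z => ?_)
    simp only
    ring
  have e3 : P s (fun y => y * (tanh y * sc y ^ 2) - h * (tanh y * sc y ^ 2)) h =
      P s (fun y => y * (tanh y * sc y ^ 2)) h - h * P s (fun y => tanh y * sc y ^ 2) h := by
    rw [P_sub byts (bts.const_mul h), P_const_mul]
  rw [e1, e2, e3]
  have h1 : 0 ≤ P s (fun y => tanh y * sc y ^ 2) h := by
    refine P_odd_nonneg bts (fun y => ?_) (fun y hy => ?_) hs hh
    · rw [tanh_neg, sc_neg]; ring
    · exact mul_nonneg (tanh_nonneg hy) (sq_nonneg _)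
  have h2 : 0 < P s (fun y => tanh y ^ 2 - y * (tanh y * sc y ^ 2)) h :=
    P_pos_of_ne (bt2.sub byts) tanh_gap_nonneg tanh_gap_pos hs h
  rw [P_sub bt2 byts] at h2
  nlinarith [mul_nonneg hh h1]

lemma tanh_sq_even (y : ℝ) : tanh (-y) ^ 2 = tanh y ^ 2 := by
  rw [tanh_neg]; ring

/-- **Latala-Guerra lemma**: `E tanh²(h + √s z) / s` is strictly decreasing in `s` -/
theorem latala_guerra (h : ℝ) {s s' : ℝ} (hs : 0 < s) (hss : s < s') :
    P s' (fun y => tanh y ^ 2) h / s' < P s (fun y => tanh y ^ 2) h / s := by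
  wlog hh : 0 ≤ h generalizing h
  · have := this (-h) (by linarith)
    rwa [P_symm s' h tanh_sq_even, P_symm s h tanh_sq_even] at this
  have bt2 : ExpBdd (fun y => tanh y ^ 2) := expBdd_tanh.pow 2
  have hd : ∀ u, 0 < u → HasDerivAt (fun s => P s (fun y => tanh y ^ 2) h / s)
      ((1 / 2 * P u (fun y => 2 * sc y ^ 4 - 4 * tanh y ^ 2 * sc y ^ 2) h * u -
        P u (fun y => tanh y ^ 2) h * 1) / u ^ 2) u := by
    intro u hu
    have h1 := hasDerivAt_P_s bt2 expBdd_tanh_sq' expBdd_tanh_sq'' hasDerivAt_tanh_sq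
      hasDerivAt_tanh_sq' h hu
    exact h1.div (hasDerivAt_id u) hu.ne'
  have hanti : StrictAntiOn (fun s => P s (fun y => tanh y ^ 2) h / s) (Icc s s') := by
    refine strictAntiOn_of_deriv_neg (convex_Icc _ _) ?_ (fun u hu => ?_)
    · intro u hu
      exact (hd u (lt_of_lt_of_le hs hu.1)).continuousAt.continuousWithinAt
    · rw [interior_Icc] at hu
      have hu0 : 0 < u := hs.trans hu.1
      rw [(hd u hu0).deriv]
      refine div_neg_of_neg_of_pos ?_ (by positivity)
      have := latala_deriv hu0 hh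
      nlinarith
  exact hanti ⟨le_refl _, hss.le⟩ ⟨hss.le, le_refl _⟩ hss

/-- at most one positive solution of the replica symmetric equation -/
lemma fixed_point_unique {h B q q' : ℝ} (hB : 0 < B) (hq : 0 < q) (hq' : 0 < q')
    (e : q = P (2 * B * q) (fun y => tanh y ^ 2) h)
    (e' : q' = P (2 * B * q') (fun y => tanh y ^ 2) h) : q = q' := by
  rcases lt_trichotomy q q' with hlt | heq | hgt
  · exfalso
    have := latala_guerra h (s := 2 * B * q) (s' := 2 * B * q') (by positivity) (by gcongr)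
    rw [← e, ← e'] at this
    have e1 : q / (2 * B * q) = 1 / (2 * B) := by field_simp
    have e2 : q' / (2 * B * q') = 1 / (2 * B) := by field_simp
    rw [e1, e2] at this
    exact lt_irrefl _ this
  · exact heq
  · exfalso
    have := latala_guerra h (s := 2 * B * q') (s' := 2 * B * q) (by positivity) (by gcongr)
    rw [← e, ← e'] at this
    have e1 : q / (2 * B * q) = 1 / (2 * B) := by field_simp
    have e2 : q' / (2 * B * q') = 1 / (2 * B) := by field_simp
    rw [e1, e2] at this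
    exact lt_irrefl _ this

/-- for `h = 0` the average of `tanh²` is smaller than the variance -/
lemma P_tanh_sq_lt {s : ℝ} (hs : 0 < s) : P s (fun y => tanh y ^ 2) 0 < s := by
  have bt2 : ExpBdd (fun y => tanh y ^ 2) := expBdd_tanh.pow 2
  have hle : ∀ u, 0 < u → P u (fun y => tanh y ^ 2) 0 ≤ u := by
    intro u hu
    have h1 := P_mono bt2 (expBdd_sub_sq 0) (fun y => by
      have := abs_tanh_sub_le 0 y
      rw [tanh_zero, sub_zero] at this
      exact sq_le_sq.2 (by simpa using this)) u 0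
    rw [P_sub_sq hu.le] at h1
    simpa using h1
  have h1 := latala_guerra 0 (s := s / 2) (s' := s) (by positivity) (by linarith)
  have h2 := hle (s / 2) (by positivity)
  have h3 : P (s / 2) (fun y => tanh y ^ 2) 0 / (s / 2) ≤ 1 := by
    rw [div_le_one (by positivity)]
    exact h2
  have h4 := h1.trans_le h3
  rwa [div_lt_one hs] at h4

end Pool.Agent.ATLine
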