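import Mathlib

/-!
# The Parisi functional of the Sherrington-Kirkpatrick model: definitions

These are the definitions used in the statements about problem MP_aa848e_pr.
-/

open MeasureTheory ProbabilityTheory Set

namespace Pool.Agent.ATLine

/-- `IsParisiSolution β ζ f`: the function `f` solves the Parisi equation
`∂_t f = -β² (∂_x² f + ζ(t) (∂_x f)²)` on `[0,1] × ℝ` with `f(1,x) = log cosh x`.

As `ζ` may jump, the equation is required in integrated form.  For every `t ∈ [0,1]` the function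
`f(t,·)` is twice differentiable, and `∂_x f`, `∂_x² f` are bounded and uniformly continuous on
`[0,1] × ℝ`. -/
structure IsParisiSolution (β : ℝ) (ζ : ℝ → ℝ) (f : ℝ → ℝ → ℝ) : Prop where
  terminal : ∀ x, f 1 x = Real.log (Real.cosh x)
  diff : ∀ t ∈ Icc (0:ℝ) 1, Differentiable ℝ (f t)
  diff2 : ∀ t ∈ Icc (0:ℝ) 1, Differentiable ℝ (deriv (f t))
  bdd : ∃ C, ∀ t ∈ Icc (0:ℝ) 1, ∀ x, |deriv (f t) x| ≤ C ∧ |deriv (deriv (f t)) x| ≤ C
  unif : UniformContinuousOn (fun p : ℝ × ℝ => deriv (f p.1) p.2) (Icc 0 1 ×ˢ univ)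
  unif2 : UniformContinuousOn (fun p : ℝ × ℝ => deriv (deriv (f p.1)) p.2) (Icc 0 1 ×ˢ univ)
  pde : ∀ t ∈ Icc (0:ℝ) 1, ∀ x, f t x = f 1 x +
    β ^ 2 * ∫ s in t..1, (deriv (deriv (f s)) x + ζ s * (deriv (f s) x) ^ 2)

/-- the value `log 2 + f(0,h) - β² ∫₀¹ ζ(t) t dt` of the Parisi functional at `ζ`, where `f` is the
solution of the Parisi equation for `ζ` -/
noncomputable def parisiValue (β h : ℝ) (ζ : ℝ → ℝ) (f : ℝ → ℝ → ℝ) : ℝ :=
  Real.log 2 + f 0 h - β ^ 2 * ∫ t in (0:ℝ)..1, ζ t * t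

/-- `IsOptimal β h μ`: `μ` is a probability measure on `[0,1]` minimising the Parisi
functional `P_{β,h}` (evaluated at distribution functions of probability measures on `[0,1]`). -/
def IsOptimal (β h : ℝ) (μ : Measure ℝ) : Prop :=
  (IsProbabilityMeasure μ ∧ μ (Icc 0 1) = 1) ∧
  ∃ f, IsParisiSolution β (cdf μ) f ∧
    ∀ (ν : Measure ℝ) (g : ℝ → ℝ → ℝ), IsProbabilityMeasure ν → ν (Icc 0 1) = 1 →
      IsParisiSolution β (cdf ν) g →
      parisiValue β h (cdf μ) f ≤ parisiValue β h (cdf ν) g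

/-- `(β,h)` is in the high temperature region: the Parisi measure is concentrated on one point. -/
def OptimalPoint (β h : ℝ) : Prop :=
  ∃ q ∈ Icc (0:ℝ) 1, IsOptimal β h (Measure.dirac q)

/-- the expectation of `φ(z)` for a standard Gaussian `z` -/
noncomputable def gaussE (φ : ℝ → ℝ) : ℝ := ∫ z, φ z ∂(gaussianReal 0 1)

/-- `(β,h)` satisfies the de Almeida-Thouless condition: `β² E cosh⁻⁴(β z √(2q) + h) ≤ 1/2` for the
largest solution `q ∈ [0,1]` of `q = E tanh²(β z √(2q) + h)`. -/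
def DATCondition (β h : ℝ) : Prop :=
  ∃ q : ℝ, IsGreatest {q | q ∈ Icc (0:ℝ) 1 ∧
      q = gaussE (fun z => Real.tanh (β * z * √(2 * q) + h) ^ 2)} q ∧
    β ^ 2 * gaussE (fun z => (Real.cosh (β * z * √(2 * q) + h) ^ 4)⁻¹) ≤ 1 / 2

end Pool.Agent.ATLine
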