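import Mathlib
import Pool.Agent.Lib.ATLine.Hyp
import Pool.Agent.Lib.ATLine.Defs

/-!
# The Cole-Hopf evolution
-/

open MeasureTheory ProbabilityTheory Filter Topology Set

namespace Pool.Agent.ATLine

/-- functions with three bounded derivatives -/
structure Nice (K : ℝ) (F F1 F2 F3 : ℝ → ℝ) : Prop where
  d1 : ∀ x, HasDerivAt F (F1 x) x
  d2 : ∀ x, HasDerivAt F1 (F2 x) x
  d3 : ∀ x, HasDerivAt F2 (F3 x) x
  cont : Continuous F3
  b1 : ∀ x, |F1 x| ≤ K
  b2 : ∀ x, |F2 x| ≤ K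
  b3 : ∀ x, |F3 x| ≤ K

lemma lip_of_deriv {F F1 : ℝ → ℝ} {K : ℝ} (d1 : ∀ x, HasDerivAt F (F1 x) x)
    (b1 : ∀ x, |F1 x| ≤ K) (x y : ℝ) : |F y - F x| ≤ K * |y - x| := by
  have := Convex.norm_image_sub_le_of_norm_hasDerivWithin_le (f := F) (f' := F1)
    (s := univ) (C := K) (fun z _ => (d1 z).hasDerivWithinAt) (fun z _ => b1 z) convex_univ
    (mem_univ x) (mem_univ y)
  simpa using this

namespace Nice

variable {K : ℝ} {F F1 F2 F3 : ℝ → ℝ}

lemma K_nonneg (h : Nice K F F1 F2 F3) : 0 ≤ K := (abs_nonneg _).trans (h.b1 0)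

lemma cont0 (h : Nice K F F1 F2 F3) : Continuous F :=
  continuous_iff_continuousAt.2 fun x => (h.d1 x).continuousAt

lemma cont1 (h : Nice K F F1 F2 F3) : Continuous F1 :=
  continuous_iff_continuousAt.2 fun x => (h.d2 x).continuousAt

lemma cont2 (h : Nice K F F1 F2 F3) : Continuous F2 :=
  continuous_iff_continuousAt.2 fun x => (h.d3 x).continuousAt

lemma e1 (h : Nice K F F1 F2 F3) : ExpBdd F1 := ExpBdd.of_bounded h.cont1 h.b1

lemma e2 (h : Nice K F F1 F2 F3) : ExpBdd F2 := ExpBdd.of_bounded h.cont2 h.b2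

lemma e3 (h : Nice K F F1 F2 F3) : ExpBdd F3 := ExpBdd.of_bounded h.cont h.b3

lemma lip (h : Nice K F F1 F2 F3) (x y : ℝ) : |F y - F x| ≤ K * |y - x| :=
  lip_of_deriv h.d1 h.b1 x y

lemma abs_le (h : Nice K F F1 F2 F3) (y : ℝ) : |F y| ≤ |F 0| + K * |y| := by
  have h1 := h.lip 0 y
  have h2 := abs_add_le (F 0) (F y - F 0)
  rw [sub_zero] at h1
  have e : F 0 + (F y - F 0) = F y := by ring
  rw [e] at h2
  linarith

lemma expBdd_exp (h : Nice K F F1 F2 F3) (m : ℝ) : ExpBdd (fun y => Real.exp (m * F y)) := by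
  have hc := h.cont0
  have hK := h.K_nonneg
  refine ⟨by fun_prop, Real.exp (|m| * |F 0|), |m| * K, (Real.exp_pos _).le, by positivity,
    fun y => ?_⟩
  rw [Real.abs_exp, ← Real.exp_add]
  apply Real.exp_le_exp.2
  have h1 : m * F y ≤ |m| * |F y| := by rw [← abs_mul]; exact le_abs_self _
  have h2 := mul_le_mul_of_nonneg_left (h.abs_le y) (abs_nonneg m)
  linarith

lemma e0 (h : Nice K F F1 F2 F3) : ExpBdd F := by
  obtain ⟨C, A, h1, h2, h3⟩ := ((h.expBdd_exp 1).add (h.expBdd_exp (-1))).bound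
  refine ⟨h.cont0, C, A, h1, h2, fun x => ?_⟩
  refine le_trans ?_ (h3 x)
  refine le_trans ?_ (le_abs_self _)
  have e1 := Real.add_one_le_exp (1 * F x)
  have e2 := Real.add_one_le_exp (-1 * F x)
  have e3 := Real.exp_pos (1 * F x)
  have e4 := Real.exp_pos (-1 * F x)
  rcases abs_cases (F x) with ⟨h, _⟩ | ⟨h, _⟩ <;> rw [h] <;> linarith

end Nice

/-- tilted Gaussian averages -/
noncomputable def A (m : ℝ) (F φ : ℝ → ℝ) (s x : ℝ) : ℝ :=
  P s (fun y => φ y * Real.exp (m * F y)) x / P s (fun y => Real.exp (m * F y)) x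

section

variable {K m : ℝ} {F F1 F2 F3 : ℝ → ℝ}

lemma Z_pos (h : Nice K F F1 F2 F3) (m s x : ℝ) : 0 < P s (fun y => Real.exp (m * F y)) x :=
  P_pos (h.expBdd_exp m) (fun _ => Real.exp_pos _) s x

lemma A_sub (h : Nice K F F1 F2 F3) {φ ψ : ℝ → ℝ} (hφ : ExpBdd φ) (hψ : ExpBdd ψ) (s x : ℝ) :
    A m F (fun y => φ y - ψ y) s x = A m F φ s x - A m F ψ s x := by
  unfold A
  have e : (fun y => (φ y - ψ y) * Real.exp (m * F y)) =
      fun y => φ y * Real.exp (m * F y) - ψ y * Real.exp (m * F y) := by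
    funext y; ring
  rw [e, P_sub (hφ.mul (h.expBdd_exp m)) (hψ.mul (h.expBdd_exp m)), sub_div]

lemma A_add (h : Nice K F F1 F2 F3) {φ ψ : ℝ → ℝ} (hφ : ExpBdd φ) (hψ : ExpBdd ψ) (s x : ℝ) :
    A m F (fun y => φ y + ψ y) s x = A m F φ s x + A m F ψ s x := by
  unfold A
  have e : (fun y => (φ y + ψ y) * Real.exp (m * F y)) =
      fun y => φ y * Real.exp (m * F y) + ψ y * Real.exp (m * F y) := by
    funext y; ring
  rw [e, P_add (hφ.mul (h.expBdd_exp m)) (hψ.mul (h.expBdd_exp m)), add_div]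

lemma A_const_mul (φ : ℝ → ℝ) (c s x : ℝ) :
    A m F (fun y => c * φ y) s x = c * A m F φ s x := by
  unfold A
  have e : (fun y => c * φ y * Real.exp (m * F y)) = fun y => c * (φ y * Real.exp (m * F y)) := by
    funext y; ring
  rw [e, P_const_mul, mul_div_assoc]

lemma A_const (h : Nice K F F1 F2 F3) (c s x : ℝ) : A m F (fun _ => c) s x = c := by
  unfold A
  rw [P_const_mul, mul_div_assoc, div_self (Z_pos h m s x).ne', mul_one]

lemma A_mono (h : Nice K F F1 F2 F3) {φ ψ : ℝ → ℝ} (hφ : ExpBdd φ) (hψ : ExpBdd ψ)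
    (hle : ∀ y, φ y ≤ ψ y) (s x : ℝ) : A m F φ s x ≤ A m F ψ s x := by
  unfold A
  have := Z_pos h m s x
  have h2 := P_mono (hφ.mul (h.expBdd_exp m)) (hψ.mul (h.expBdd_exp m))
    (fun y => mul_le_mul_of_nonneg_right (hle y) (Real.exp_pos (m * F y)).le) s x
  gcongr

lemma A_abs_le (h : Nice K F F1 F2 F3) {φ : ℝ → ℝ} (hφ : ExpBdd φ) {C : ℝ}
    (hle : ∀ y, |φ y| ≤ C) (s x : ℝ) : |A m F φ s x| ≤ C := by
  rw [abs_le]
  constructor
  · have := A_mono (m := m) h (ExpBdd.const (-C)) hφ (fun y => (abs_le.1 (hle y)).1) s x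
    rwa [A_const h] at this
  · have := A_mono (m := m) h hφ (ExpBdd.const C) (fun y => (abs_le.1 (hle y)).2) s x
    rwa [A_const h] at this

lemma A_zero (φ : ℝ → ℝ) (x : ℝ) : A m F φ 0 x = φ x := by
  unfold A
  rw [P_zero, P_zero, mul_div_assoc, div_self (Real.exp_pos _).ne', mul_one]

lemma continuous_A_x (h : Nice K F F1 F2 F3) {φ : ℝ → ℝ} (hφ : ExpBdd φ) (s : ℝ) :
    Continuous (fun x => A m F φ s x) :=
  (continuous_P_x (hφ.mul (h.expBdd_exp m)) s).div (continuous_P_x (h.expBdd_exp m) s)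
    (fun x => (Z_pos h m s x).ne')

lemma continuous_A_s (h : Nice K F F1 F2 F3) {φ : ℝ → ℝ} (hφ : ExpBdd φ) (x : ℝ) :
    Continuous (fun s => A m F φ s x) :=
  (continuous_P_s (hφ.mul (h.expBdd_exp m)) x).div (continuous_P_s (h.expBdd_exp m) x)
    (fun s => (Z_pos h m s x).ne')

lemma hasDerivAt_w (h : Nice K F F1 F2 F3) (m y : ℝ) :
    HasDerivAt (fun y => Real.exp (m * F y)) (m * (F1 y * Real.exp (m * F y))) y := by
  have := ((h.d1 y).const_mul m).exp
  refine this.congr_deriv ?_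
  ring

lemma hasDerivAt_mul_w (h : Nice K F F1 F2 F3) (m y : ℝ) {φ : ℝ → ℝ} {φ' : ℝ}
    (hd : HasDerivAt φ φ' y) :
    HasDerivAt (fun y => φ y * Real.exp (m * F y))
      ((φ' + m * F1 y * φ y) * Real.exp (m * F y)) y := by
  have := hd.mul (hasDerivAt_w h m y)
  refine this.congr_deriv ?_
  ring

lemma hasDerivAt_Z (h : Nice K F F1 F2 F3) (m s x : ℝ) :
    HasDerivAt (fun x => P s (fun y => Real.exp (m * F y)) x)
      (m * P s (fun y => F1 y * Real.exp (m * F y)) x) x := by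
  have h1 := hasDerivAt_P_x (h.expBdd_exp m)
    (((h.e1).mul (h.expBdd_exp m)).const_mul m) (hasDerivAt_w h m) s x
  rw [P_const_mul] at h1
  exact h1

lemma hasDerivAt_A (h : Nice K F F1 F2 F3) {φ φ' : ℝ → ℝ} (hφ : ExpBdd φ) (hφ' : ExpBdd φ')
    (hd : ∀ y, HasDerivAt φ (φ' y) y) (s x : ℝ) :
    HasDerivAt (fun x => A m F φ s x)
      (A m F (fun y => φ' y + m * F1 y * φ y) s x - m * A m F φ s x * A m F F1 s x) x := by
  have b1 : ExpBdd (fun y => φ' y + m * F1 y * φ y) := hφ'.add ((h.e1.const_mul m).mul hφ)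
  have h1 := hasDerivAt_P_x (hφ.mul (h.expBdd_exp m)) (b1.mul (h.expBdd_exp m))
    (fun y => hasDerivAt_mul_w h m y (hd y)) s x
  have h2 := hasDerivAt_Z h m s x
  have hZ := Z_pos h m s x
  have h3 := h1.div h2 hZ.ne'
  refine h3.congr_deriv ?_
  unfold A
  field_simp

/-- the evolution operator -/
noncomputable def E (m s : ℝ) (F : ℝ → ℝ) (x : ℝ) : ℝ :=
  if m = 0 then P s F x else 1 / m * Real.log (P s (fun y => Real.exp (m * F y)) x)

/-- first derivative of the evolution -/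
noncomputable def E1 (m s : ℝ) (F F1 : ℝ → ℝ) (x : ℝ) : ℝ := A m F F1 s x

/-- second derivative of the evolution -/
noncomputable def E2 (m s : ℝ) (F F1 F2 : ℝ → ℝ) (x : ℝ) : ℝ :=
  A m F (fun y => F2 y + m * F1 y * F1 y) s x - m * A m F F1 s x * A m F F1 s x

/-- third derivative of the evolution -/
noncomputable def E3 (m s : ℝ) (F F1 F2 F3 : ℝ → ℝ) (x : ℝ) : ℝ :=
  A m F (fun y => F3 y + 3 * m * F1 y * F2 y + m ^ 2 * F1 y ^ 3) s x
    - 3 * m * A m F (fun y => F2 y + m * F1 y * F1 y) s x * A m F F1 s x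
    + 2 * m ^ 2 * A m F F1 s x ^ 3

lemma E_zero_time (m : ℝ) (F : ℝ → ℝ) (x : ℝ) : E m 0 F x = F x := by
  unfold E
  split_ifs with hm
  · exact P_zero _ _
  · rw [P_zero, Real.log_exp]
    field_simp

lemma hasDerivAt_E (h : Nice K F F1 F2 F3) (m s x : ℝ) :
    HasDerivAt (E m s F) (E1 m s F F1 x) x := by
  unfold E E1
  by_cases hm : m = 0
  · subst hm
    simp only [if_true]
    have := hasDerivAt_P_x h.e0 h.e1 h.d1 s x
    refine this.congr_deriv ?_
    unfold A
    simp [P_const]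
  · simp only [if_neg hm]
    have h1 := ((hasDerivAt_Z h m s x).log (Z_pos h m s x).ne').const_mul (1 / m)
    refine h1.congr_deriv ?_
    unfold A
    field_simp

lemma hasDerivAt_E1 (h : Nice K F F1 F2 F3) (m s x : ℝ) :
    HasDerivAt (E1 m s F F1) (E2 m s F F1 F2 x) x :=
  hasDerivAt_A h h.e1 h.e2 h.d2 s x

lemma expBdd_phi2 (h : Nice K F F1 F2 F3) (m : ℝ) : ExpBdd (fun y => F2 y + m * F1 y * F1 y) :=
  h.e2.add ((h.e1.const_mul m).mul h.e1)

lemma expBdd_phi3 (h : Nice K F F1 F2 F3) (m : ℝ) :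
    ExpBdd (fun y => F3 y + 3 * m * F1 y * F2 y + m ^ 2 * F1 y ^ 3) :=
  (h.e3.add ((h.e1.const_mul (3 * m)).mul h.e2)).add ((h.e1.pow 3).const_mul (m ^ 2))

lemma hasDerivAt_E2 (h : Nice K F F1 F2 F3) (m s x : ℝ) :
    HasDerivAt (E2 m s F F1 F2) (E3 m s F F1 F2 F3 x) x := by
  have b1 : ExpBdd (fun y => F3 y + 2 * m * F1 y * F2 y) :=
    h.e3.add ((h.e1.const_mul (2 * m)).mul h.e2)
  have h1 := hasDerivAt_A (m := m) h (expBdd_phi2 h m) b1 (fun y => by
    have := (h.d3 y).add (((h.d2 y).const_mul m).mul (h.d2 y))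
    refine this.congr_deriv ?_
    ring) s x
  have h2 := hasDerivAt_E1 h m s x
  have h3 := h1.sub ((h2.const_mul m).mul h2)
  refine h3.congr_deriv ?_
  have e : (fun y => F3 y + 2 * m * F1 y * F2 y + m * F1 y * (F2 y + m * F1 y * F1 y)) =
      fun y => F3 y + 3 * m * F1 y * F2 y + m ^ 2 * F1 y ^ 3 := by
    funext y; ring
  rw [e]
  unfold E3 E2 E1
  ring

/-- the class is preserved by the evolution -/
lemma Nice.evol (h : Nice K F F1 F2 F3) {m : ℝ} (hm0 : 0 ≤ m) (hm1 : m ≤ 1) (s : ℝ) :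
    Nice (K + 6 * K ^ 2 + 6 * K ^ 3) (E m s F) (E1 m s F F1) (E2 m s F F1 F2)
      (E3 m s F F1 F2 F3) := by
  have hK := h.K_nonneg
  have a1 : ∀ x, |A m F F1 s x| ≤ K := fun x => A_abs_le h h.e1 h.b1 s x
  have a2 : ∀ x, |A m F (fun y => F2 y + m * F1 y * F1 y) s x| ≤ K + K ^ 2 := fun x => by
    refine A_abs_le h (expBdd_phi2 h m) (fun y => ?_) s x
    refine (abs_add_le _ _).trans ?_
    rw [abs_mul, abs_mul, abs_of_nonneg hm0]
    have h1 := h.b1 y
    have h2 := h.b2 y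
    have h3 : |F1 y| * |F1 y| ≤ K * K := mul_le_mul h1 h1 (abs_nonneg _) hK
    have h4 : m * (|F1 y| * |F1 y|) ≤ 1 * (K * K) :=
      mul_le_mul hm1 h3 (by positivity) zero_le_one
    nlinarith
  have a3 : ∀ x, |A m F (fun y => F3 y + 3 * m * F1 y * F2 y + m ^ 2 * F1 y ^ 3) s x|
      ≤ K + 3 * K ^ 2 + K ^ 3 := fun x => by
    refine A_abs_le h (expBdd_phi3 h m) (fun y => ?_) s x
    refine (abs_add_le _ _).trans ?_
    have h1 := h.b1 y
    have h2 := h.b2 y
    have h5 := h.b3 y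
    have h6 : |F3 y + 3 * m * F1 y * F2 y| ≤ K + 3 * K ^ 2 := by
      refine (abs_add_le _ _).trans ?_
      rw [abs_mul, abs_mul, abs_mul, abs_of_nonneg hm0, abs_of_pos (by norm_num : (0:ℝ) < 3)]
      have h3 : |F1 y| * |F2 y| ≤ K * K := mul_le_mul h1 h2 (abs_nonneg _) hK
      have h4 : m * (|F1 y| * |F2 y|) ≤ 1 * (K * K) :=
        mul_le_mul hm1 h3 (by positivity) zero_le_one
      nlinarith
    have h7 : |m ^ 2 * F1 y ^ 3| ≤ K ^ 3 := by
      rw [abs_mul, abs_pow, abs_pow, abs_of_nonneg hm0]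
      have h8 : |F1 y| ^ 3 ≤ K ^ 3 := pow_le_pow_left₀ (abs_nonneg _) h1 3
      have h9 : m ^ 2 ≤ 1 := pow_le_one₀ hm0 hm1
      calc m ^ 2 * |F1 y| ^ 3 ≤ 1 * K ^ 3 := mul_le_mul h9 h8 (by positivity) zero_le_one
        _ = K ^ 3 := one_mul _
    linarith
  have q2 : 0 ≤ K ^ 2 := sq_nonneg K
  have q3 : 0 ≤ K ^ 3 := pow_nonneg hK 3
  refine ⟨hasDerivAt_E h m s, hasDerivAt_E1 h m s, hasDerivAt_E2 h m s, ?_, ?_, ?_, ?_⟩
  · unfold E3
    have c1 := continuous_A_x (m := m) h h.e1 s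
    have c2 := continuous_A_x (m := m) h (expBdd_phi2 h m) s
    have c3 := continuous_A_x (m := m) h (expBdd_phi3 h m) s
    exact (c3.sub ((continuous_const.mul c2).mul c1)).add (continuous_const.mul (c1.pow 3))
  · intro x
    exact (a1 x).trans (by linarith)
  · intro x
    unfold E2
    refine (abs_sub _ _).trans ?_
    rw [abs_mul, abs_mul, abs_of_nonneg hm0]
    have h3 : |A m F F1 s x| * |A m F F1 s x| ≤ K * K :=
      mul_le_mul (a1 x) (a1 x) (abs_nonneg _) hK
    have h4 : m * (|A m F F1 s x| * |A m F F1 s x|) ≤ 1 * (K * K) :=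
      mul_le_mul hm1 h3 (by positivity) zero_le_one
    have := a2 x
    nlinarith
  · intro x
    unfold E3
    refine (abs_add_le _ _).trans ?_
    have g1 := abs_sub (A m F (fun y => F3 y + 3 * m * F1 y * F2 y + m ^ 2 * F1 y ^ 3) s x)
      (3 * m * A m F (fun y => F2 y + m * F1 y * F1 y) s x * A m F F1 s x)
    have g2 : |3 * m * A m F (fun y => F2 y + m * F1 y * F1 y) s x * A m F F1 s x| ≤
        3 * (K ^ 2 + K ^ 3) := by
      rw [abs_mul, abs_mul, abs_mul, abs_of_nonneg hm0, abs_of_pos (by norm_num : (0:ℝ) < 3)]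
      have h3 : |A m F (fun y => F2 y + m * F1 y * F1 y) s x| * |A m F F1 s x| ≤
          (K + K ^ 2) * K := mul_le_mul (a2 x) (a1 x) (abs_nonneg _) (by positivity)
      have h4 : m * (|A m F (fun y => F2 y + m * F1 y * F1 y) s x| * |A m F F1 s x|) ≤
          1 * ((K + K ^ 2) * K) := mul_le_mul hm1 h3 (by positivity) zero_le_one
      nlinarith
    have g3 : |2 * m ^ 2 * A m F F1 s x ^ 3| ≤ 2 * K ^ 3 := by
      rw [abs_mul, abs_mul, abs_pow, abs_pow, abs_of_nonneg hm0,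
        abs_of_pos (by norm_num : (0:ℝ) < 2)]
      have h8 : |A m F F1 s x| ^ 3 ≤ K ^ 3 := pow_le_pow_left₀ (abs_nonneg _) (a1 x) 3
      have h9 : m ^ 2 ≤ 1 := pow_le_one₀ hm0 hm1
      have : m ^ 2 * |A m F F1 s x| ^ 3 ≤ 1 * K ^ 3 :=
        mul_le_mul h9 h8 (by positivity) zero_le_one
      linarith
    have := a3 x
    linarith

/-- semigroup property of the evolution -/
lemma E_E (h : Nice K F F1 F2 F3) {m : ℝ} {r s : ℝ} (hr : 0 ≤ r) (hs : 0 ≤ s) (x : ℝ) :
    E m r (E m s F) x = E m (r + s) F x := by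
  unfold E
  by_cases hm : m = 0
  · subst hm
    simp only [if_true]
    exact P_P h.e0 hr hs x
  · simp only [if_neg hm]
    have e : (fun y => Real.exp (m * (1 / m * Real.log (P s (fun y => Real.exp (m * F y)) y)))) =
        P s (fun y => Real.exp (m * F y)) := by
      funext y
      have : m * (1 / m * Real.log (P s (fun y => Real.exp (m * F y)) y)) =
          Real.log (P s (fun y => Real.exp (m * F y)) y) := by field_simp
      rw [this, Real.exp_log (Z_pos h m s y)]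
    rw [e, P_P (h.expBdd_exp m) hr hs]

/-- continuity in time of the evolution -/
lemma continuous_E_s (h : Nice K F F1 F2 F3) (m x : ℝ) : Continuous (fun s => E m s F x) := by
  unfold E
  by_cases hm : m = 0
  · simp only [if_pos hm]
    exact continuous_P_s h.e0 x
  · simp only [if_neg hm]
    exact continuous_const.mul
      ((continuous_P_s (h.expBdd_exp m) x).log (fun s => (Z_pos h m s x).ne'))

/-- the equation satisfied by the evolution -/
lemma hasDerivAt_E_s (h : Nice K F F1 F2 F3) (m x : ℝ) {s : ℝ} (hs : 0 < s) :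
    HasDerivAt (fun s => E m s F x)
      (1 / 2 * (E2 m s F F1 F2 x + m * E1 m s F F1 x ^ 2)) s := by
  have hE : E2 m s F F1 F2 x + m * E1 m s F F1 x ^ 2 =
      A m F (fun y => F2 y + m * F1 y * F1 y) s x := by
    unfold E2 E1; ring
  rw [hE]
  unfold E
  by_cases hm : m = 0
  · subst hm
    simp only [if_true]
    have := hasDerivAt_P_s h.e0 h.e1 h.e2 h.d1 h.d2 x hs
    refine this.congr_deriv ?_
    unfold A
    simp [P_const]
  · simp only [if_neg hm]
    have d0 := hasDerivAt_w h m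
    have d1 : ∀ y, HasDerivAt (fun y => m * (F1 y * Real.exp (m * F y)))
        (m * ((F2 y + m * F1 y * F1 y) * Real.exp (m * F y))) y := fun y =>
      (hasDerivAt_mul_w h m y (h.d2 y)).const_mul m
    have h1 := hasDerivAt_P_s (h.expBdd_exp m) ((h.e1.mul (h.expBdd_exp m)).const_mul m)
      (((expBdd_phi2 h m).mul (h.expBdd_exp m)).const_mul m) d0 d1 x hs
    rw [P_const_mul] at h1
    have h2 := (h1.log (Z_pos h m s x).ne').const_mul (1 / m)
    refine h2.congr_deriv ?_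
    unfold A
    field_simp

/-! ### Modulus of continuity in time -/

/-- the constant in the modulus of continuity -/
noncomputable def cmod (K S : ℝ) : ℝ :=
  (∫ z, |z| * Real.exp (K * √S * |z|) ∂gam) / ∫ z, Real.exp (-(K * √S * |z|)) ∂gam

lemma cmod_nonneg (K S : ℝ) : 0 ≤ cmod K S :=
  div_nonneg (integral_nonneg fun z => by positivity) (integral_nonneg fun z => by positivity)

lemma expBdd_abs_exp (a : ℝ) : Integrable (fun z : ℝ => |z| * Real.exp (a * |z|)) gam := by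
  have hc : Continuous (fun z : ℝ => |z| * Real.exp (a * |z|)) := by fun_prop
  refine (integrable_exp_abs (a + 1)).mono' hc.aestronglyMeasurable (ae_of_all _ fun z => ?_)
  rw [Real.norm_eq_abs, abs_mul, abs_abs, Real.abs_exp]
  have : |z| ≤ Real.exp |z| := by have := Real.add_one_le_exp |z|; linarith
  calc |z| * Real.exp (a * |z|) ≤ Real.exp |z| * Real.exp (a * |z|) := by gcongr
    _ = Real.exp ((a + 1) * |z|) := by rw [← Real.exp_add]; ring_nf

lemma A_sub_le (h : Nice K F F1 F2 F3) {m : ℝ} (hm0 : 0 ≤ m) (hm1 : m ≤ 1) {φ : ℝ → ℝ} {L : ℝ}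
    (hφ : ExpBdd φ) (hL : ∀ x y, |φ y - φ x| ≤ L * |y - x|) {s S : ℝ} (hs : 0 ≤ s) (hS : s ≤ S)
    (x : ℝ) : |A m F φ s x - φ x| ≤ L * cmod K S * √s := by
  have hK := h.K_nonneg
  have hL0 : 0 ≤ L := by
    have := (abs_nonneg _).trans (hL 0 1)
    simpa using this
  have e1 : A m F φ s x - φ x = A m F (fun y => φ y - φ x) s x := by
    rw [A_sub h hφ (ExpBdd.const _), A_const h]
  rw [e1]
  unfold A
  rw [abs_div, abs_of_pos (Z_pos h m s x)]
  set κ := K * √S with hκ
  have hss : √s ≤ √S := Real.sqrt_le_sqrt hS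
  -- comparison of the weights
  have hw : ∀ z, |m * F (x + √s * z) - m * F x| ≤ κ * |z| := by
    intro z
    rw [← mul_sub, abs_mul, abs_of_nonneg hm0]
    have h1 := h.lip x (x + √s * z)
    have e2 : x + √s * z - x = √s * z := by ring
    rw [e2, abs_mul, abs_of_nonneg (Real.sqrt_nonneg s)] at h1
    have h2 : K * (√s * |z|) ≤ K * (√S * |z|) := by gcongr
    calc m * |F (x + √s * z) - F x| ≤ 1 * (K * (√S * |z|)) :=
          mul_le_mul hm1 (h1.trans h2) (abs_nonneg _) zero_le_one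
      _ = κ * |z| := by rw [hκ]; ring
  have hnum : |P s (fun y => (φ y - φ x) * Real.exp (m * F y)) x| ≤
      L * √s * Real.exp (m * F x) * ∫ z, |z| * Real.exp (κ * |z|) ∂gam := by
    unfold P
    refine abs_integral_le_integral_abs.trans ?_
    rw [← integral_const_mul]
    refine integral_mono ((((hφ.sub (ExpBdd.const (φ x))).mul (h.expBdd_exp m)).integrable_comp
      x (√s)).abs) ((expBdd_abs_exp κ).const_mul _) (fun z => ?_)
    simp only
    rw [abs_mul, Real.abs_exp]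
    have h1 := hL x (x + √s * z)
    have e2 : x + √s * z - x = √s * z := by ring
    rw [e2, abs_mul, abs_of_nonneg (Real.sqrt_nonneg s)] at h1
    have h2 : Real.exp (m * F (x + √s * z)) ≤ Real.exp (m * F x) * Real.exp (κ * |z|) := by
      rw [← Real.exp_add]
      apply Real.exp_le_exp.2
      have := (abs_le.1 (hw z)).2
      linarith
    calc |φ (x + √s * z) - φ x| * Real.exp (m * F (x + √s * z))
        ≤ (L * (√s * |z|)) * (Real.exp (m * F x) * Real.exp (κ * |z|)) :=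
          mul_le_mul h1 h2 (Real.exp_pos _).le (by positivity)
      _ = _ := by ring
  have hden : Real.exp (m * F x) * ∫ z, Real.exp (-(κ * |z|)) ∂gam ≤
      P s (fun y => Real.exp (m * F y)) x := by
    unfold P
    rw [← integral_const_mul]
    have hi : Integrable (fun z : ℝ => Real.exp (-(κ * |z|))) gam := by
      have := integrable_exp_abs (-κ)
      simpa only [neg_mul] using this
    refine integral_mono (hi.const_mul _) ((h.expBdd_exp m).integrable_comp x (√s)) (fun z => ?_)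
    simp only
    rw [← Real.exp_add]
    apply Real.exp_le_exp.2
    have := (abs_le.1 (hw z)).1
    linarith
  have hIpos : 0 < ∫ z, Real.exp (-(κ * |z|)) ∂gam := by
    have hi : Integrable (fun z : ℝ => Real.exp (-(κ * |z|))) gam := by
      have := integrable_exp_abs (-κ)
      simpa only [neg_mul] using this
    rw [integral_pos_iff_support_of_nonneg (fun _ => (Real.exp_pos _).le) hi]
    have : Function.support (fun z : ℝ => Real.exp (-(κ * |z|))) = univ := by
      ext z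
      simp [(Real.exp_pos _).ne']
    rw [this]
    simp
  have hw0 := Real.exp_pos (m * F x)
  have hJ0 : 0 ≤ ∫ z, |z| * Real.exp (κ * |z|) ∂gam := integral_nonneg fun z => by positivity
  rw [div_le_iff₀ (Z_pos h m s x)]
  refine hnum.trans ?_
  have h3 : L * √s * Real.exp (m * F x) * ∫ z, |z| * Real.exp (κ * |z|) ∂gam
      = L * cmod K S * √s * (Real.exp (m * F x) * ∫ z, Real.exp (-(κ * |z|)) ∂gam) := by
    unfold cmod
    rw [← hκ]
    generalize (∫ z, |z| * Real.exp (κ * |z|) ∂gam) = J at hJ0 ⊢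
    generalize (∫ z, Real.exp (-(κ * |z|)) ∂gam) = D at hIpos ⊢
    field_simp
  rw [h3]
  have := cmod_nonneg K S
  exact mul_le_mul_of_nonneg_left hden (by positivity)

end

end Pool.Agent.ATLine
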