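import Mathlib
import Pool.Agent.Lib.ATLine.Evol

/-!
# Existence of solutions of the Parisi equation for step functions
-/

open MeasureTheory ProbabilityTheory Filter Topology Set

namespace Pool.Agent.ATLine

/-- solutions on `[a,1]` with three bounded space derivatives -/
structure SolOn (B : ℝ) (ζ : ℝ → ℝ) (a C : ℝ) (f f1 f2 f3 : ℝ → ℝ → ℝ) : Prop where
  terminal : f 1 = lc
  nice : ∀ t ∈ Icc a 1, Nice C (f t) (f1 t) (f2 t) (f3 t)
  time1 : ∀ t ∈ Icc a 1, ∀ t' ∈ Icc a 1, t ≤ t' → ∀ x, |f1 t x - f1 t' x| ≤ C * √(t' - t)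
  time2 : ∀ t ∈ Icc a 1, ∀ t' ∈ Icc a 1, t ≤ t' → ∀ x, |f2 t x - f2 t' x| ≤ C * √(t' - t)
  int : ∀ x, IntervalIntegrable (fun s => f2 s x + ζ s * f1 s x ^ 2) volume a 1
  pde : ∀ t ∈ Icc a 1, ∀ x, f t x = f 1 x + B * ∫ s in t..1, (f2 s x + ζ s * f1 s x ^ 2)

lemma Nice.mono {K K' : ℝ} {F F1 F2 F3 : ℝ → ℝ} (h : Nice K F F1 F2 F3) (hK : K ≤ K') :
    Nice K' F F1 F2 F3 :=
  ⟨h.d1, h.d2, h.d3, h.cont, fun x => (h.b1 x).trans hK, fun x => (h.b2 x).trans hK,
    fun x => (h.b3 x).trans hK⟩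

lemma nice_lc : Nice 2 lc Real.tanh (fun x => sc x ^ 2) (fun x => -(2 * sc x ^ 2 * Real.tanh x)) := by
  refine ⟨hasDerivAt_lc, hasDerivAt_tanh, fun x => ?_, ?_, fun x => ?_, fun x => ?_, fun x => ?_⟩
  · have := (hasDerivAt_sc x).pow 2
    refine this.congr_deriv ?_
    simp only [Nat.cast_ofNat, Nat.add_one_sub_one, pow_one]
    ring
  · exact ((continuous_const.mul (continuous_sc.pow 2)).mul continuous_tanh).neg
  · exact (abs_tanh_le_one x).trans (by norm_num)
  · rw [abs_of_pos (pow_pos (sc_pos x) 2)]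
    exact (pow_le_one₀ (sc_pos x).le (sc_le_one x)).trans (by norm_num)
  · rw [abs_neg, abs_mul, abs_mul, abs_of_pos (pow_pos (sc_pos x) 2),
      abs_of_pos (by norm_num : (0:ℝ) < 2)]
    have h1 := pow_le_one₀ (n := 2) (sc_pos x).le (sc_le_one x)
    have h2 := abs_tanh_le_one x
    have h3 : sc x ^ 2 * |Real.tanh x| ≤ 1 * 1 :=
      mul_le_mul h1 h2 (abs_nonneg _) zero_le_one
    linarith

/-- the trivial solution at the terminal time -/
lemma solOn_one (B : ℝ) (ζ : ℝ → ℝ) :
    SolOn B ζ 1 2 (fun _ => lc) (fun _ => Real.tanh) (fun _ x => sc x ^ 2)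
      (fun _ x => -(2 * sc x ^ 2 * Real.tanh x)) := by
  refine ⟨rfl, fun t _ => nice_lc, ?_, ?_, ?_, ?_⟩
  · intro t _ t' _ _ x
    rw [sub_self, abs_zero]; positivity
  · intro t _ t' _ _ x
    rw [sub_self, abs_zero]; positivity
  · intro x
    exact IntervalIntegrable.refl
  · intro t ht x
    have : t = 1 := le_antisymm ht.2 ht.1
    subst this
    simp

/-- time regularity of the evolution -/
lemma evol_time {K m : ℝ} {F F1 F2 F3 : ℝ → ℝ} (h : Nice K F F1 F2 F3) (hm0 : 0 ≤ m)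
    (hm1 : m ≤ 1) (S : ℝ) : ∃ L, 0 ≤ L ∧ ∀ s s', 0 ≤ s → s ≤ s' → s' ≤ S → ∀ x,
      |E1 m s' F F1 x - E1 m s F F1 x| ≤ L * √(s' - s) ∧
      |E2 m s' F F1 F2 x - E2 m s F F1 F2 x| ≤ L * √(s' - s) := by
  set K' := K + 6 * K ^ 2 + 6 * K ^ 3 with hK'
  have hK := h.K_nonneg
  have hK'0 : 0 ≤ K' := by positivity
  have hc := cmod_nonneg K' S
  refine ⟨(K' + 4 * K' ^ 2) * cmod K' S, by positivity, ?_⟩
  intro s s' hs hss' hs'S x
  have hG := h.evol hm0 hm1 s
  rw [← hK'] at hG
  set G := E m s F with hGdef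
  set G1 := E1 m s F F1 with hG1
  set G2 := E2 m s F F1 F2 with hG2
  set G3 := E3 m s F F1 F2 F3 with hG3
  have hr : 0 ≤ s' - s := by linarith
  have hrS : s' - s ≤ S := by linarith
  have eE : E m (s' - s) G = E m s' F := by
    funext y
    rw [hGdef, E_E h hr hs]
    ring_nf
  have e1 : E1 m (s' - s) G G1 = E1 m s' F F1 := by
    funext y
    have a1 := hasDerivAt_E hG m (s' - s) y
    rw [eE] at a1
    exact a1.unique (hasDerivAt_E h m s' y)
  have e2 : E2 m (s' - s) G G1 G2 = E2 m s' F F1 F2 := by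
    funext y
    have a1 := hasDerivAt_E1 hG m (s' - s) y
    rw [e1] at a1
    exact a1.unique (hasDerivAt_E1 h m s' y)
  have k1 : |A m G G1 (s' - s) x - G1 x| ≤ K' * cmod K' S * √(s' - s) :=
    A_sub_le hG hm0 hm1 hG.e1 (lip_of_deriv hG.d2 hG.b2) hr hrS x
  have lipφ : ∀ x y, |(G2 y + m * G1 y * G1 y) - (G2 x + m * G1 x * G1 x)| ≤
      (K' + 2 * K' ^ 2) * |y - x| := by
    intro x y
    have l1 := lip_of_deriv hG.d2 hG.b2 x y
    have l2 := lip_of_deriv hG.d3 hG.b3 x y
    have e3 : (G2 y + m * G1 y * G1 y) - (G2 x + m * G1 x * G1 x) =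
        (G2 y - G2 x) + m * ((G1 y - G1 x) * (G1 y + G1 x)) := by ring
    rw [e3]
    refine (abs_add_le _ _).trans ?_
    rw [abs_mul, abs_mul, abs_of_nonneg hm0]
    have l3 : |G1 y + G1 x| ≤ 2 * K' := by
      have := abs_add_le (G1 y) (G1 x)
      have := hG.b1 y
      have := hG.b1 x
      linarith
    have l4 : |G1 y - G1 x| * |G1 y + G1 x| ≤ (K' * |y - x|) * (2 * K') :=
      mul_le_mul l1 l3 (abs_nonneg _) (by positivity)
    have l5 : m * (|G1 y - G1 x| * |G1 y + G1 x|) ≤ 1 * ((K' * |y - x|) * (2 * K')) :=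
      mul_le_mul hm1 l4 (by positivity) zero_le_one
    nlinarith
  have k2 : |A m G (fun y => G2 y + m * G1 y * G1 y) (s' - s) x - (G2 x + m * G1 x * G1 x)| ≤
      (K' + 2 * K' ^ 2) * cmod K' S * √(s' - s) :=
    A_sub_le hG hm0 hm1 (expBdd_phi2 hG m) lipφ hr hrS x
  have hsq : 0 ≤ √(s' - s) := Real.sqrt_nonneg _
  have hcs : 0 ≤ cmod K' S * √(s' - s) := by positivity
  constructor
  · rw [← e1]
    unfold E1
    refine k1.trans ?_
    have : K' * cmod K' S * √(s' - s) = K' * (cmod K' S * √(s' - s)) := by ring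
    rw [this]
    have : (K' + 4 * K' ^ 2) * cmod K' S * √(s' - s) =
      (K' + 4 * K' ^ 2) * (cmod K' S * √(s' - s)) := by ring
    rw [this]
    have : K' ≤ K' + 4 * K' ^ 2 := by nlinarith [sq_nonneg K']
    exact mul_le_mul_of_nonneg_right this hcs
  · rw [← e2]
    have e4 : E2 m (s' - s) G G1 G2 x - G2 x =
        (A m G (fun y => G2 y + m * G1 y * G1 y) (s' - s) x - (G2 x + m * G1 x * G1 x)) -
          m * ((A m G G1 (s' - s) x - G1 x) * (A m G G1 (s' - s) x + G1 x)) := by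
      unfold E2
      ring
    rw [e4]
    refine (abs_sub _ _).trans ?_
    rw [abs_mul, abs_mul, abs_of_nonneg hm0]
    have l3 : |A m G G1 (s' - s) x + G1 x| ≤ 2 * K' := by
      have := abs_add_le (A m G G1 (s' - s) x) (G1 x)
      have := hG.b1 x
      have := A_abs_le (m := m) hG hG.e1 hG.b1 (s' - s) x
      linarith
    have l4 : |A m G G1 (s' - s) x - G1 x| * |A m G G1 (s' - s) x + G1 x| ≤
        (K' * cmod K' S * √(s' - s)) * (2 * K') :=
      mul_le_mul k1 l3 (abs_nonneg _) (by positivity)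
    have l5 : m * (|A m G G1 (s' - s) x - G1 x| * |A m G G1 (s' - s) x + G1 x|) ≤
        1 * ((K' * cmod K' S * √(s' - s)) * (2 * K')) :=
      mul_le_mul hm1 l4 (by positivity) zero_le_one
    have e5 : (K' + 4 * K' ^ 2) * cmod K' S * √(s' - s) =
      (K' + 2 * K' ^ 2) * cmod K' S * √(s' - s) +
        1 * ((K' * cmod K' S * √(s' - s)) * (2 * K')) := by ring
    rw [e5]
    exact add_le_add k2 l5

/-- extension of a solution to an earlier time by the evolution with a constant parameter -/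
theorem SolOn.step {B a C : ℝ} {ζ : ℝ → ℝ} {f f1 f2 f3 : ℝ → ℝ → ℝ}
    (h : SolOn B ζ a C f f1 f2 f3) (hB : 0 ≤ B) (ha : a ≤ 1) {a' m : ℝ} (ha' : a' ≤ a)
    (hm0 : 0 ≤ m) (hm1 : m ≤ 1) :
    ∃ C' f1' f2' f3', SolOn B (fun t => if t ≤ a then m else ζ t) a' C'
      (fun t x => if t ≤ a then E m (2 * B * (a - t)) (f a) x else f t x) f1' f2' f3' := by
  have ma : a ∈ Icc a 1 := ⟨le_refl _, ha⟩
  have hF := h.nice a ma
  have hC := hF.K_nonneg
  obtain ⟨L, hL, htime⟩ := evol_time hF hm0 hm1 (2 * B * (a - a'))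
  set K' := C + 6 * C ^ 2 + 6 * C ^ 3 with hK'
  have hK'0 : 0 ≤ K' := by positivity
  set L' := L * √(2 * B) with hL'
  have hL'0 : 0 ≤ L' := by positivity
  have hCK : C ≤ K' := by
    have : 0 ≤ 6 * C ^ 2 + 6 * C ^ 3 := by positivity
    linarith
  set g1 : ℝ → ℝ → ℝ := fun t x => if t ≤ a then E1 m (2 * B * (a - t)) (f a) (f1 a) x else f1 t x
    with hg1
  set g2 : ℝ → ℝ → ℝ :=
    fun t x => if t ≤ a then E2 m (2 * B * (a - t)) (f a) (f1 a) (f2 a) x else f2 t x with hg2
  set g3 : ℝ → ℝ → ℝ :=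
    fun t x => if t ≤ a then E3 m (2 * B * (a - t)) (f a) (f1 a) (f2 a) (f3 a) x else f3 t x
    with hg3
  -- values at `a`
  have g1a : ∀ x, g1 a x = f1 a x := fun x => by
    simp only [hg1, le_refl, if_true, sub_self, mul_zero, E1, A_zero]
  have g2a : ∀ x, g2 a x = f2 a x := fun x => by
    simp only [hg2, le_refl, if_true, sub_self, mul_zero, E2, A_zero]
    ring
  -- time regularity on the left part
  have hs : ∀ t t', a' ≤ t → t ≤ t' → t' ≤ a → 0 ≤ 2 * B * (a - t') ∧
      2 * B * (a - t') ≤ 2 * B * (a - t) ∧ 2 * B * (a - t) ≤ 2 * B * (a - a') ∧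
      √(2 * B * (a - t) - 2 * B * (a - t')) = √(2 * B) * √(t' - t) := by
    intro t t' h1 h2 h3
    have h2B : 0 ≤ 2 * B := by positivity
    refine ⟨mul_nonneg h2B (by linarith), mul_le_mul_of_nonneg_left (by linarith) h2B,
      mul_le_mul_of_nonneg_left (by linarith) h2B, ?_⟩
    rw [← Real.sqrt_mul h2B]
    ring_nf
  have left1 : ∀ t t', a' ≤ t → t ≤ t' → t' ≤ a → ∀ x, |g1 t x - g1 t' x| ≤ L' * √(t' - t) := by
    intro t t' h1 h2 h3 x
    obtain ⟨s1, s2, s3, s4⟩ := hs t t' h1 h2 h3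
    have := (htime _ _ s1 s2 s3 x).1
    rw [s4] at this
    simp only [hg1, if_pos (h2.trans h3), if_pos h3]
    rw [hL']
    linarith
  have left2 : ∀ t t', a' ≤ t → t ≤ t' → t' ≤ a → ∀ x, |g2 t x - g2 t' x| ≤ L' * √(t' - t) := by
    intro t t' h1 h2 h3 x
    obtain ⟨s1, s2, s3, s4⟩ := hs t t' h1 h2 h3
    have := (htime _ _ s1 s2 s3 x).2
    rw [s4] at this
    simp only [hg2, if_pos (h2.trans h3), if_pos h3]
    rw [hL']
    linarith
  have glue : ∀ g fg : ℝ → ℝ → ℝ, (∀ x, g a x = fg a x) → (∀ t, a < t → ∀ x, g t x = fg t x) →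
      (∀ t t', a' ≤ t → t ≤ t' → t' ≤ a → ∀ x, |g t x - g t' x| ≤ L' * √(t' - t)) →
      (∀ t ∈ Icc a 1, ∀ t' ∈ Icc a 1, t ≤ t' → ∀ x, |fg t x - fg t' x| ≤ C * √(t' - t)) →
      ∀ t ∈ Icc a' 1, ∀ t' ∈ Icc a' 1, t ≤ t' → ∀ x,
        |g t x - g t' x| ≤ (K' + L') * √(t' - t) := by
    intro g fg hga hgr hl hr t ht t' ht' htt x
    have hsq := Real.sqrt_nonneg (t' - t)
    rcases le_total t' a with h1 | h1
    · have := hl t t' ht.1 htt h1 x
      nlinarith
    · rcases le_total t a with h2 | h2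
      · have j1 := hl t a ht.1 h2 (le_refl _) x
        have j2 := hr a ma t' ⟨h1, ht'.2⟩ h1 x
        have j3 : g t' x = fg t' x := by
          rcases eq_or_lt_of_le h1 with h3 | h3
          · rw [← h3]; exact hga x
          · exact hgr t' h3 x
        have j4 : g t x - g t' x = (g t x - g a x) + (fg a x - fg t' x) := by
          rw [hga, j3]; ring
        rw [j4]
        refine (abs_add_le _ _).trans ?_
        have j5 : √(a - t) ≤ √(t' - t) := Real.sqrt_le_sqrt (by linarith)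
        have j6 : √(t' - a) ≤ √(t' - t) := Real.sqrt_le_sqrt (by linarith)
        have j7 : L' * √(a - t) ≤ L' * √(t' - t) := by gcongr
        have j8 : C * √(t' - a) ≤ C * √(t' - t) := by gcongr
        nlinarith
      · have j3 : g t' x = fg t' x := by
          rcases eq_or_lt_of_le h1 with h3 | h3
          · rw [← h3]; exact hga x
          · exact hgr t' h3 x
        have j4 : g t x = fg t x := by
          rcases eq_or_lt_of_le h2 with h3 | h3
          · rw [← h3]; exact hga x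
          · exact hgr t h3 x
        rw [j3, j4]
        have := hr t ⟨h2, ht.2⟩ t' ⟨h1, ht'.2⟩ htt x
        nlinarith
  -- integrability
  have hcont : ∀ x, Continuous (fun s => E2 m (2 * B * (a - s)) (f a) (f1 a) (f2 a) x
      + m * E1 m (2 * B * (a - s)) (f a) (f1 a) x ^ 2) := by
    intro x
    have c0 : Continuous (fun s : ℝ => 2 * B * (a - s)) := by fun_prop
    have c1 := (continuous_A_s (m := m) hF hF.e1 x).comp c0
    have c2 := (continuous_A_s (m := m) hF (expBdd_phi2 hF m) x).comp c0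
    unfold E2 E1
    exact (c2.sub ((continuous_const.mul c1).mul c1)).add (continuous_const.mul (c1.pow 2))
  have eqL : ∀ x, ∀ s, s ≤ a → g2 s x + (if s ≤ a then m else ζ s) * g1 s x ^ 2 =
      E2 m (2 * B * (a - s)) (f a) (f1 a) (f2 a) x
      + m * E1 m (2 * B * (a - s)) (f a) (f1 a) x ^ 2 := by
    intro x s hs
    simp only [hg1, hg2, if_pos hs]
  have eqR : ∀ x, ∀ s, a < s → g2 s x + (if s ≤ a then m else ζ s) * g1 s x ^ 2 =
      f2 s x + ζ s * f1 s x ^ 2 := by
    intro x s hs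
    simp only [hg1, hg2, if_neg (not_le.2 hs)]
  have intL : ∀ x, ∀ t, t ≤ a → IntervalIntegrable
      (fun s => g2 s x + (if s ≤ a then m else ζ s) * g1 s x ^ 2) volume t a := by
    intro x t ht
    rw [intervalIntegrable_iff, uIoc_of_le ht]
    have h1 := (hcont x).intervalIntegrable (μ := volume) t a
    rw [intervalIntegrable_iff, uIoc_of_le ht] at h1
    refine h1.congr_fun (fun s hs => ?_) measurableSet_Ioc
    exact (eqL x s hs.2).symm
  have intR : ∀ x, IntervalIntegrable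
      (fun s => g2 s x + (if s ≤ a then m else ζ s) * g1 s x ^ 2) volume a 1 := by
    intro x
    have h1 := h.int x
    rw [intervalIntegrable_iff, uIoc_of_le ha] at h1 ⊢
    refine h1.congr_fun (fun s hs => ?_) measurableSet_Ioc
    exact (eqR x s hs.1).symm
  refine ⟨K' + L', g1, g2, g3, ?_, ?_, ?_, ?_, ?_, ?_⟩
  · -- terminal
    funext x
    rcases eq_or_lt_of_le ha with h1 | h1
    · subst h1
      simp only [le_refl, if_true, sub_self, mul_zero, E_zero_time]
      rw [h.terminal]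
    · simp only [if_neg (not_le.2 h1)]
      rw [h.terminal]
  · -- regularity in space
    intro t ht
    by_cases h1 : t ≤ a
    · simp only [hg1, hg2, hg3, if_pos h1]
      exact (hF.evol hm0 hm1 _).mono (by rw [← hK']; linarith)
    · simp only [hg1, hg2, hg3, if_neg h1]
      push Not at h1
      exact (h.nice t ⟨h1.le, ht.2⟩).mono (by linarith)
  · exact glue g1 f1 g1a (fun t ht x => by simp only [hg1, if_neg (not_le.2 ht)]) left1 h.time1
  · exact glue g2 f2 g2a (fun t ht x => by simp only [hg2, if_neg (not_le.2 ht)]) left2 h.time2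
  · intro x
    exact (intL x a' ha').trans (intR x)
  · intro t ht x
    have e1 : (if (1:ℝ) ≤ a then E m (2 * B * (a - 1)) (f a) x else f 1 x) = f 1 x := by
      rcases eq_or_lt_of_le ha with h1 | h1
      · subst h1
        simp only [le_refl, if_true, sub_self, mul_zero, E_zero_time]
      · simp only [if_neg (not_le.2 h1)]
    rw [e1]
    have intRt : ∀ t, a ≤ t → t ≤ 1 →
        ∫ s in t..1, (g2 s x + (if s ≤ a then m else ζ s) * g1 s x ^ 2) =
        ∫ s in t..1, (f2 s x + ζ s * f1 s x ^ 2) := by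
      intro t h1 h2
      rw [intervalIntegral.integral_of_le h2, intervalIntegral.integral_of_le h2]
      refine setIntegral_congr_fun measurableSet_Ioc (fun s hs => ?_)
      exact eqR x s (lt_of_le_of_lt h1 hs.1)
    by_cases h1 : t ≤ a
    · simp only [if_pos h1]
      have ftc := intervalIntegral.integral_eq_sub_of_hasDerivAt_of_le h1
        (f := fun s => E m (2 * B * (a - s)) (f a) x)
        (f' := fun s => -(B * (E2 m (2 * B * (a - s)) (f a) (f1 a) (f2 a) x
          + m * E1 m (2 * B * (a - s)) (f a) (f1 a) x ^ 2)))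
        (((continuous_E_s hF m x).comp (by fun_prop :
          Continuous (fun s : ℝ => 2 * B * (a - s)))).continuousOn)
        (fun s hs => by
          rcases eq_or_lt_of_le hB with h3 | h3
          · -- B = 0
            rw [← h3]
            simp only [mul_zero, zero_mul, neg_zero]
            exact hasDerivAt_const s _
          · have h4 : 0 < 2 * B * (a - s) := by
              have := hs.2
              have : 0 < a - s := by linarith
              positivity
            have h5 : HasDerivAt (fun s : ℝ => 2 * B * (a - s)) (-(2 * B)) s := by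
              have := ((hasDerivAt_id s).const_sub a).const_mul (2 * B)
              refine this.congr_deriv ?_
              ring
            have h6 := (hasDerivAt_E_s hF m x h4).comp s h5
            refine h6.congr_deriv ?_
            ring)
        (((continuous_const.mul (hcont x)).neg).intervalIntegrable _ _)
      simp only [sub_self, mul_zero, E_zero_time] at ftc
      rw [intervalIntegral.integral_neg, intervalIntegral.integral_const_mul] at ftc
      have h7 : ∫ s in t..a, (g2 s x + (if s ≤ a then m else ζ s) * g1 s x ^ 2) =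
          ∫ s in t..a, (E2 m (2 * B * (a - s)) (f a) (f1 a) (f2 a) x
          + m * E1 m (2 * B * (a - s)) (f a) (f1 a) x ^ 2) := by
        rw [intervalIntegral.integral_of_le h1, intervalIntegral.integral_of_le h1]
        refine setIntegral_congr_fun measurableSet_Ioc (fun s hs => ?_)
        exact eqL x s hs.2
      rw [← intervalIntegral.integral_add_adjacent_intervals (intL x t h1) (intR x), h7,
        intRt a (le_refl _) ha]
      have h8 := h.pde a ma x
      rw [mul_add]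
      linarith
    · simp only [if_neg h1]
      push Not at h1
      rw [intRt t h1.le ht.2]
      exact h.pde t ⟨h1.le, ht.2⟩ x

/-- a modulus criterion for uniform continuity -/
lemma unif_of_modulus {g : ℝ → ℝ → ℝ} {C : ℝ} (hC : 0 ≤ C)
    (ht : ∀ t ∈ Icc (0:ℝ) 1, ∀ t' ∈ Icc (0:ℝ) 1, t ≤ t' → ∀ x, |g t x - g t' x| ≤ C * √(t' - t))
    (hx : ∀ t ∈ Icc (0:ℝ) 1, ∀ x y, |g t y - g t x| ≤ C * |y - x|) :
    UniformContinuousOn (fun p : ℝ × ℝ => g p.1 p.2) (Icc 0 1 ×ˢ univ) := by
  rw [Metric.uniformContinuousOn_iff]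
  intro ε hε
  set η := ε / (2 * (C + 1)) with hη
  have hη0 : 0 < η := by positivity
  refine ⟨min (η ^ 2) η, by positivity, ?_⟩
  rintro ⟨t, x⟩ ⟨h1, _⟩ ⟨t', x'⟩ ⟨h2, _⟩ hd
  rw [Prod.dist_eq, max_lt_iff] at hd
  simp only [Real.dist_eq] at hd h1 h2 ⊢
  obtain ⟨hd1, hd2⟩ := hd
  have hd1' : |t - t'| < η ^ 2 := lt_of_lt_of_le hd1 (min_le_left _ _)
  have hd2' : |x - x'| < η := lt_of_lt_of_le hd2 (min_le_right _ _)
  have k1 : |g t x - g t' x| ≤ C * √|t - t'| := by
    rcases le_total t t' with h3 | h3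
    · have := ht t h1 t' h2 h3 x
      rwa [abs_of_nonpos (by linarith : t - t' ≤ 0), neg_sub]
    · have := ht t' h2 t h1 h3 x
      rwa [abs_of_nonneg (by linarith : 0 ≤ t - t'), abs_sub_comm]
  have k2 := hx t' h2 x' x
  have k3 : √|t - t'| ≤ η := by
    rw [Real.sqrt_le_left hη0.le]
    exact hd1'.le
  have e : g t x - g t' x' = (g t x - g t' x) + (g t' x - g t' x') := by ring
  rw [e]
  refine lt_of_le_of_lt (abs_add_le _ _) ?_
  have k4 : C * √|t - t'| ≤ C * η := by gcongr
  have k5 : C * |x - x'| ≤ C * η := by gcongr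
  have k6 : C * η + C * η < ε := by
    have : (C + 1) * η * 2 = ε := by rw [hη]; field_simp
    nlinarith
  linarith

/-- a solution on `[0,1]` is a solution in the sense of the definition -/
theorem SolOn.isParisiSolution {β C : ℝ} {ζ : ℝ → ℝ} {f f1 f2 f3 : ℝ → ℝ → ℝ}
    (h : SolOn (β ^ 2) ζ 0 C f f1 f2 f3) : IsParisiSolution β ζ f := by
  have hd1 : ∀ t ∈ Icc (0:ℝ) 1, deriv (f t) = f1 t := fun t ht => by
    funext x; exact ((h.nice t ht).d1 x).deriv
  have hd2 : ∀ t ∈ Icc (0:ℝ) 1, deriv (deriv (f t)) = f2 t := fun t ht => by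
    rw [hd1 t ht]; funext x; exact ((h.nice t ht).d2 x).deriv
  have hC : 0 ≤ C := (h.nice 0 ⟨le_refl _, zero_le_one⟩).K_nonneg
  refine ⟨fun x => by rw [h.terminal]; rfl, fun t ht x => ((h.nice t ht).d1 x).differentiableAt,
    fun t ht x => ?_, ⟨C, fun t ht x => ?_⟩, ?_, ?_, ?_⟩
  · rw [hd1 t ht]
    exact ((h.nice t ht).d2 x).differentiableAt
  · rw [hd2 t ht, hd1 t ht]
    exact ⟨(h.nice t ht).b1 x, (h.nice t ht).b2 x⟩
  · have := unif_of_modulus hC h.time1
      (fun t ht x y => lip_of_deriv (h.nice t ht).d2 (h.nice t ht).b2 x y)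
    refine this.congr (fun p hp => ?_)
    simp only
    rw [hd1 p.1 hp.1]
  · have := unif_of_modulus hC h.time2
      (fun t ht x y => lip_of_deriv (h.nice t ht).d3 (h.nice t ht).b3 x y)
    refine this.congr (fun p hp => ?_)
    simp only
    rw [hd2 p.1 hp.1]
  · intro t ht x
    rw [h.pde t ht x]
    congr 2
    refine intervalIntegral.integral_congr (fun s hs => ?_)
    rw [uIcc_of_le ht.2] at hs
    have hs' : s ∈ Icc (0:ℝ) 1 := ⟨ht.1.trans hs.1, hs.2⟩
    rw [hd2 s hs', hd1 s hs']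

/-- solutions only depend on the almost everywhere class of the parameter -/
lemma IsParisiSolution.congr_ae {β : ℝ} {ζ ζ' : ℝ → ℝ} {f : ℝ → ℝ → ℝ}
    (h : IsParisiSolution β ζ f) (hζ : ∀ᵐ s, s ∈ Icc (0:ℝ) 1 → ζ s = ζ' s) :
    IsParisiSolution β ζ' f := by
  refine ⟨h.terminal, h.diff, h.diff2, h.bdd, h.unif, h.unif2, fun t ht x => ?_⟩
  rw [h.pde t ht x]
  congr 2
  refine intervalIntegral.integral_congr_ae ?_
  filter_upwards [hζ] with s hs hs'
  rw [uIoc_of_le ht.2] at hs'
  rw [hs ⟨ht.1.trans hs'.1.le, hs'.2⟩]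

end Pool.Agent.ATLine
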