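import Mathlib
import Pool.Agent.Lib.ATLine.Gauss
import Pool.Agent.Lib.ATLine.Defs

/-!
# One-step expansions for solutions of the Parisi equation
-/

open MeasureTheory ProbabilityTheory Filter Topology Set

namespace Pool.Agent.ATLine

/-! ### Second order Taylor estimates -/

lemma taylor_upper {F : ℝ → ℝ} (h1 : Differentiable ℝ F) (h2 : Differentiable ℝ (deriv F))
    {y u K : ℝ} (hK : ∀ w, |w - y| ≤ |u| → deriv (deriv F) w ≤ K) :
    F (y + u) ≤ F y + u * deriv F y + K * u ^ 2 / 2 := by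
  set H : ℝ → ℝ := fun w => F w - (w - y) * deriv F y - K * (w - y) ^ 2 / 2 with hH
  have hHd : ∀ w, HasDerivAt H (deriv F w - deriv F y - K * (w - y)) w := by
    intro w
    have e1 : HasDerivAt (fun w => (w - y) * deriv F y) (deriv F y) w := by
      simpa using ((hasDerivAt_id w).sub_const y).mul_const (deriv F y)
    have e2 : HasDerivAt (fun w => K * (w - y) ^ 2 / 2) (K * (w - y)) w := by
      have := ((((hasDerivAt_id w).sub_const y).pow 2).const_mul K).div_const 2
      refine this.congr_deriv ?_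
      simp only [id]
      push_cast
      ring
    exact ((h1 w).hasDerivAt.sub e1).sub e2
  have hHc : Continuous H := continuous_iff_continuousAt.2 fun w => (hHd w).continuousAt
  have goal : H (y + u) ≤ H y := by
    rcases le_total 0 u with hu | hu
    · have hanti : AntitoneOn H (Icc y (y + u)) := by
        refine antitoneOn_of_deriv_nonpos (convex_Icc _ _) hHc.continuousOn
          (fun w _ => (hHd w).differentiableAt.differentiableWithinAt) (fun w hw => ?_)
        rw [interior_Icc] at hw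
        rw [(hHd w).deriv]
        have := Convex.image_sub_le_mul_sub_of_deriv_le (convex_Icc y (y + u)) (f := deriv F)
          h2.continuous.continuousOn h2.differentiableOn (C := K) (fun z hz => by
            rw [interior_Icc] at hz
            apply hK
            rw [abs_of_nonneg (by linarith [hz.1]), abs_of_nonneg hu]
            linarith [hz.2]) y ⟨le_refl _, by linarith⟩ w ⟨hw.1.le, hw.2.le⟩ hw.1.le
        linarith
      exact hanti ⟨le_refl _, by linarith⟩ ⟨by linarith, le_refl _⟩ (by linarith)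
    · have hmono : MonotoneOn H (Icc (y + u) y) := by
        refine monotoneOn_of_deriv_nonneg (convex_Icc _ _) hHc.continuousOn
          (fun w _ => (hHd w).differentiableAt.differentiableWithinAt) (fun w hw => ?_)
        rw [interior_Icc] at hw
        rw [(hHd w).deriv]
        have := Convex.image_sub_le_mul_sub_of_deriv_le (convex_Icc (y + u) y) (f := deriv F)
          h2.continuous.continuousOn h2.differentiableOn (C := K) (fun z hz => by
            rw [interior_Icc] at hz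
            apply hK
            rw [abs_of_nonpos (by linarith [hz.2]), abs_of_nonpos hu]
            linarith [hz.1]) w ⟨hw.1.le, hw.2.le⟩ y ⟨by linarith, le_refl _⟩ hw.2.le
        linarith
      exact hmono ⟨le_refl _, by linarith⟩ ⟨by linarith, le_refl _⟩ (by linarith)
  simp only [hH] at goal
  have e : y + u - y = u := by ring
  rw [e] at goal
  simp at goal
  linarith

lemma taylor_lower {F : ℝ → ℝ} (h1 : Differentiable ℝ F) (h2 : Differentiable ℝ (deriv F))
    {y u K : ℝ} (hK : ∀ w, |w - y| ≤ |u| → K ≤ deriv (deriv F) w) :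
    F y + u * deriv F y + K * u ^ 2 / 2 ≤ F (y + u) := by
  have d1 : deriv (fun w => -F w) = fun w => -deriv F w := by
    funext w; exact deriv.fun_neg
  have d2 : deriv (deriv (fun w => -F w)) = fun w => -deriv (deriv F) w := by
    rw [d1]; funext w; exact deriv.fun_neg
  have := taylor_upper (F := fun w => -F w) h1.neg (by rw [d1]; exact h2.neg) (y := y) (u := u)
    (K := -K) (fun w hw => by
      rw [d2]
      have := hK w hw
      simp only
      linarith)
  rw [d1] at this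
  linarith

/-- two-sided Taylor estimate under a modulus of continuity -/
lemma taylor_abs {F : ℝ → ℝ} (h1 : Differentiable ℝ F) (h2 : Differentiable ℝ (deriv F))
    {C ε η : ℝ} (hη : 0 < η) (hε : 0 ≤ ε) (hC : ∀ x, |deriv (deriv F) x| ≤ C)
    (hmod : ∀ w y, |w - y| ≤ η → |deriv (deriv F) w - deriv (deriv F) y| ≤ ε) (y u : ℝ) :
    |F (y + u) - F y - u * deriv F y - deriv (deriv F) y * u ^ 2 / 2| ≤
      ε / 2 * u ^ 2 + C / η ^ 2 * u ^ 4 := by
  have hC0 : 0 ≤ C := (abs_nonneg _).trans (hC 0)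
  have osc : ∀ w, |w - y| ≤ |u| → |deriv (deriv F) w - deriv (deriv F) y| ≤
      ε + 2 * C * u ^ 2 / η ^ 2 := by
    intro w hw
    by_cases hu : |u| ≤ η
    · have := hmod w y (hw.trans hu)
      have : 0 ≤ 2 * C * u ^ 2 / η ^ 2 := by positivity
      linarith
    · push Not at hu
      have h3 : |deriv (deriv F) w - deriv (deriv F) y| ≤ 2 * C := by
        have := abs_sub (deriv (deriv F) w) (deriv (deriv F) y)
        have := hC w
        have := hC y
        linarith
      have h4 : 1 ≤ u ^ 2 / η ^ 2 := by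
        rw [le_div_iff₀ (by positivity), one_mul, ← sq_abs u]
        exact pow_le_pow_left₀ hη.le hu.le 2
      have h5 : 2 * C ≤ 2 * C * u ^ 2 / η ^ 2 := by
        rw [mul_div_assoc]
        nlinarith
      linarith
  have hu1 := taylor_upper h1 h2 (y := y) (u := u)
    (K := deriv (deriv F) y + (ε + 2 * C * u ^ 2 / η ^ 2)) (fun w hw => by
      have := (abs_le.1 (osc w hw)).2
      linarith)
  have hl1 := taylor_lower h1 h2 (y := y) (u := u)
    (K := deriv (deriv F) y - (ε + 2 * C * u ^ 2 / η ^ 2)) (fun w hw => by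
      have := (abs_le.1 (osc w hw)).1
      linarith)
  have e : (ε + 2 * C * u ^ 2 / η ^ 2) * u ^ 2 / 2 = ε / 2 * u ^ 2 + C / η ^ 2 * u ^ 4 := by
    field_simp
  rw [abs_le]
  constructor <;> nlinarith

/-- fourth moment of the standard Gaussian -/
noncomputable def M4 : ℝ := ∫ z, z ^ 4 ∂gam

lemma M4_nonneg : 0 ≤ M4 := integral_nonneg fun z => by positivity

/-- expectation of a function of a small Gaussian displacement -/
lemma gauss_taylor {F : ℝ → ℝ} (h1 : Differentiable ℝ F) (h2 : Differentiable ℝ (deriv F))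
    {C ε η : ℝ} (hη : 0 < η) (hε : 0 ≤ ε) (hF : ExpBdd F) (hC : ∀ x, |deriv (deriv F) x| ≤ C)
    (hmod : ∀ w y, |w - y| ≤ η → |deriv (deriv F) w - deriv (deriv F) y| ≤ ε)
    {s : ℝ} (hs : 0 ≤ s) (y m : ℝ) :
    |P s F (y + m) - F y - m * deriv F y - deriv (deriv F) y * s / 2| ≤
      C * m ^ 2 / 2 + ε / 2 * (m ^ 2 + s) + C / η ^ 2 * (8 * m ^ 4 + 8 * s ^ 2 * M4) := by
  have hC0 : 0 ≤ C := (abs_nonneg _).trans (hC 0)
  have i1 : Integrable (fun z : ℝ => z) gam := ExpBdd.id.integrable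
  have i2 : Integrable (fun z : ℝ => z ^ 2) gam := (ExpBdd.id.pow 2).integrable
  have i4 : Integrable (fun z : ℝ => z ^ 4) gam := (ExpBdd.id.pow 4).integrable
  have isq : ∫ z, z ^ 2 ∂gam = 1 := by
    have := stein (φ := fun z => z) (φ' := fun _ => 1) ExpBdd.id (ExpBdd.const 1)
      (fun y => hasDerivAt_id y)
    simp only [← sq] at this
    rw [this]
    simp
  have iid : ∫ z, z ∂gam = 0 := integral_id_gaussianReal
  set a := √s with ha
  have ha2 : a ^ 2 = s := Real.sq_sqrt hs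
  have iF : Integrable (fun z => F (y + m + a * z)) gam := hF.integrable_comp _ _
  -- pointwise estimate
  have hpt : ∀ z, |F (y + m + a * z) - F y - (m + a * z) * deriv F y
      - deriv (deriv F) y * (m + a * z) ^ 2 / 2| ≤
      ε / 2 * (m + a * z) ^ 2 + C / η ^ 2 * (8 * m ^ 4 + 8 * s ^ 2 * z ^ 4) := by
    intro z
    have h := taylor_abs h1 h2 hη hε hC hmod y (m + a * z)
    have e : y + (m + a * z) = y + m + a * z := by ring
    rw [e] at h
    refine h.trans ?_
    have h4 : (m + a * z) ^ 4 ≤ 8 * m ^ 4 + 8 * s ^ 2 * z ^ 4 := by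
      have h5 : (m + a * z) ^ 2 ≤ 2 * m ^ 2 + 2 * (a * z) ^ 2 := by
        nlinarith [sq_nonneg (m - a * z)]
      have h6 : (m + a * z) ^ 4 = ((m + a * z) ^ 2) ^ 2 := by ring
      have h7 : ((m + a * z) ^ 2) ^ 2 ≤ (2 * m ^ 2 + 2 * (a * z) ^ 2) ^ 2 :=
        pow_le_pow_left₀ (sq_nonneg _) h5 2
      have h8 : (2 * m ^ 2 + 2 * (a * z) ^ 2) ^ 2 ≤ 8 * m ^ 4 + 8 * (a * z) ^ 4 := by
        nlinarith [sq_nonneg (m ^ 2 - (a * z) ^ 2)]
      have h9 : (a * z) ^ 4 = s ^ 2 * z ^ 4 := by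
        rw [← ha2]; ring
      rw [h6]
      refine h7.trans (h8.trans ?_)
      rw [h9]
      apply le_of_eq
      ring
    have : 0 ≤ C / η ^ 2 := by positivity
    gcongr
  -- integrate
  set G : ℝ → ℝ := fun z => F (y + m + a * z) - F y - (m + a * z) * deriv F y
      - deriv (deriv F) y * (m + a * z) ^ 2 / 2 with hG
  have hlin : Integrable (fun z : ℝ => m + a * z) gam :=
    (integrable_const _).add (i1.const_mul a)
  have hint_lin : ∫ z, (m + a * z) ∂gam = m := by
    rw [integral_add (integrable_const _) (i1.const_mul a), integral_const_mul, iid]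
    simp
  have hsqI : Integrable (fun z : ℝ => (m + a * z) ^ 2) gam := by
    have e : (fun z : ℝ => (m + a * z) ^ 2) = fun z => (m ^ 2 + (2 * m * a) * z) + s * z ^ 2 := by
      funext z; rw [← ha2]; ring
    rw [e]
    exact ((integrable_const _).add (i1.const_mul _)).add (i2.const_mul _)
  have hint_sq : ∫ z, (m + a * z) ^ 2 ∂gam = m ^ 2 + s := by
    have e : (fun z : ℝ => (m + a * z) ^ 2) = fun z => (m ^ 2 + (2 * m * a) * z) + s * z ^ 2 := by
      funext z; rw [← ha2]; ring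
    have i5 : Integrable (fun z : ℝ => m ^ 2 + (2 * m * a) * z) gam :=
      (integrable_const _).add (i1.const_mul _)
    rw [e, integral_add i5 (i2.const_mul _), integral_add (integrable_const _) (i1.const_mul _),
      integral_const_mul, integral_const_mul, iid, isq]
    simp
  have hGI : Integrable G gam := by
    have := ((iF.sub (integrable_const (F y))).sub (hlin.mul_const (deriv F y))).sub
      ((hsqI.const_mul (deriv (deriv F) y)).div_const 2)
    exact this
  have hGint : ∫ z, G z ∂gam = P s F (y + m) - F y - m * deriv F y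
      - deriv (deriv F) y * (m ^ 2 + s) / 2 := by
    have j1 : Integrable (fun z => F (y + m + a * z) - F y) gam := iF.sub (integrable_const (F y))
    have j2 : Integrable (fun z => F (y + m + a * z) - F y - (m + a * z) * deriv F y) gam :=
      j1.sub (hlin.mul_const (deriv F y))
    rw [hG, integral_sub j2 ((hsqI.const_mul (deriv (deriv F) y)).div_const 2),
      integral_sub j1 (hlin.mul_const (deriv F y)), integral_sub iF (integrable_const _),
      integral_mul_const, hint_lin, integral_div, integral_const_mul, hint_sq]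
    simp [P, ha]
  have hbI : Integrable (fun z : ℝ => ε / 2 * (m + a * z) ^ 2 +
      C / η ^ 2 * (8 * m ^ 4 + 8 * s ^ 2 * z ^ 4)) gam :=
    (hsqI.const_mul _).add (((integrable_const _).add (i4.const_mul _)).const_mul _)
  have hbint : ∫ z, (ε / 2 * (m + a * z) ^ 2 +
      C / η ^ 2 * (8 * m ^ 4 + 8 * s ^ 2 * z ^ 4)) ∂gam =
      ε / 2 * (m ^ 2 + s) + C / η ^ 2 * (8 * m ^ 4 + 8 * s ^ 2 * M4) := by
    have j3 : Integrable (fun z : ℝ => 8 * m ^ 4 + 8 * s ^ 2 * z ^ 4) gam :=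
      (integrable_const _).add (i4.const_mul _)
    rw [integral_add (hsqI.const_mul _) (j3.const_mul _), integral_const_mul, integral_const_mul,
      integral_add (integrable_const _) (i4.const_mul _), integral_const_mul _ (fun z : ℝ => z ^ 4),
      hint_sq]
    simp [M4]
  have habs : |∫ z, G z ∂gam| ≤ ε / 2 * (m ^ 2 + s) + C / η ^ 2 * (8 * m ^ 4 + 8 * s ^ 2 * M4) := by
    rw [← hbint]
    exact (abs_integral_le_integral_abs).trans (integral_mono hGI.abs hbI hpt)
  rw [hGint] at habs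
  have hm2 : |deriv (deriv F) y * m ^ 2 / 2| ≤ C * m ^ 2 / 2 := by
    rw [abs_div, abs_mul, abs_of_nonneg (sq_nonneg m), abs_of_pos (by norm_num : (0:ℝ) < 2)]
    have := hC y
    gcongr
  have e : P s F (y + m) - F y - m * deriv F y - deriv (deriv F) y * s / 2
      = (P s F (y + m) - F y - m * deriv F y - deriv (deriv F) y * (m ^ 2 + s) / 2)
        + deriv (deriv F) y * m ^ 2 / 2 := by ring
  rw [e]
  refine (abs_add_le _ _).trans ?_
  linarith

/-! ### Expansions of a solution -/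

section

variable {β : ℝ} {ζ : ℝ → ℝ} {f : ℝ → ℝ → ℝ}

lemma IsParisiSolution.expBdd (hf : IsParisiSolution β ζ f) {t : ℝ} (ht : t ∈ Icc (0:ℝ) 1) :
    ExpBdd (f t) := by
  obtain ⟨C, hC⟩ := hf.bdd
  have hC0 : 0 ≤ C := (abs_nonneg _).trans (hC t ht 0).1
  have hlip : ∀ x, |f t x - f t 0| ≤ C * |x| := by
    intro x
    have := Convex.norm_image_sub_le_of_norm_deriv_le (f := f t) (s := univ) (C := C)
      (fun z _ => hf.diff t ht z) (fun z _ => (hC t ht z).1) convex_univ (mem_univ 0) (mem_univ x)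
    simpa using this
  obtain ⟨K, A, h1, h2, h3⟩ := (ExpBdd.id.const_mul C).bound
  refine ⟨(hf.diff t ht).continuous, |f t 0| + K, A, by positivity, h2, fun x => ?_⟩
  have h4 := hlip x
  have h5 := h3 x
  rw [abs_mul, abs_of_nonneg hC0] at h5
  have h6 : |f t x| ≤ |f t 0| + |f t x - f t 0| := by
    have := abs_add_le (f t 0) (f t x - f t 0)
    simpa using this
  have h7 : 1 ≤ Real.exp (A * |x|) := Real.one_le_exp (by positivity)
  have h8 : |f t 0| ≤ |f t 0| * Real.exp (A * |x|) := by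
    nlinarith [abs_nonneg (f t 0)]
  calc |f t x| ≤ |f t 0| + |f t x - f t 0| := h6
    _ ≤ |f t 0| * Real.exp (A * |x|) + K * Real.exp (A * |x|) := by linarith
    _ = _ := by ring

/-- integrability of the right-hand side of the equation -/
lemma IsParisiSolution.integrable_rhs (hf : IsParisiSolution β ζ f)
    (hζ : IntervalIntegrable ζ volume 0 1) (x : ℝ) :
    IntervalIntegrable (fun s => deriv (deriv (f s)) x + ζ s * (deriv (f s) x) ^ 2) volume 0 1 := by
  have hc1 : ContinuousOn (fun s => deriv (f s) x) (Icc 0 1) := by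
    have := hf.unif.continuousOn.comp (g := fun p : ℝ × ℝ => deriv (f p.1) p.2)
      (f := fun s : ℝ => (s, x)) (s := Icc 0 1) (by fun_prop) (fun s hs => ⟨hs, mem_univ _⟩)
    exact this
  have hc2 : ContinuousOn (fun s => deriv (deriv (f s)) x) (Icc 0 1) := by
    have := hf.unif2.continuousOn.comp (g := fun p : ℝ × ℝ => deriv (deriv (f p.1)) p.2)
      (f := fun s : ℝ => (s, x)) (s := Icc 0 1) (by fun_prop) (fun s hs => ⟨hs, mem_univ _⟩)
    exact this
  have e : uIcc (0:ℝ) 1 = Icc 0 1 := uIcc_of_le zero_le_one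
  refine IntervalIntegrable.add ?_ ?_
  · exact ContinuousOn.intervalIntegrable (by rw [e]; exact hc2)
  · exact hζ.mul_continuousOn (by rw [e]; exact hc1.pow 2)

/-- increments of the solution in time -/
lemma IsParisiSolution.increment (hf : IsParisiSolution β ζ f)
    (hζ : IntervalIntegrable ζ volume 0 1) {t t' : ℝ} (ht : t ∈ Icc (0:ℝ) 1)
    (ht' : t' ∈ Icc (0:ℝ) 1) (x : ℝ) :
    f t x - f t' x = β ^ 2 * ∫ s in t..t', (deriv (deriv (f s)) x + ζ s * (deriv (f s) x) ^ 2) := by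
  have hI := hf.integrable_rhs hζ x
  have h1 : ∀ a ∈ Icc (0:ℝ) 1, ∀ b ∈ Icc (0:ℝ) 1, IntervalIntegrable
      (fun s => deriv (deriv (f s)) x + ζ s * (deriv (f s) x) ^ 2) volume a b := by
    intro a ha b hb
    refine hI.mono_set ?_
    rw [uIcc_of_le zero_le_one]
    exact uIcc_subset_Icc ha hb
  rw [hf.pde t ht, hf.pde t' ht']
  have h2 := intervalIntegral.integral_add_adjacent_intervals (h1 t ht t' ht')
    (h1 t' ht' 1 ⟨zero_le_one, le_refl _⟩)
  rw [← h2]
  ring

/-- first expansion: small time step -/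
lemma IsParisiSolution.expand_time (hf : IsParisiSolution β ζ f)
    (hζ : IntervalIntegrable ζ volume 0 1) (hζ01 : ∀ s ∈ Icc (0:ℝ) 1, 0 ≤ ζ s ∧ ζ s ≤ 1)
    {ε : ℝ} (hε : 0 < ε) : ∃ δ > 0, ∀ t ∈ Icc (0:ℝ) 1, ∀ t' ∈ Icc (0:ℝ) 1, t ≤ t' → t' - t ≤ δ →
      ∀ y, |f t y - f t' y - β ^ 2 * (t' - t) * deriv (deriv (f t')) y
        - β ^ 2 * (∫ s in t..t', ζ s) * deriv (f t') y ^ 2| ≤ ε * (t' - t) := by
  obtain ⟨C, hC⟩ := hf.bdd
  have hC0 : 0 ≤ C := (abs_nonneg _).trans (hC 0 ⟨le_refl _, zero_le_one⟩ 0).1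
  set ε₁ := ε / ((β ^ 2 + 1) * (1 + 2 * C)) with hε₁
  have hε₁pos : 0 < ε₁ := by positivity
  obtain ⟨δ₁, hδ₁, h1⟩ := Metric.uniformContinuousOn_iff.1 hf.unif ε₁ hε₁pos
  obtain ⟨δ₂, hδ₂, h2⟩ := Metric.uniformContinuousOn_iff.1 hf.unif2 ε₁ hε₁pos
  refine ⟨min δ₁ δ₂ / 2, by positivity, ?_⟩
  intro t ht t' ht' htt hδ y
  have hd1 : t' - t < δ₁ := lt_of_le_of_lt hδ (by
    have := min_le_left δ₁ δ₂
    have : 0 < min δ₁ δ₂ := lt_min hδ₁ hδ₂
    linarith)
  have hd2 : t' - t < δ₂ := lt_of_le_of_lt hδ (by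
    have := min_le_right δ₁ δ₂
    have : 0 < min δ₁ δ₂ := lt_min hδ₁ hδ₂
    linarith)
  rw [hf.increment hζ ht ht' y]
  have hsub : Icc t t' ⊆ Icc (0:ℝ) 1 := Icc_subset_Icc ht.1 ht'.2
  have hIζ : IntervalIntegrable ζ volume t t' := hζ.mono_set (by
    rw [uIcc_of_le zero_le_one, uIcc_of_le htt]; exact hsub)
  have hIr : IntervalIntegrable
      (fun s => deriv (deriv (f s)) y + ζ s * (deriv (f s) y) ^ 2) volume t t' :=
    (hf.integrable_rhs hζ y).mono_set (by
      rw [uIcc_of_le zero_le_one, uIcc_of_le htt]; exact hsub)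
  have e : β ^ 2 * (∫ s in t..t', (deriv (deriv (f s)) y + ζ s * (deriv (f s) y) ^ 2))
      - β ^ 2 * (t' - t) * deriv (deriv (f t')) y
        - β ^ 2 * (∫ s in t..t', ζ s) * deriv (f t') y ^ 2
      = β ^ 2 * ∫ s in t..t', ((deriv (deriv (f s)) y + ζ s * (deriv (f s) y) ^ 2)
        - (deriv (deriv (f t')) y + ζ s * deriv (f t') y ^ 2)) := by
    rw [intervalIntegral.integral_sub hIr ((intervalIntegrable_const).add (hIζ.mul_const _)),
      intervalIntegral.integral_add intervalIntegrable_const (hIζ.mul_const _),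
      intervalIntegral.integral_const, intervalIntegral.integral_mul_const]
    simp only [smul_eq_mul]
    ring
  rw [e, abs_mul, abs_of_nonneg (sq_nonneg β)]
  have hbound : |∫ s in t..t', ((deriv (deriv (f s)) y + ζ s * (deriv (f s) y) ^ 2)
        - (deriv (deriv (f t')) y + ζ s * deriv (f t') y ^ 2))| ≤
      (ε₁ * (1 + 2 * C)) * |t' - t| := by
    rw [← Real.norm_eq_abs]
    refine intervalIntegral.norm_integral_le_of_norm_le_const (fun s hs => ?_)
    rw [uIoc_of_le htt] at hs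
    have hs' : s ∈ Icc (0:ℝ) 1 := hsub ⟨hs.1.le, hs.2⟩
    have hdist : dist (s, y) (t', y) = t' - s := by
      rw [Prod.dist_eq, dist_self, max_eq_left dist_nonneg, Real.dist_eq, abs_sub_comm,
        abs_of_nonneg (by linarith [hs.2])]
    have g1 := h1 (s, y) ⟨hs', mem_univ _⟩ (t', y) ⟨ht', mem_univ _⟩
      (by rw [hdist]; linarith [hs.1])
    have g2 := h2 (s, y) ⟨hs', mem_univ _⟩ (t', y) ⟨ht', mem_univ _⟩
      (by rw [hdist]; linarith [hs.1])
    simp only [Real.dist_eq] at g1 g2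
    rw [Real.norm_eq_abs]
    have e2 : deriv (deriv (f s)) y + ζ s * (deriv (f s) y) ^ 2
        - (deriv (deriv (f t')) y + ζ s * deriv (f t') y ^ 2)
        = (deriv (deriv (f s)) y - deriv (deriv (f t')) y) +
          ζ s * ((deriv (f s) y - deriv (f t') y) * (deriv (f s) y + deriv (f t') y)) := by ring
    rw [e2]
    refine (abs_add_le _ _).trans ?_
    rw [abs_mul, abs_mul, abs_of_nonneg (hζ01 s hs').1]
    have g3 : |deriv (f s) y + deriv (f t') y| ≤ 2 * C := by
      have := abs_add_le (deriv (f s) y) (deriv (f t') y)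
      have := (hC s hs' y).1
      have := (hC t' ht' y).1
      linarith
    have g4 : |deriv (f s) y - deriv (f t') y| * |deriv (f s) y + deriv (f t') y| ≤
        ε₁ * (2 * C) := mul_le_mul g1.le g3 (abs_nonneg _) hε₁pos.le
    have g5 : ζ s * (|deriv (f s) y - deriv (f t') y| * |deriv (f s) y + deriv (f t') y|) ≤
        1 * (ε₁ * (2 * C)) :=
      mul_le_mul (hζ01 s hs').2 g4 (by positivity) zero_le_one
    linarith
  rw [abs_of_nonneg (by linarith : 0 ≤ t' - t)] at hbound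
  calc β ^ 2 * _ ≤ β ^ 2 * ((ε₁ * (1 + 2 * C)) * (t' - t)) := by gcongr
    _ ≤ (β ^ 2 + 1) * ((ε₁ * (1 + 2 * C)) * (t' - t)) := by
        have : 0 ≤ (ε₁ * (1 + 2 * C)) * (t' - t) := by
          have : 0 ≤ t' - t := by linarith
          positivity
        nlinarith
    _ = ε * (t' - t) := by
        rw [hε₁]; field_simp

/-- second expansion: Gaussian averages over a small time -/
lemma IsParisiSolution.expand_space (hf : IsParisiSolution β ζ f) {K ε : ℝ} (hK : 0 ≤ K)
    (hε : 0 < ε) : ∃ δ > 0, ∀ t' ∈ Icc (0:ℝ) 1, ∀ d, 0 ≤ d → d ≤ δ → ∀ y m, |m| ≤ K * d →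
      |P (2 * β ^ 2 * d) (f t') (y + m) - f t' y - m * deriv (f t') y
        - β ^ 2 * d * deriv (deriv (f t')) y| ≤ ε * d := by
  obtain ⟨C, hC⟩ := hf.bdd
  have hC0 : 0 ≤ C := (abs_nonneg _).trans (hC 0 ⟨le_refl _, zero_le_one⟩ 0).1
  set ε₁ := ε / (K ^ 2 + 2 * β ^ 2 + 1) with hε₁
  have hε₁pos : 0 < ε₁ := by positivity
  obtain ⟨δ₂, hδ₂, h2⟩ := Metric.uniformContinuousOn_iff.1 hf.unif2 ε₁ hε₁pos
  set η := δ₂ / 2 with hη
  have hηpos : 0 < η := by positivity
  set L := C * K ^ 2 / 2 + C / η ^ 2 * (8 * K ^ 4 + 32 * β ^ 4 * M4) with hL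
  have hL0 : 0 ≤ L := by have := M4_nonneg; positivity
  refine ⟨min 1 (ε / (2 * (L + 1))), by positivity, ?_⟩
  intro t' ht' d hd0 hd y m hm
  have hd1 : d ≤ 1 := hd.trans (min_le_left _ _)
  have hd2 : d ≤ ε / (2 * (L + 1)) := hd.trans (min_le_right _ _)
  have hs : 0 ≤ 2 * β ^ 2 * d := by positivity
  have hmod : ∀ w y, |w - y| ≤ η → |deriv (deriv (f t')) w - deriv (deriv (f t')) y| ≤ ε₁ := by
    intro w y hwy
    have := h2 (t', w) ⟨ht', mem_univ _⟩ (t', y) ⟨ht', mem_univ _⟩ (by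
      rw [Prod.dist_eq, dist_self, max_eq_right dist_nonneg, Real.dist_eq]
      simp only
      linarith)
    simp only [Real.dist_eq] at this
    exact this.le
  have h := gauss_taylor (hf.diff t' ht') (hf.diff2 t' ht') hηpos hε₁pos.le (hf.expBdd ht')
    (fun x => (hC t' ht' x).2) hmod hs y m
  have e : deriv (deriv (f t')) y * (2 * β ^ 2 * d) / 2 = β ^ 2 * d * deriv (deriv (f t')) y := by
    ring
  rw [e] at h
  refine h.trans ?_
  have hm2 : m ^ 2 ≤ K ^ 2 * d ^ 2 := by
    rw [← sq_abs m, ← mul_pow]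
    exact pow_le_pow_left₀ (abs_nonneg m) hm 2
  have hm4 : m ^ 4 ≤ K ^ 4 * d ^ 4 := by
    have : m ^ 4 = |m| ^ 4 := by
      have : m ^ 4 = (m ^ 2) ^ 2 := by ring
      rw [this, ← sq_abs m]; ring
    rw [this, ← mul_pow]
    exact pow_le_pow_left₀ (abs_nonneg m) hm 4
  have hdd : d ^ 2 ≤ d := by nlinarith
  have hd4 : d ^ 4 ≤ d ^ 2 := by
    have : d ^ 4 = d ^ 2 * d ^ 2 := by ring
    rw [this]
    have : d ^ 2 ≤ 1 := by nlinarith
    nlinarith [sq_nonneg d]
  have b1 : C * m ^ 2 / 2 ≤ C * K ^ 2 / 2 * d ^ 2 := by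
    have : C * m ^ 2 ≤ C * (K ^ 2 * d ^ 2) := by gcongr
    linarith
  have b2 : ε₁ / 2 * (m ^ 2 + 2 * β ^ 2 * d) ≤ ε / 2 * d := by
    have : m ^ 2 + 2 * β ^ 2 * d ≤ (K ^ 2 + 2 * β ^ 2 + 1) * d := by
      have : K ^ 2 * d ^ 2 ≤ K ^ 2 * d := by gcongr
      nlinarith
    calc ε₁ / 2 * (m ^ 2 + 2 * β ^ 2 * d) ≤ ε₁ / 2 * ((K ^ 2 + 2 * β ^ 2 + 1) * d) := by gcongr
      _ = ε / 2 * d := by rw [hε₁]; field_simp
  have b3 : C / η ^ 2 * (8 * m ^ 4 + 8 * (2 * β ^ 2 * d) ^ 2 * M4) ≤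
      C / η ^ 2 * (8 * K ^ 4 + 32 * β ^ 4 * M4) * d ^ 2 := by
    have hM := M4_nonneg
    have : 8 * m ^ 4 + 8 * (2 * β ^ 2 * d) ^ 2 * M4 ≤ (8 * K ^ 4 + 32 * β ^ 4 * M4) * d ^ 2 := by
      have h5 : m ^ 4 ≤ K ^ 4 * d ^ 2 :=
        hm4.trans (mul_le_mul_of_nonneg_left hd4 (by positivity))
      have h6 : 8 * (2 * β ^ 2 * d) ^ 2 * M4 = 32 * β ^ 4 * M4 * d ^ 2 := by ring
      rw [h6]
      linarith
    have h7 := mul_le_mul_of_nonneg_left this (by positivity : 0 ≤ C / η ^ 2)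
    refine h7.trans (le_of_eq ?_)
    ring
  have b4 : L * d ^ 2 ≤ ε / 2 * d := by
    have : L * d ≤ ε / 2 := by
      calc L * d ≤ (L + 1) * d := by nlinarith
        _ ≤ (L + 1) * (ε / (2 * (L + 1))) := by gcongr
        _ = ε / 2 := by field_simp
    calc L * d ^ 2 = (L * d) * d := by ring
      _ ≤ ε / 2 * d := by gcongr
  calc _ ≤ C * K ^ 2 / 2 * d ^ 2 + ε / 2 * d + C / η ^ 2 * (8 * K ^ 4 + 32 * β ^ 4 * M4) * d ^ 2 := by
        linarith
    _ = L * d ^ 2 + ε / 2 * d := by rw [hL]; ring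
    _ ≤ ε * d := by linarith

/-- a control inequality over a small time step -/
lemma IsParisiSolution.control (hf : IsParisiSolution β ζ f)
    (hζ : IntervalIntegrable ζ volume 0 1) (hζ01 : ∀ s ∈ Icc (0:ℝ) 1, 0 ≤ ζ s ∧ ζ s ≤ 1)
    {V ε : ℝ} (hV : 0 ≤ V) (hε : 0 < ε) :
    ∃ δ > 0, ∀ t ∈ Icc (0:ℝ) 1, ∀ t' ∈ Icc (0:ℝ) 1, t ≤ t' → t' - t ≤ δ → ∀ y v, |v| ≤ V →
      |f t y + β ^ 2 * v ^ 2 * (∫ s in t..t', ζ s)
        - P (2 * β ^ 2 * (t' - t)) (f t') (y + 2 * β ^ 2 * v * (∫ s in t..t', ζ s))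
        - β ^ 2 * (∫ s in t..t', ζ s) * (deriv (f t') y - v) ^ 2| ≤ ε * (t' - t) := by
  obtain ⟨δ₁, hδ₁, h1⟩ := hf.expand_time hζ hζ01 (half_pos hε)
  obtain ⟨δ₂, hδ₂, h2⟩ := hf.expand_space (K := 2 * β ^ 2 * V) (by positivity) (half_pos hε)
  refine ⟨min δ₁ δ₂, lt_min hδ₁ hδ₂, ?_⟩
  intro t ht t' ht' htt hδ y v hv
  have hd0 : 0 ≤ t' - t := by linarith
  have hsub : Icc t t' ⊆ Icc (0:ℝ) 1 := Icc_subset_Icc ht.1 ht'.2
  have hIζ : IntervalIntegrable ζ volume t t' := hζ.mono_set (by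
    rw [uIcc_of_le zero_le_one, uIcc_of_le htt]; exact hsub)
  have hI0 : 0 ≤ ∫ s in t..t', ζ s :=
    intervalIntegral.integral_nonneg htt (fun s hs => (hζ01 s (hsub hs)).1)
  have hI1 : ∫ s in t..t', ζ s ≤ t' - t := by
    have := intervalIntegral.integral_mono_on htt hIζ (intervalIntegrable_const (c := (1:ℝ)))
      (fun s hs => (hζ01 s (hsub hs)).2)
    simpa using this
  have g1 := h1 t ht t' ht' htt (hδ.trans (min_le_left _ _)) y
  have g2 := h2 t' ht' (t' - t) hd0 (hδ.trans (min_le_right _ _)) y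
    (2 * β ^ 2 * v * (∫ s in t..t', ζ s)) (by
      rw [abs_mul, abs_mul, abs_of_nonneg hI0, abs_of_nonneg (by positivity : 0 ≤ 2 * β ^ 2)]
      have h3 : |v| * (∫ s in t..t', ζ s) ≤ V * (t' - t) :=
        mul_le_mul hv hI1 hI0 hV
      calc 2 * β ^ 2 * |v| * (∫ s in t..t', ζ s) = 2 * β ^ 2 * (|v| * (∫ s in t..t', ζ s)) := by ring
        _ ≤ 2 * β ^ 2 * (V * (t' - t)) := by gcongr
        _ = _ := by ring)
  set I := ∫ s in t..t', ζ s with hI
  rw [abs_le] at g1 g2 ⊢
  constructor <;> nlinarith [g1.1, g1.2, g2.1, g2.2]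

end

end Pool.Agent.ATLine
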