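import Mathlib
import Pool.Agent.Lib.ATLine.Psi
import Pool.Agent.Lib.ATLine.Step

/-!
# The lower bound for the Parisi functional, and uniqueness of solutions of the Parisi equation
-/

open MeasureTheory ProbabilityTheory Filter Topology Set

namespace Pool.Agent.ATLine

/-- a discrete backward induction -/
lemma backward {a b : ℝ} (hab : a ≤ b) (S : ℝ → ℝ → Prop)
    (hmono : ∀ t e e', e ≤ e' → S t e → S t e') (hb : ∀ e > 0, S b e)
    (hstep : ∀ ε > 0, ∃ δ > 0, ∀ t t', a ≤ t → t ≤ t' → t' ≤ b → t' - t ≤ δ → ∀ e, 0 ≤ e →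
      S t' e → S t (e + ε * (t' - t))) {e : ℝ} (he : 0 < e) : S a e := by
  set ε := e / (2 * (b - a + 1)) with hε
  have hba : 0 ≤ b - a := by linarith
  have hεpos : 0 < ε := by positivity
  obtain ⟨δ, hδ, hs⟩ := hstep ε hεpos
  obtain ⟨N, hN⟩ := exists_nat_gt ((b - a) / δ)
  have hN0 : (0:ℝ) < N := lt_of_le_of_lt (by positivity) hN
  have hN1 : (b - a) / N ≤ δ := by
    rw [div_lt_iff₀ hδ] at hN
    rw [div_le_iff₀ hN0]
    linarith
  set d := (b - a) / N with hd
  have hd0 : 0 ≤ d := by positivity
  have hdN : d * N = b - a := by rw [hd]; field_simp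
  have key : ∀ k : ℕ, k ≤ N → S (b - k * d) (e / 2 + ε * (k * d)) := by
    intro k
    induction k with
    | zero =>
      intro _
      simp only [Nat.cast_zero, zero_mul, sub_zero, mul_zero, add_zero]
      exact hb _ (by positivity)
    | succ k ih =>
      intro hk
      have h1 := ih (by omega)
      have hk' : ((k:ℝ) + 1) ≤ N := by exact_mod_cast hk
      have h3 := hs (b - (k + 1 : ℕ) * d) (b - k * d) (by
          push_cast
          have : ((k:ℝ) + 1) * d ≤ N * d := by gcongr
          linarith) (by push_cast; linarith) (by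
          have : 0 ≤ (k:ℝ) * d := by positivity
          linarith) (by push_cast; linarith) _ (by positivity) h1
      refine hmono _ _ _ ?_ h3
      push_cast
      apply le_of_eq
      ring
  have h := key N (le_refl _)
  have e1 : b - N * d = a := by linarith
  rw [e1] at h
  refine hmono _ _ _ ?_ h
  have : (N:ℝ) * d = b - a := by linarith
  rw [this]
  have h2 : ε * (b - a) ≤ e / 2 := by
    rw [hε, div_mul_eq_mul_div, div_le_div_iff₀ (by positivity) (by norm_num)]
    nlinarith
  linarith

section

variable {β : ℝ} {ζ : ℝ → ℝ}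

/-- the derivative of a solution of the Parisi equation is locally bounded -/
lemma sub_le_of_solutions {f₁ f₂ : ℝ → ℝ → ℝ} (hf₁ : IsParisiSolution β ζ f₁)
    (hf₂ : IsParisiSolution β ζ f₂) (hζ : IntervalIntegrable ζ volume 0 1)
    (hζ01 : ∀ s ∈ Icc (0:ℝ) 1, 0 ≤ ζ s ∧ ζ s ≤ 1) {t : ℝ} (ht : t ∈ Icc (0:ℝ) 1) (y : ℝ) :
    f₁ t y ≤ f₂ t y := by
  have key : ∀ e > 0, ∀ y, f₁ t y - f₂ t y ≤ e := by
    intro e he
    refine backward (a := t) (b := 1) ht.2 (fun t e => ∀ y, f₁ t y - f₂ t y ≤ e)
      (fun t e e' h1 h2 y => (h2 y).trans h1) (fun e he y => ?_) ?_ he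
    · rw [hf₁.terminal, hf₂.terminal]; linarith
    · intro ε hε
      obtain ⟨C, hC⟩ := hf₁.bdd
      have hC0 : 0 ≤ C := (abs_nonneg _).trans (hC t ht 0).1
      obtain ⟨δ₁, hδ₁, h1⟩ := hf₁.control hζ hζ01 hC0 (half_pos hε)
      obtain ⟨δ₂, hδ₂, h2⟩ := hf₂.control hζ hζ01 hC0 (half_pos hε)
      refine ⟨min δ₁ δ₂, lt_min hδ₁ hδ₂, ?_⟩
      intro s s' hs hss' hs' hd e he hS y
      have ms : s ∈ Icc (0:ℝ) 1 := ⟨ht.1.trans hs, hss'.trans hs'⟩
      have ms' : s' ∈ Icc (0:ℝ) 1 := ⟨ms.1.trans hss', hs'⟩
      set v := deriv (f₁ s') y with hv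
      have g1 := h1 s ms s' ms' hss' (hd.trans (min_le_left _ _)) y v (hC s' ms' y).1
      have g2 := h2 s ms s' ms' hss' (hd.trans (min_le_right _ _)) y v (hC s' ms' y).1
      have hI0 : 0 ≤ ∫ u in s..s', ζ u :=
        intervalIntegral.integral_nonneg hss'
          (fun u hu => (hζ01 u ⟨ms.1.trans hu.1, hu.2.trans hs'⟩).1)
      rw [← hv, sub_self] at g1
      have b1 := hf₁.expBdd ms'
      have b2 := hf₂.expBdd ms'
      have g3 : P (2 * β ^ 2 * (s' - s)) (f₁ s') (y + 2 * β ^ 2 * v * ∫ u in s..s', ζ u) -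
          P (2 * β ^ 2 * (s' - s)) (f₂ s') (y + 2 * β ^ 2 * v * ∫ u in s..s', ζ u) ≤ e := by
        rw [← P_sub b1 b2]
        have := P_mono (b1.sub b2) (ExpBdd.const e) hS (2 * β ^ 2 * (s' - s))
          (y + 2 * β ^ 2 * v * ∫ u in s..s', ζ u)
        rwa [P_const] at this
      have g4 : 0 ≤ β ^ 2 * (∫ u in s..s', ζ u) * (deriv (f₂ s') y - v) ^ 2 := by positivity
      have g5 := (abs_le.1 g1).2
      have g6 := (abs_le.1 g2).1
      linarith
  by_contra hcon
  push Not at hcon
  have := key ((f₁ t y - f₂ t y) / 2) (by linarith) y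
  linarith

/-- uniqueness of the solution of the Parisi equation -/
theorem IsParisiSolution.unique {f₁ f₂ : ℝ → ℝ → ℝ} (hf₁ : IsParisiSolution β ζ f₁)
    (hf₂ : IsParisiSolution β ζ f₂) (hζ : IntervalIntegrable ζ volume 0 1)
    (hζ01 : ∀ s ∈ Icc (0:ℝ) 1, 0 ≤ ζ s ∧ ζ s ≤ 1) {t : ℝ} (ht : t ∈ Icc (0:ℝ) 1) (y : ℝ) :
    f₁ t y = f₂ t y :=
  le_antisymm (sub_le_of_solutions hf₁ hf₂ hζ hζ01 ht y)
    (sub_le_of_solutions hf₂ hf₁ hζ hζ01 ht y)

/-- first part of the lower bound, on `[q,1]` -/
lemma lower_phase_two {f : ℝ → ℝ → ℝ} (hf : IsParisiSolution β ζ f)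
    (hζ : IntervalIntegrable ζ volume 0 1) (hζ01 : ∀ s ∈ Icc (0:ℝ) 1, 0 ≤ ζ s ∧ ζ s ≤ 1)
    {q h : ℝ} (hq : q ∈ Icc (0:ℝ) 1)
    (hψ : ∀ t ∈ Icc q 1, P (2 * β ^ 2 * q)
      (T (2 * β ^ 2 * (t - q)) (fun y => Real.tanh y ^ 2)) h ≤ t) {e : ℝ} (he : 0 < e) :
    ∃ R : ℝ → ℝ, ExpBdd R ∧
      P (2 * β ^ 2 * q) R h ≤ β ^ 2 * ∫ s in q..1, (1 - ζ s) * s ∧
      ∀ x y, lc x + β ^ 2 * (1 - q) + Real.tanh x * (y - x) - R x - e ≤ f q y := by
  have main := backward (a := q) (b := 1) hq.2 (fun t e => ∃ R : ℝ → ℝ, ExpBdd R ∧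
      P (2 * β ^ 2 * q) (T (2 * β ^ 2 * (t - q)) R) h ≤ β ^ 2 * (∫ s in t..1, (1 - ζ s) * s) ∧
      ∀ x y, lc x + β ^ 2 * (1 - t) + Real.tanh x * (y - x) - R x - e ≤ f t y) ?_ ?_ ?_ he
  · obtain ⟨R, h1, h2, h3⟩ := main
    refine ⟨R, h1, ?_, h3⟩
    have e1 : T (2 * β ^ 2 * (q - q)) R = R := by
      funext x
      rw [sub_self, mul_zero, T_zero]
    rwa [e1] at h2
  · rintro t e e' hee ⟨R, h1, h2, h3⟩
    exact ⟨R, h1, h2, fun x y => by linarith [h3 x y]⟩
  · intro e he
    refine ⟨fun _ => 0, ExpBdd.const 0, ?_, fun x y => ?_⟩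
    · have e1 : T (2 * β ^ 2 * (1 - q)) (fun _ => 0) = fun _ => 0 := by
        funext x
        rw [T_const (by have := hq.2; have : 0 ≤ 1 - q := by linarith
                        positivity)]
      rw [e1, P_const, intervalIntegral.integral_same, mul_zero]
    · rw [hf.terminal]
      have := lc_tangent x y
      have e2 : Real.log (Real.cosh y) = lc y := rfl
      rw [e2]
      linarith
  · intro ε hε
    obtain ⟨δ₁, hδ₁, hctrl⟩ := hf.control hζ hζ01 zero_le_one (half_pos hε)
    set B := β ^ 2 with hB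
    have hB0 : 0 ≤ B := sq_nonneg β
    -- δ small enough
    set K := 2 * B * (2 * B + 4 * B ^ 2) with hK
    have hK0 : 0 ≤ K := by positivity
    refine ⟨min δ₁ (min 1 (ε / (2 * (K + 1)))), by positivity, ?_⟩
    rintro t t' hqt htt' ht'1 hd e he ⟨R, hR, hRh, hRf⟩
    have mt : t ∈ Icc (0:ℝ) 1 := ⟨hq.1.trans hqt, htt'.trans ht'1⟩
    have mt' : t' ∈ Icc (0:ℝ) 1 := ⟨mt.1.trans htt', ht'1⟩
    set Δ := t' - t with hΔ
    have hΔ0 : 0 ≤ Δ := by linarith
    have hd1 : Δ ≤ δ₁ := hd.trans (min_le_left _ _)
    have hd2 : Δ ≤ 1 := hd.trans ((min_le_right _ _).trans (min_le_left _ _))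
    have hd3 : Δ ≤ ε / (2 * (K + 1)) := hd.trans ((min_le_right _ _).trans (min_le_right _ _))
    set I := ∫ s in t..t', ζ s with hI
    have hsub : Icc t t' ⊆ Icc (0:ℝ) 1 := Icc_subset_Icc mt.1 mt'.2
    have hIζ : ∀ a ∈ Icc (0:ℝ) 1, ∀ b ∈ Icc (0:ℝ) 1, IntervalIntegrable ζ volume a b := by
      intro a ha b hb
      refine hζ.mono_set ?_
      rw [uIcc_of_le zero_le_one]
      exact uIcc_subset_Icc ha hb
    have hI0 : 0 ≤ I := intervalIntegral.integral_nonneg htt' (fun s hs => (hζ01 s (hsub hs)).1)
    have hI1 : I ≤ Δ := by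
      have := intervalIntegral.integral_mono_on htt' (hIζ t mt t' mt')
        (intervalIntegrable_const (c := (1:ℝ))) (fun s hs => (hζ01 s (hsub hs)).2)
      simpa using this
    set c := 2 * B * Δ with hc
    have hc0 : 0 ≤ c := by positivity
    have btq : 0 ≤ 2 * B * (t - q) := by
      have : 0 ≤ t - q := by linarith
      positivity
    have bt2 : ExpBdd (fun y => Real.tanh y ^ 2) := expBdd_tanh.pow 2
    refine ⟨fun x => T c R x + B * (Δ - I) * Real.tanh x ^ 2, (hR.T c).add (bt2.const_mul _),
      ?_, ?_⟩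
    · -- the mean of the remainder
      have e1 : T (2 * B * (t - q)) (fun x => T c R x + B * (Δ - I) * Real.tanh x ^ 2) =
          fun x => T (2 * B * (t' - q)) R x +
            B * (Δ - I) * T (2 * B * (t - q)) (fun y => Real.tanh y ^ 2) x := by
        funext x
        rw [T_add (hR.T c) (bt2.const_mul _), T_const_mul]
        rw [T_T hR btq hc0]
        have e2 : 2 * B * (t - q) + c = 2 * B * (t' - q) := by rw [hc, hΔ]; ring
        rw [e2]
      rw [e1, P_add (hR.T _) ((bt2.T _).const_mul _), P_const_mul]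
      have h3 := hψ t ⟨hqt, mt.2⟩
      have i1 : IntervalIntegrable (fun s => (1 - ζ s) * s) volume t t' :=
        (intervalIntegrable_const.sub (hIζ t mt t' mt')).mul_continuousOn continuousOn_id
      have i2 : IntervalIntegrable (fun s => (1 - ζ s) * s) volume t' 1 :=
        (intervalIntegrable_const.sub (hIζ t' mt' 1 ⟨zero_le_one, le_refl _⟩)).mul_continuousOn
          continuousOn_id
      rw [← intervalIntegral.integral_add_adjacent_intervals i1 i2]
      have h4 : (Δ - I) * t ≤ ∫ s in t..t', (1 - ζ s) * s := by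
        have i3 : IntervalIntegrable (fun s => (1 - ζ s) * t) volume t t' :=
          (intervalIntegrable_const.sub (hIζ t mt t' mt')).mul_const t
        have e3 : ∫ s in t..t', (1 - ζ s) * t = (Δ - I) * t := by
          rw [intervalIntegral.integral_mul_const, intervalIntegral.integral_sub
            intervalIntegrable_const (hIζ t mt t' mt')]
          simp [hΔ, hI]
        rw [← e3]
        refine intervalIntegral.integral_mono_on htt' i3 i1 (fun s hs => ?_)
        have := (hζ01 s (hsub hs)).2
        have := hs.1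
        nlinarith
      have h5 : (Δ - I) * P (2 * B * q) (T (2 * B * (t - q)) (fun y => Real.tanh y ^ 2)) h ≤
          (Δ - I) * t := by
        have : 0 ≤ Δ - I := by linarith
        gcongr
      have h6 : B * (Δ - I) * P (2 * B * q) (T (2 * B * (t - q)) (fun y => Real.tanh y ^ 2)) h ≤
          B * ∫ s in t..t', (1 - ζ s) * s := by
        rw [mul_assoc]
        exact mul_le_mul_of_nonneg_left (h5.trans h4) hB0
      calc _ ≤ B * (∫ s in t'..1, (1 - ζ s) * s) + B * ∫ s in t..t', (1 - ζ s) * s :=
            add_le_add hRh h6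
        _ = _ := by ring
    · -- the pointwise lower bound
      intro x y
      have hv : |Real.tanh x| ≤ 1 := abs_tanh_le_one x
      have g := (abs_le.1 (hctrl t mt t' mt' htt' hd1 y (Real.tanh x) hv)).1
      rw [← hI, ← hΔ, ← hc] at g
      set l := Real.tanh x with hl
      have hl2 : l ^ 2 ≤ 1 := tanh_sq_le_one x
      have habs := abs_le.1 hv
      set y' := y + 2 * B * l * I with hy'
      -- lower bounds with the two shifted points
      have hsig : ∀ σ : ℝ, P c lc (x + σ) + B * (1 - t') + P c Real.tanh (x + σ) * (y' - (x + σ))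
          - P c R (x + σ) - e ≤ P c (f t') y' := by
        intro σ
        have bf := hf.expBdd mt'
        have j1 := (expBdd_lc.integrable_comp (x + σ) (√c))
        have j2 := (expBdd_tanh.integrable_comp (x + σ) (√c))
        have j3 := (hR.integrable_comp (x + σ) (√c))
        have j4 := (bf.integrable_comp y' (√c))
        have e1 : P c lc (x + σ) + B * (1 - t') + P c Real.tanh (x + σ) * (y' - (x + σ))
            - P c R (x + σ) - e = ∫ z, (lc (x + σ + √c * z) + B * (1 - t')
              + Real.tanh (x + σ + √c * z) * (y' - (x + σ)) - R (x + σ + √c * z) - e) ∂gam := by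
          have j5 : Integrable (fun z => lc (x + σ + √c * z) + B * (1 - t')) gam :=
            j1.add (integrable_const _)
          have j6 : Integrable (fun z => lc (x + σ + √c * z) + B * (1 - t')
              + Real.tanh (x + σ + √c * z) * (y' - (x + σ))) gam := j5.add (j2.mul_const _)
          have j7 : Integrable (fun z => lc (x + σ + √c * z) + B * (1 - t')
              + Real.tanh (x + σ + √c * z) * (y' - (x + σ)) - R (x + σ + √c * z)) gam :=
            j6.sub j3
          rw [integral_sub j7 (integrable_const _), integral_sub j6 j3,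
            integral_add j5 (j2.mul_const _), integral_add j1 (integrable_const _),
            integral_mul_const (y' - (x + σ)) (fun z => Real.tanh (x + σ + √c * z))]
          simp only [integral_const, P, probReal_univ, one_smul]
        rw [e1]
        unfold P
        refine integral_mono ?_ j4 (fun z => ?_)
        · have j5 : Integrable (fun z => lc (x + σ + √c * z) + B * (1 - t')) gam :=
            j1.add (integrable_const _)
          have j6 : Integrable (fun z => lc (x + σ + √c * z) + B * (1 - t')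
              + Real.tanh (x + σ + √c * z) * (y' - (x + σ))) gam := j5.add (j2.mul_const _)
          have j7 : Integrable (fun z => lc (x + σ + √c * z) + B * (1 - t')
              + Real.tanh (x + σ + √c * z) * (y' - (x + σ)) - R (x + σ + √c * z)) gam :=
            j6.sub j3
          exact j7.sub (integrable_const _)
        · have := hRf (x + σ + √c * z) (y' + √c * z)
          have e2 : y' + √c * z - (x + σ + √c * z) = y' - (x + σ) := by ring
          rw [e2] at this
          exact this
      have s1 := hsig c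
      have s2 := hsig (-c)
      have w1 : 0 ≤ (1 + l) / 2 := by linarith [habs.1]
      have w2 : 0 ≤ (1 - l) / 2 := by linarith [habs.2]
      have m1 := mul_le_mul_of_nonneg_left s1 w1
      have m2 := mul_le_mul_of_nonneg_left s2 w2
      have t1 := T_eq_mix hc0 expBdd_lc x
      have t2 := T_eq_mix hc0 expBdd_tanh x
      have t3 := T_eq_mix hc0 hR x
      have t4 := mix_sub hc0 expBdd_tanh x
      have t5 := T_tanh hc0 x
      have t6 := T_lc_ge hc0 x
      have t7 := T_tanh_sq_le hc0 x
      rw [t5] at t2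
      have t8 : (fun y => Real.tanh y * Real.tanh y) = fun y => Real.tanh y ^ 2 := by
        funext y; ring
      rw [t8] at t4
      rw [← hl] at t1 t2 t3 t4 t6 t7
      have ec : x + -c = x - c := by ring
      rw [ec] at m2
      -- combine
      have hsum : T c lc x + B * (1 - t') + l * (y' - x) - c * T c (fun y => Real.tanh y ^ 2) x
          - T c R x - e ≤ P c (f t') y' := by
        have e3 : T c lc x + B * (1 - t') + l * (y' - x) - c * T c (fun y => Real.tanh y ^ 2) x
            - T c R x - e = (1 + l) / 2 * (P c lc (x + c) + B * (1 - t') +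
              P c Real.tanh (x + c) * (y' - (x + c)) - P c R (x + c) - e) +
              (1 - l) / 2 * (P c lc (x - c) + B * (1 - t') +
              P c Real.tanh (x - c) * (y' - (x - c)) - P c R (x - c) - e) := by
          rw [t1, t3, ← t4]
          linear_combination (y' - x) * t2
        rw [e3]
        have e4 : P c (f t') y' = (1 + l) / 2 * P c (f t') y' + (1 - l) / 2 * P c (f t') y' := by
          ring
        rw [e4]
        exact add_le_add m1 m2
      have hK1 : c * (c + c ^ 2) ≤ K * Δ * Δ := by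
        have e5 : c * (c + c ^ 2) = 2 * B * Δ * Δ * (2 * B + 4 * B ^ 2 * Δ) := by
          rw [hc]; ring
        have e6 : K * Δ * Δ = 2 * B * Δ * Δ * (2 * B + 4 * B ^ 2) := by
          rw [hK]; ring
        rw [e5, e6]
        have e7 : 2 * B + 4 * B ^ 2 * Δ ≤ 2 * B + 4 * B ^ 2 := by
          have : 4 * B ^ 2 * Δ ≤ 4 * B ^ 2 := mul_le_of_le_one_right (by positivity) hd2
          linarith
        exact mul_le_mul_of_nonneg_left e7 (by positivity)
      have hK2 : K * Δ ≤ ε / 2 := by
        calc K * Δ ≤ (K + 1) * Δ := by nlinarith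
          _ ≤ (K + 1) * (ε / (2 * (K + 1))) := by gcongr
          _ = ε / 2 := by field_simp
      have hK3 : K * Δ * Δ ≤ ε / 2 * Δ := by gcongr
      have h7 : c * T c (fun y => Real.tanh y ^ 2) x ≤ c * l ^ 2 + ε / 2 * Δ := by
        calc _ ≤ c * (l ^ 2 + (c + c ^ 2)) := by gcongr
          _ = c * l ^ 2 + c * (c + c ^ 2) := by ring
          _ ≤ _ := by linarith
      have h8 : 0 ≤ B * I * (deriv (f t') y - l) ^ 2 := by positivity
      have e7 : l * (y' - x) = l * (y - x) + 2 * B * I * l ^ 2 := by rw [hy']; ring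
      rw [e7] at hsum
      have e8 : c * l ^ 2 = 2 * B * Δ * l ^ 2 := by rw [hc]
      have e9 : c / 2 = B * Δ := by rw [hc]; ring
      rw [e9] at t6
      have e10 : B * (1 - t) = B * (1 - t') + B * Δ := by rw [hΔ]; ring
      rw [e10]
      nlinarith [g, hsum, t6, h7, h8]

/-- **Lower bound** for the solution of the Parisi equation in terms of the replica symmetric
solution -/
theorem lower_bound {f : ℝ → ℝ → ℝ} (hf : IsParisiSolution β ζ f)
    (hζ : IntervalIntegrable ζ volume 0 1) (hζ01 : ∀ s ∈ Icc (0:ℝ) 1, 0 ≤ ζ s ∧ ζ s ≤ 1)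
    {q h : ℝ} (hq : q ∈ Icc (0:ℝ) 1)
    (hψ : ∀ t ∈ Icc q 1, P (2 * β ^ 2 * q)
      (T (2 * β ^ 2 * (t - q)) (fun y => Real.tanh y ^ 2)) h ≤ t)
    (hψ' : ∀ t ∈ Icc 0 q, t ≤ P (2 * β ^ 2 * t)
      (fun x => P (2 * β ^ 2 * (q - t)) Real.tanh x ^ 2) h) :
    P (2 * β ^ 2 * q) lc h + β ^ 2 * (1 - q) - β ^ 2 * (∫ s in q..1, (1 - ζ s) * s)
      + β ^ 2 * (∫ s in (0:ℝ)..q, ζ s * s) ≤ f 0 h := by
  have hIζ : ∀ a ∈ Icc (0:ℝ) 1, ∀ b ∈ Icc (0:ℝ) 1, IntervalIntegrable ζ volume a b := by
    intro a ha b hb
    refine hζ.mono_set ?_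
    rw [uIcc_of_le zero_le_one]
    exact uIcc_subset_Icc ha hb
  have key : ∀ e > 0, P (2 * β ^ 2 * q) lc h + β ^ 2 * (1 - q)
      - β ^ 2 * (∫ s in q..1, (1 - ζ s) * s)
      + β ^ 2 * (∫ s in (0:ℝ)..q, ζ s * s) ≤ f 0 h + 2 * e := by
    intro e he
    have main := backward (a := 0) (b := q) hq.1 (fun t e => ∃ R : ℝ → ℝ, ExpBdd R ∧
        P (2 * β ^ 2 * t) R h ≤ β ^ 2 * (∫ s in q..1, (1 - ζ s) * s)
          - β ^ 2 * (∫ s in t..q, ζ s * s) + e ∧
        ∀ x y, P (2 * β ^ 2 * (q - t)) lc x + β ^ 2 * (1 - q)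
          + P (2 * β ^ 2 * (q - t)) Real.tanh x * (y - x) - R x - e ≤ f t y) ?_ ?_ ?_ he
    · obtain ⟨R, h1, h2, h3⟩ := main
      have h4 := h3 h h
      rw [mul_zero, P_zero] at h2
      rw [sub_zero] at h4
      simp only [sub_self, mul_zero, add_zero] at h4
      linarith
    · rintro t e e' hee ⟨R, h1, h2, h3⟩
      exact ⟨R, h1, by linarith, fun x y => by linarith [h3 x y]⟩
    · intro e he
      obtain ⟨R, h1, h2, h3⟩ := lower_phase_two hf hζ hζ01 hq hψ he
      refine ⟨R, h1, ?_, fun x y => ?_⟩
      · rw [intervalIntegral.integral_same]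
        linarith
      · rw [sub_self, mul_zero, P_zero, P_zero]
        exact h3 x y
    · intro ε hε
      obtain ⟨δ₁, hδ₁, hctrl⟩ := hf.control hζ hζ01 zero_le_one hε
      set B := β ^ 2 with hB
      have hB0 : 0 ≤ B := sq_nonneg β
      refine ⟨min δ₁ (ε / (B + 1)), by positivity, ?_⟩
      rintro t t' h0t htt' ht'q hd e he ⟨R, hR, hRh, hRf⟩
      have mt : t ∈ Icc (0:ℝ) 1 := ⟨h0t, htt'.trans (ht'q.trans hq.2)⟩
      have mt' : t' ∈ Icc (0:ℝ) 1 := ⟨mt.1.trans htt', ht'q.trans hq.2⟩
      set Δ := t' - t with hΔ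
      have hΔ0 : 0 ≤ Δ := by linarith
      have hd1 : Δ ≤ δ₁ := hd.trans (min_le_left _ _)
      have hd2 : Δ ≤ ε / (B + 1) := hd.trans (min_le_right _ _)
      set I := ∫ s in t..t', ζ s with hI
      have hsub : Icc t t' ⊆ Icc (0:ℝ) 1 := Icc_subset_Icc mt.1 mt'.2
      have hI0 : 0 ≤ I := intervalIntegral.integral_nonneg htt' (fun s hs => (hζ01 s (hsub hs)).1)
      set c := 2 * B * Δ with hc
      have hc0 : 0 ≤ c := by positivity
      have b0t : 0 ≤ 2 * B * t := by positivity
      have bqt : 0 ≤ 2 * B * (q - t') := by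
        have : 0 ≤ q - t' := by linarith
        positivity
      have bp2 : ExpBdd (fun x => P (2 * B * (q - t)) Real.tanh x ^ 2) :=
        (expBdd_tanh.P _).pow 2
      refine ⟨fun x => P c R x - B * I * P (2 * B * (q - t)) Real.tanh x ^ 2,
        (hR.P c).sub (bp2.const_mul _), ?_, ?_⟩
      · -- the mean of the remainder
        have e1 : P (2 * B * t) (fun x => P c R x - B * I * P (2 * B * (q - t)) Real.tanh x ^ 2) h
            = P (2 * B * t') R h -
              B * I * P (2 * B * t) (fun x => P (2 * B * (q - t)) Real.tanh x ^ 2) h := by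
          rw [P_sub (hR.P c) (bp2.const_mul _), P_const_mul]
          have e2 : P (2 * B * t) (fun x => P c R x) h = P (2 * B * t') R h := by
            have : (fun x => P c R x) = P c R := rfl
            rw [this, P_P hR b0t hc0]
            have e3 : 2 * B * t + c = 2 * B * t' := by rw [hc, hΔ]; ring
            rw [e3]
          rw [e2]
        rw [e1]
        have h3 := hψ' t ⟨h0t, htt'.trans ht'q⟩
        have mq : q ∈ Icc (0:ℝ) 1 := hq
        have i1 : IntervalIntegrable (fun s => ζ s * s) volume t t' :=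
          (hIζ t mt t' mt').mul_continuousOn continuousOn_id
        have i2 : IntervalIntegrable (fun s => ζ s * s) volume t' q :=
          (hIζ t' mt' q mq).mul_continuousOn continuousOn_id
        rw [← intervalIntegral.integral_add_adjacent_intervals i1 i2]
        have h4 : ∫ s in t..t', ζ s * s ≤ I * t + Δ * Δ := by
          have i3 : IntervalIntegrable (fun s => ζ s * t + Δ) volume t t' :=
            ((hIζ t mt t' mt').mul_const t).add intervalIntegrable_const
          have e3 : ∫ s in t..t', (ζ s * t + Δ) = I * t + Δ * Δ := by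
            rw [intervalIntegral.integral_add ((hIζ t mt t' mt').mul_const t)
              intervalIntegrable_const, intervalIntegral.integral_mul_const,
              intervalIntegral.integral_const]
            simp [hΔ, hI]
          rw [← e3]
          refine intervalIntegral.integral_mono_on htt' i1 i3 (fun s hs => ?_)
          have z1 := (hζ01 s (hsub hs)).1
          have z2 := (hζ01 s (hsub hs)).2
          have z3 := hs.1
          have z4 := hs.2
          have z5 : ζ s * (s - t) ≤ 1 * Δ :=
            mul_le_mul z2 (by rw [hΔ]; linarith) (by linarith) zero_le_one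
          linarith
        have h5 : I * t ≤ I * P (2 * B * t) (fun x => P (2 * B * (q - t)) Real.tanh x ^ 2) h :=
          mul_le_mul_of_nonneg_left h3 hI0
        have h6 : B * (∫ s in t..t', ζ s * s) ≤
            B * I * P (2 * B * t) (fun x => P (2 * B * (q - t)) Real.tanh x ^ 2) h
              + B * (Δ * Δ) := by
          rw [mul_assoc, ← mul_add]
          refine mul_le_mul_of_nonneg_left (h4.trans ?_) hB0
          linarith
        have h7 : B * (Δ * Δ) ≤ ε * Δ := by
          have : B * Δ ≤ ε := by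
            calc B * Δ ≤ (B + 1) * Δ := by nlinarith
              _ ≤ (B + 1) * (ε / (B + 1)) := by gcongr
              _ = ε := by field_simp
          calc B * (Δ * Δ) = B * Δ * Δ := by ring
            _ ≤ ε * Δ := by gcongr
        linarith
      · -- the pointwise lower bound
        intro x y
        set l := P (2 * B * (q - t)) Real.tanh x with hl
        have hv : |l| ≤ 1 := by
          have k1 := P_mono expBdd_tanh (ExpBdd.const 1)
            (fun y => (abs_le.1 (abs_tanh_le_one y)).2) (2 * B * (q - t)) x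
          have k2 := P_mono (ExpBdd.const (-1)) expBdd_tanh
            (fun y => (abs_le.1 (abs_tanh_le_one y)).1) (2 * B * (q - t)) x
          rw [P_const] at k1 k2
          exact abs_le.2 ⟨k2, k1⟩
        have g := (abs_le.1 (hctrl t mt t' mt' htt' hd1 y l hv)).1
        rw [← hI, ← hΔ, ← hc] at g
        set y' := y + 2 * B * l * I with hy'
        have bf := hf.expBdd mt'
        set gg := P (2 * B * (q - t')) lc with hgg
        set pp := P (2 * B * (q - t')) Real.tanh with hpp
        have bgg : ExpBdd gg := expBdd_lc.P _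
        have bpp : ExpBdd pp := expBdd_tanh.P _
        have j1 := (bgg.integrable_comp x (√c))
        have j2 := (bpp.integrable_comp x (√c))
        have j3 := (hR.integrable_comp x (√c))
        have j4 := (bf.integrable_comp y' (√c))
        have j5 : Integrable (fun z => gg (x + √c * z) + B * (1 - q)) gam :=
          j1.add (integrable_const _)
        have j6 : Integrable (fun z => gg (x + √c * z) + B * (1 - q)
            + pp (x + √c * z) * (y' - x)) gam := j5.add (j2.mul_const _)
        have j7 : Integrable (fun z => gg (x + √c * z) + B * (1 - q)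
            + pp (x + √c * z) * (y' - x) - R (x + √c * z)) gam := j6.sub j3
        have e1 : P c gg x + B * (1 - q) + P c pp x * (y' - x) - P c R x - e
            = ∫ z, (gg (x + √c * z) + B * (1 - q)
              + pp (x + √c * z) * (y' - x) - R (x + √c * z) - e) ∂gam := by
          rw [integral_sub j7 (integrable_const _), integral_sub j6 j3,
            integral_add j5 (j2.mul_const _), integral_add j1 (integrable_const _),
            integral_mul_const (y' - x) (fun z => pp (x + √c * z))]
          simp only [integral_const, P, probReal_univ, one_smul]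
        have hlow : P c gg x + B * (1 - q) + P c pp x * (y' - x) - P c R x - e
            ≤ P c (f t') y' := by
          rw [e1]
          unfold P
          refine integral_mono (j7.sub (integrable_const _)) j4 (fun z => ?_)
          have := hRf (x + √c * z) (y' + √c * z)
          have e2 : y' + √c * z - (x + √c * z) = y' - x := by ring
          rw [e2] at this
          exact this
        have esum : c + 2 * B * (q - t') = 2 * B * (q - t) := by rw [hc, hΔ]; ring
        have e3 : P c gg x = P (2 * B * (q - t)) lc x := by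
          rw [hgg, P_P expBdd_lc hc0 bqt, esum]
        have e4 : P c pp x = l := by
          rw [hpp, P_P expBdd_tanh hc0 bqt, esum]
        rw [e3, e4] at hlow
        have h8 : 0 ≤ B * I * (deriv (f t') y - l) ^ 2 := by positivity
        have e7 : l * (y' - x) = l * (y - x) + 2 * B * I * l ^ 2 := by rw [hy']; ring
        rw [e7] at hlow
        nlinarith [g, hlow, h8]
  by_contra hcon
  push Not at hcon
  have := key ((P (2 * β ^ 2 * q) lc h + β ^ 2 * (1 - q)
      - β ^ 2 * (∫ s in q..1, (1 - ζ s) * s)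
      + β ^ 2 * (∫ s in (0:ℝ)..q, ζ s * s) - f 0 h) / 4) (by linarith)
  linarith

end

end Pool.Agent.ATLine
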