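import Mathlib
import Pool.Agent.Lib.ATLine.Analytic
import Pool.Agent.Lib.ATLine.Lower
import Pool.Agent.Lib.ATLine.Exist

/-!
# Point masses, and the optimality of the replica symmetric solution
-/

open MeasureTheory ProbabilityTheory Filter Topology Set

namespace Pool.Agent.ATLine

lemma E_one_lc {s : ℝ} (hs : 0 ≤ s) (x : ℝ) : E 1 s lc x = lc x + s / 2 := by
  unfold E
  rw [if_neg one_ne_zero]
  have e : (fun y => Real.exp (1 * lc y)) = Real.cosh := by
    funext y
    rw [one_mul, lc, Real.exp_log (Real.cosh_pos y)]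
  rw [e, P_cosh hs, Real.log_mul (Real.exp_pos _).ne' (Real.cosh_pos x).ne', Real.log_exp]
  unfold lc
  ring

lemma E_zero_eq (s : ℝ) (F : ℝ → ℝ) (x : ℝ) : E 0 s F x = P s F x := by
  unfold E
  rw [if_pos rfl]

lemma cdf_dirac (q t : ℝ) : cdf (Measure.dirac q) t = if q ≤ t then 1 else 0 := by
  rw [cdf_eq_real, measureReal_def, Measure.dirac_apply' _ measurableSet_Iic]
  by_cases h : q ≤ t
  · rw [if_pos h, indicator_of_mem (by exact h)]
    simp
  · rw [if_neg h, indicator_of_notMem (by exact h)]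
    simp

lemma cdf_intervalIntegrable (μ : Measure ℝ) (a b : ℝ) :
    IntervalIntegrable (cdf μ) volume a b :=
  (monotone_cdf μ).intervalIntegrable

lemma cdf_bounds (μ : Measure ℝ) [IsProbabilityMeasure μ] :
    ∀ s ∈ Icc (0:ℝ) 1, 0 ≤ cdf μ s ∧ cdf μ s ≤ 1 := fun s _ => ⟨cdf_nonneg μ s, cdf_le_one μ s⟩

/-- the solution of the Parisi equation for a point mass -/
theorem point_solution (β : ℝ) {q : ℝ} (hq : q ∈ Icc (0:ℝ) 1) :
    ∃ f, IsParisiSolution β (cdf (Measure.dirac q)) f ∧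
      ∀ h, f 0 h = P (2 * β ^ 2 * q) lc h + β ^ 2 * (1 - q) := by
  have hB : 0 ≤ β ^ 2 := sq_nonneg β
  obtain ⟨C1, g1, g2, g3, s2⟩ := (solOn_one (β ^ 2) (fun _ => 1)).step hB (le_refl 1) (a' := q)
    (m := 1) hq.2 zero_le_one (le_refl 1)
  obtain ⟨C2, k1, k2, k3, s3⟩ := s2.step hB hq.2 (a' := 0) (m := 0) hq.1 (le_refl 0) zero_le_one
  refine ⟨_, s3.isParisiSolution.congr_ae ?_, ?_⟩
  · have : ∀ᵐ s : ℝ, s ≠ q := by
      rw [ae_iff]
      simp
    filter_upwards [this] with s hs _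
    rw [cdf_dirac]
    by_cases h1 : s ≤ q
    · have h2 : ¬ q ≤ s := fun h => hs (le_antisymm h1 h)
      simp [h1, h2]
    · have h2 : q ≤ s := (not_le.1 h1).le
      simp [h1, h2]
  · intro h
    simp only [if_pos hq.1, if_pos hq.2, E_zero_eq, sub_zero]
    have e : (fun x => E 1 (2 * β ^ 2 * (1 - q)) lc x) = fun x => lc x + β ^ 2 * (1 - q) := by
      funext x
      rw [E_one_lc (by have := hq.2; have : 0 ≤ 1 - q := by linarith
                       positivity)]
      ring
    have e' : E 1 (2 * β ^ 2 * (1 - q)) lc = fun x => lc x + β ^ 2 * (1 - q) := e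
    rw [e', P_add expBdd_lc (ExpBdd.const _), P_const]

lemma integral_dirac_cdf {q : ℝ} (hq : q ∈ Icc (0:ℝ) 1) :
    ∫ t in (0:ℝ)..1, cdf (Measure.dirac q) t * t = (1 - q ^ 2) / 2 := by
  have i1 : ∀ a b : ℝ, IntervalIntegrable (fun t => cdf (Measure.dirac q) t * t) volume a b :=
    fun a b => (cdf_intervalIntegrable _ a b).mul_continuousOn continuousOn_id
  rw [← intervalIntegral.integral_add_adjacent_intervals (i1 0 q) (i1 q 1)]
  have e1 : ∫ t in (0:ℝ)..q, cdf (Measure.dirac q) t * t = 0 := by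
    have e0 : ∫ t in (0:ℝ)..q, (0:ℝ) = 0 := by simp
    have : ∀ᵐ s : ℝ, s ≠ q := by
      rw [ae_iff]
      simp
    refine (intervalIntegral.integral_congr_ae ?_).trans e0
    filter_upwards [this] with s hs hs'
    rw [uIoc_of_le hq.1] at hs'
    have h2 : ¬ q ≤ s := fun h => hs (le_antisymm hs'.2 h)
    rw [cdf_dirac, if_neg h2, zero_mul]
  have e2 : ∫ t in q..1, cdf (Measure.dirac q) t * t = ∫ t in q..1, t := by
    refine intervalIntegral.integral_congr (fun s hs => ?_)
    rw [uIcc_of_le hq.2] at hs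
    rw [cdf_dirac, if_pos hs.1, one_mul]
  rw [e1, e2, integral_id]
  ring

/-- the value of the Parisi functional at a point mass -/
lemma parisiValue_dirac {β q : ℝ} (hq : q ∈ Icc (0:ℝ) 1) {f : ℝ → ℝ → ℝ}
    (hf : IsParisiSolution β (cdf (Measure.dirac q)) f) (h : ℝ) :
    parisiValue β h (cdf (Measure.dirac q)) f =
      Real.log 2 + P (2 * β ^ 2 * q) lc h + β ^ 2 * (1 - q) ^ 2 / 2 := by
  obtain ⟨g, hg, hg0⟩ := point_solution β hq
  have := hf.unique hg (cdf_intervalIntegrable _ 0 1) (cdf_bounds _) (t := 0)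
    ⟨le_refl _, zero_le_one⟩ h
  unfold parisiValue
  rw [this, hg0, integral_dirac_cdf hq]
  ring

/-- a criterion for the optimality of a point mass -/
theorem isOptimal_dirac {β h q : ℝ} (hq : q ∈ Icc (0:ℝ) 1)
    (hψ : ∀ t ∈ Icc q 1, P (2 * β ^ 2 * q)
      (T (2 * β ^ 2 * (t - q)) (fun y => Real.tanh y ^ 2)) h ≤ t)
    (hψ' : ∀ t ∈ Icc 0 q, t ≤ P (2 * β ^ 2 * t)
      (fun x => P (2 * β ^ 2 * (q - t)) Real.tanh x ^ 2) h) :
    IsOptimal β h (Measure.dirac q) := by
  refine ⟨⟨inferInstance, ?_⟩, ?_⟩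
  · rw [Measure.dirac_apply' _ measurableSet_Icc, indicator_of_mem hq]
    rfl
  · obtain ⟨f, hf, _⟩ := point_solution β hq
    refine ⟨f, hf, fun ν g hν _ hg => ?_⟩
    rw [parisiValue_dirac hq hf]
    have hlow := lower_bound hg (cdf_intervalIntegrable ν 0 1) (cdf_bounds ν) hq hψ hψ'
    unfold parisiValue
    have i1 : ∀ a b : ℝ, IntervalIntegrable (fun t => cdf ν t * t) volume a b :=
      fun a b => (cdf_intervalIntegrable _ a b).mul_continuousOn continuousOn_id
    have e1 : ∫ s in q..1, (1 - cdf ν s) * s = (1 - q ^ 2) / 2 - ∫ s in q..1, cdf ν s * s := by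
      have e2 : (fun s : ℝ => (1 - cdf ν s) * s) = fun s => s - cdf ν s * s := by
        funext s; ring
      have i2 : IntervalIntegrable (fun s : ℝ => s) volume q 1 :=
        continuous_id.intervalIntegrable _ _
      rw [e2, intervalIntegral.integral_sub i2 (i1 q 1)]
      rw [integral_id]
      ring
    rw [e1] at hlow
    rw [← intervalIntegral.integral_add_adjacent_intervals (i1 0 q) (i1 q 1)]
    nlinarith [hlow]

/-- the dAT inequality at a fixed point implies optimality of the point mass -/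
theorem optimal_of_dAT {β h q : ℝ} (hβ : 0 < β) (hq : q ∈ Icc (0:ℝ) 1)
    (hfix : q = P (2 * β ^ 2 * q) (fun y => Real.tanh y ^ 2) h)
    (hdAT : β ^ 2 * P (2 * β ^ 2 * q) (fun y => sc y ^ 4) h ≤ 1 / 2) :
    IsOptimal β h (Measure.dirac q) := by
  set B := β ^ 2 with hB
  have hB0 : 0 < B := by positivity
  set κ := 1 / (2 * B) with hκ
  have hκ0 : 0 < κ := by positivity
  have hcrit : P (2 * B * q) (fun y => sc y ^ 4) h ≤ κ := by
    rw [hκ, le_div_iff₀ (by positivity)]
    linarith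
  have hall : ∀ τ, 0 < τ → P (2 * B * q) (T τ (fun y => sc y ^ 4)) h ≤ κ := by
    intro τ hτ
    rcases eq_or_lt_of_le hq.1 with h0 | h0
    · -- q = 0
      rw [← h0, mul_zero, P_zero] at hfix
      have ht : Real.tanh h = 0 := by
        have := hfix.symm
        exact pow_eq_zero_iff (two_ne_zero) |>.1 this
      have hs1 : sc h ^ 4 = 1 := by
        have := sc_sq h
        rw [ht] at this
        have e : sc h ^ 4 = (sc h ^ 2) ^ 2 := by ring
        rw [e, this]
        norm_num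
      rw [← h0, mul_zero, P_zero] at hcrit
      rw [hs1] at hcrit
      rw [← h0, mul_zero, P_zero]
      exact (T_sc_four_bounds hτ.le h).2.trans hcrit
    · have hv : 0 < 2 * B * q := by positivity
      refine mean_sc_four_le hv ?_ hcrit hτ.le
      rw [← hfix, hκ]
      field_simp
  refine isOptimal_dirac hq ?_ ?_
  · intro t ht
    rw [← hB]
    have h1 := mean_tanh_sq_le hall (τ := 2 * B * (t - q))
      (by have := ht.1; have : 0 ≤ t - q := by linarith
          positivity)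
    rw [← hfix] at h1
    have e : κ * (2 * B * (t - q)) = t - q := by
      rw [hκ]; field_simp
    linarith
  · intro t ht
    rw [← hB]
    have h1 := mean_sq_ge (s := 2 * B * t) (v := 2 * B * q)
      (by have := ht.1; positivity) (by have := ht.2; gcongr) h
    rw [← hfix] at h1
    have e : 2 * B * q - 2 * B * t = 2 * B * (q - t) := by ring
    rw [e] at h1
    have h2 : 2 * B * (q - t) * P (2 * B * q) (fun y => sc y ^ 4) h ≤ q - t := by
      have h3 : 0 ≤ q - t := by linarith [ht.2]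
      calc _ ≤ 2 * B * (q - t) * κ := by gcongr
        _ = q - t := by rw [hκ]; field_simp
    linarith

lemma gaussE_eq {β : ℝ} (hβ : 0 < β) (q h : ℝ) (φ : ℝ → ℝ) :
    gaussE (fun z => φ (β * z * √(2 * q) + h)) = P (2 * β ^ 2 * q) φ h := by
  unfold gaussE P
  have e : √(2 * β ^ 2 * q) = β * √(2 * q) := by
    have : 2 * β ^ 2 * q = β ^ 2 * (2 * q) := by ring
    rw [this, Real.sqrt_mul (sq_nonneg β), Real.sqrt_sq hβ.le]
  rw [e]
  refine integral_congr_ae (ae_of_all _ fun z => ?_)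
  simp only
  congr 1
  ring

lemma gaussE_tanh {β : ℝ} (hβ : 0 < β) (q h : ℝ) :
    gaussE (fun z => Real.tanh (β * z * √(2 * q) + h) ^ 2) =
      P (2 * β ^ 2 * q) (fun y => Real.tanh y ^ 2) h :=
  gaussE_eq hβ q h (fun y => Real.tanh y ^ 2)

lemma gaussE_cosh {β : ℝ} (hβ : 0 < β) (q h : ℝ) :
    gaussE (fun z => (Real.cosh (β * z * √(2 * q) + h) ^ 4)⁻¹) =
      P (2 * β ^ 2 * q) (fun y => sc y ^ 4) h := by
  rw [gaussE_eq hβ q h (fun y => (Real.cosh y ^ 4)⁻¹)]
  have : (fun y => (Real.cosh y ^ 4)⁻¹) = fun y => sc y ^ 4 := by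
    funext y
    rw [sc, inv_pow]
  rw [this]

/-- the de Almeida-Thouless condition implies high temperature behaviour -/
theorem optimalPoint_of_dAT {β h : ℝ} (hβ : 0 < β) (H : DATCondition β h) :
    OptimalPoint β h := by
  obtain ⟨q, ⟨⟨hq, hfix⟩, _⟩, hcrit⟩ := H
  rw [gaussE_tanh hβ] at hfix
  rw [gaussE_cosh hβ] at hcrit
  exact ⟨q, hq, optimal_of_dAT hβ hq hfix hcrit⟩

end Pool.Agent.ATLine
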