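import Mathlib
import Pool.Agent.Lib.ATLine.Point
import Pool.Agent.Lib.ATLine.Latala

/-!
# High temperature behaviour implies the dAT condition
-/

open MeasureTheory ProbabilityTheory Filter Topology Set Real

namespace Pool.Agent.ATLine

/-! ### Minimality among point masses -/

lemma P_tanh_sq_lt_one (s h : ℝ) : P s (fun y => tanh y ^ 2) h < 1 := by
  have h1 := P_pos (expBdd_sc_pow 2) (fun y => pow_pos (sc_pos y) 2) s h
  have e : (fun y => sc y ^ 2) = fun y => 1 - tanh y ^ 2 := by
    funext y; exact sc_sq y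
  rw [e, P_sub (ExpBdd.const 1) (expBdd_tanh.pow 2), P_const] at h1
  linarith

/-- the replica symmetric functional -/
noncomputable def rs (β h q : ℝ) : ℝ :=
  P (2 * β ^ 2 * q) lc h + β ^ 2 * (1 - q) ^ 2 / 2

lemma continuous_rs (β h : ℝ) : Continuous (rs β h) := by
  unfold rs
  have h1 := (continuous_P_s expBdd_lc h).comp (by fun_prop : Continuous (fun q => 2 * β ^ 2 * q))
  exact h1.add (by fun_prop)

lemma hasDerivAt_rs {β : ℝ} (hβ : 0 < β) (h : ℝ) {q : ℝ} (hq : 0 < q) :
    HasDerivAt (rs β h) (β ^ 2 * (q - P (2 * β ^ 2 * q) (fun y => tanh y ^ 2) h)) q := by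
  unfold rs
  have h1 := hasDerivAt_P_s expBdd_lc expBdd_tanh (expBdd_sc_pow 2) hasDerivAt_lc hasDerivAt_tanh h
    (s := 2 * β ^ 2 * q) (by positivity)
  have h2 : HasDerivAt (fun q : ℝ => 2 * β ^ 2 * q) (2 * β ^ 2) q := by
    simpa using (hasDerivAt_id q).const_mul (2 * β ^ 2)
  have h3 := h1.comp q h2
  have h4 : HasDerivAt (fun q : ℝ => β ^ 2 * (1 - q) ^ 2 / 2) (-(β ^ 2 * (1 - q))) q := by
    have := ((((hasDerivAt_id q).const_sub 1).pow 2).const_mul (β ^ 2)).div_const 2
    refine this.congr_deriv ?_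
    simp only [id, Nat.cast_ofNat, Nat.add_one_sub_one, pow_one]
    ring
  have h5 := h3.add h4
  refine h5.congr_deriv ?_
  have e : (fun y => sc y ^ 2) = fun y => 1 - tanh y ^ 2 := by
    funext y; exact sc_sq y
  rw [e, P_sub (ExpBdd.const 1) (expBdd_tanh.pow 2), P_const]
  ring

/-- a minimiser of the replica symmetric functional solves the fixed point equation -/
lemma fixed_of_min {β h q : ℝ} (hβ : 0 < β) (hq : q ∈ Icc (0:ℝ) 1)
    (hmin : ∀ q' ∈ Icc (0:ℝ) 1, rs β h q ≤ rs β h q') :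
    q = P (2 * β ^ 2 * q) (fun y => tanh y ^ 2) h := by
  have hB : 0 < β ^ 2 := by positivity
  have bt2 : ExpBdd (fun y => tanh y ^ 2) := expBdd_tanh.pow 2
  set D : ℝ → ℝ := fun q => q - P (2 * β ^ 2 * q) (fun y => tanh y ^ 2) h with hD
  have hDc : Continuous D := continuous_id.sub
    ((continuous_P_s bt2 h).comp (by fun_prop : Continuous (fun q => 2 * β ^ 2 * q)))
  have hlt := P_tanh_sq_lt_one (2 * β ^ 2 * q) h
  have hge : 0 ≤ P (2 * β ^ 2 * q) (fun y => tanh y ^ 2) h := P_nonneg (fun y => sq_nonneg _) _ _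
  rcases lt_trichotomy (D q) 0 with hneg | h0 | hpos
  · exfalso
    have hq1 : q < 1 := by
      simp only [hD] at hneg
      linarith
    have hev : ∀ᶠ u in 𝓝 q, D u < 0 := hDc.continuousAt.eventually_lt_const hneg
    rw [Metric.eventually_nhds_iff] at hev
    obtain ⟨η, hη, hev⟩ := hev
    set q' := min (q + η / 2) 1 with hq'
    have h1 : q < q' := lt_min (by linarith) hq1
    have h2 : q' ≤ q + η / 2 := min_le_left _ _
    have hanti : StrictAntiOn (rs β h) (Icc q q') := by
      refine strictAntiOn_of_deriv_neg (convex_Icc _ _) (continuous_rs β h).continuousOn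
        (fun u hu => ?_)
      rw [interior_Icc] at hu
      rw [(hasDerivAt_rs hβ h (lt_of_le_of_lt hq.1 hu.1)).deriv]
      have h3 : D u < 0 := hev (by
        rw [Real.dist_eq, abs_of_pos (by linarith [hu.1])]
        linarith [hu.2])
      have h4 : β ^ 2 * D u < 0 := mul_neg_of_pos_of_neg hB h3
      exact h4
    have h5 := hanti ⟨le_refl _, h1.le⟩ ⟨h1.le, le_refl _⟩ h1
    have h6 := hmin q' ⟨hq.1.trans h1.le, min_le_right _ _⟩
    linarith
  · simp only [hD] at h0
    linarith
  · exfalso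
    have hq0 : 0 < q := by
      simp only [hD] at hpos
      linarith
    have hev : ∀ᶠ u in 𝓝 q, 0 < D u := hDc.continuousAt.eventually_const_lt hpos
    rw [Metric.eventually_nhds_iff] at hev
    obtain ⟨η, hη, hev⟩ := hev
    set q' := max (q - η / 2) 0 with hq'
    have h1 : q' < q := max_lt (by linarith) hq0
    have h2 : q - η / 2 ≤ q' := le_max_left _ _
    have h0' : 0 ≤ q' := le_max_right _ _
    have hmono : StrictMonoOn (rs β h) (Icc q' q) := by
      refine strictMonoOn_of_deriv_pos (convex_Icc _ _) (continuous_rs β h).continuousOn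
        (fun u hu => ?_)
      rw [interior_Icc] at hu
      rw [(hasDerivAt_rs hβ h (lt_of_le_of_lt h0' hu.1)).deriv]
      have h3 : 0 < D u := hev (by
        rw [Real.dist_eq, abs_of_neg (by linarith [hu.2])]
        linarith [hu.1])
      have h4 : 0 < β ^ 2 * D u := mul_pos hB h3
      exact h4
    have h5 := hmono ⟨le_refl _, h1.le⟩ ⟨h1.le, le_refl _⟩ h1
    have h6 := hmin q' ⟨h0', h1.le.trans hq.2⟩
    linarith

/-! ### The tilted flow of `log cosh` -/

lemma expBdd_lc_cosh : ExpBdd (fun y => lc y * cosh y) := expBdd_lc.mul ExpBdd.cosh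

lemma hasDerivAt_T_lc (x : ℝ) {τ : ℝ} (hτ : 0 < τ) :
    HasDerivAt (fun τ => T τ lc x) (1 / 2 + 1 / 2 * T τ (fun y => tanh y ^ 2) x) τ := by
  have bt2 : ExpBdd (fun y => tanh y ^ 2) := expBdd_tanh.pow 2
  have b' : ExpBdd (fun y => sinh y + lc y * sinh y) := ExpBdd.sinh.add (expBdd_lc.mul ExpBdd.sinh)
  have b'' : ExpBdd (fun y => (1 + tanh y ^ 2 + lc y) * cosh y) :=
    (((ExpBdd.const 1).add bt2).add expBdd_lc).mul ExpBdd.cosh
  have d1 : ∀ y, HasDerivAt (fun y => lc y * cosh y) (sinh y + lc y * sinh y) y := by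
    intro y
    have := (hasDerivAt_lc y).mul (hasDerivAt_cosh y)
    refine this.congr_deriv ?_
    have : tanh y * cosh y = sinh y := by
      rw [tanh_eq_sc, mul_assoc, sc_mul_cosh, mul_one]
    rw [this]
  have d2 : ∀ y, HasDerivAt (fun y => sinh y + lc y * sinh y)
      ((1 + tanh y ^ 2 + lc y) * cosh y) y := by
    intro y
    have := (hasDerivAt_sinh y).add ((hasDerivAt_lc y).mul (hasDerivAt_sinh y))
    refine this.congr_deriv ?_
    have : tanh y * sinh y = tanh y ^ 2 * cosh y := by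
      have : sinh y = tanh y * cosh y := by
        rw [tanh_eq_sc, mul_assoc, sc_mul_cosh, mul_one]
      nth_rewrite 1 [this]
      ring
    rw [this]
    ring
  have h1 := hasDerivAt_P_s expBdd_lc_cosh b' b'' d1 d2 x hτ
  have h2 : HasDerivAt (fun τ : ℝ => exp (-τ / 2)) (exp (-τ / 2) * (-1 / 2)) τ := by
    have := ((hasDerivAt_id τ).neg.div_const 2).exp
    simpa using this
  have h3 := (h2.mul h1).mul_const (sc x)
  refine h3.congr_deriv ?_
  have e : P τ (fun y => (1 + tanh y ^ 2 + lc y) * cosh y) x =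
      P τ (fun y => (1 + tanh y ^ 2) * cosh y) x + P τ (fun y => lc y * cosh y) x := by
    rw [← P_add (((ExpBdd.const 1).add bt2).mul ExpBdd.cosh) expBdd_lc_cosh]
    congr 1
    funext y; ring
  rw [e]
  have e2 : T τ (fun y => 1 + tanh y ^ 2) x = 1 + T τ (fun y => tanh y ^ 2) x := by
    rw [T_add (ExpBdd.const 1) bt2, T_one hτ.le]
  have e3 : 1 / 2 + 1 / 2 * T τ (fun y => tanh y ^ 2) x =
      1 / 2 * T τ (fun y => 1 + tanh y ^ 2) x := by rw [e2]; ring
  rw [e3]
  unfold T
  ring

lemma T_tanh_sq_bounds {τ : ℝ} (hτ : 0 ≤ τ) (x : ℝ) :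
    0 ≤ T τ (fun y => tanh y ^ 2) x ∧ T τ (fun y => tanh y ^ 2) x ≤ 1 := by
  refine ⟨T_nonneg (fun y => sq_nonneg _) _ _, ?_⟩
  have := T_mono (expBdd_tanh.pow 2) (ExpBdd.const 1) (fun y => tanh_sq_le_one y) τ x
  rwa [T_one hτ] at this

/-- the mean of `log cosh` along the tilted flow -/
lemma hasDerivAt_mean_lc (v h : ℝ) {τ : ℝ} (hτ : 0 < τ) :
    HasDerivAt (fun τ => P v (T τ lc) h)
      (1 / 2 + 1 / 2 * P v (T τ (fun y => tanh y ^ 2)) h) τ := by
  have bt2 : ExpBdd (fun y => tanh y ^ 2) := expBdd_tanh.pow 2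
  have := hasDerivAt_integral_of_dominated_loc_of_deriv_le (μ := gam)
    (F := fun τ z => T τ lc (h + √v * z))
    (F' := fun τ z => 1 / 2 + 1 / 2 * T τ (fun y => tanh y ^ 2) (h + √v * z)) (x₀ := τ)
    (s := Metric.ball τ τ) (bound := fun _ => 1) (Metric.ball_mem_nhds τ hτ)
    (Eventually.of_forall fun r => ((expBdd_lc.T r).integrable_comp h (√v)).aestronglyMeasurable)
    ((expBdd_lc.T τ).integrable_comp h (√v))
    (((ExpBdd.const (1/2)).add ((bt2.T τ).const_mul (1 / 2))).integrable_comp h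
      (√v)).aestronglyMeasurable ?_ (integrable_const _) ?_
  · refine this.2.congr_deriv ?_
    have e : ∫ z, (1 / 2 + 1 / 2 * T τ (fun y => tanh y ^ 2) (h + √v * z)) ∂gam =
        P v (fun x => 1 / 2 + 1 / 2 * T τ (fun y => tanh y ^ 2) x) h := rfl
    rw [e, P_add (ExpBdd.const _) ((bt2.T τ).const_mul _), P_const, P_const_mul]
  · refine ae_of_all _ fun z r hr => ?_
    rw [Metric.mem_ball, Real.dist_eq] at hr
    have hr0 : 0 < r := by
      have := (abs_lt.1 hr).1
      linarith
    have := T_tanh_sq_bounds hr0.le (h + √v * z)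
    rw [Real.norm_eq_abs, abs_of_nonneg (by linarith [this.1])]
    linarith [this.2]
  · refine ae_of_all _ fun z r hr => ?_
    rw [Metric.mem_ball, Real.dist_eq] at hr
    have hr0 : 0 < r := by
      have := (abs_lt.1 hr).1
      linarith
    exact hasDerivAt_T_lc (h + √v * z) hr0

lemma T_lc_le {τ : ℝ} (hτ : 0 ≤ τ) (x : ℝ) : T τ lc x ≤ lc x + τ := by
  have hmono : MonotoneOn (fun τ => lc x + τ - T τ lc x) (Ici 0) := by
    have hd : ∀ u, 0 < u → HasDerivAt (fun τ => lc x + τ - T τ lc x)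
        (1 - (1 / 2 + 1 / 2 * T u (fun y => tanh y ^ 2) x)) u := fun u hu =>
      ((hasDerivAt_id u).const_add (lc x)).sub (hasDerivAt_T_lc x hu)
    refine monotoneOn_of_deriv_nonneg (convex_Ici 0) ?_ ?_ ?_
    · exact ((continuous_const.add continuous_id).sub
        (continuous_T_s expBdd_lc x)).continuousOn
    · intro u hu
      rw [interior_Ici] at hu
      exact (hd u hu).differentiableAt.differentiableWithinAt
    · intro u hu
      rw [interior_Ici] at hu
      rw [(hd u hu).deriv]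
      have hu' : (0:ℝ) < u := hu
      have := (T_tanh_sq_bounds hu'.le x).2
      linarith
  have := hmono (show (0:ℝ) ∈ Ici 0 from self_mem_Ici) (show τ ∈ Ici (0:ℝ) from hτ) hτ
  simp only [T_zero] at this
  linarith

lemma continuousOn_mean_lc (v h S : ℝ) :
    ContinuousOn (fun τ => P v (T τ lc) h) (Icc 0 S) := by
  refine continuousOn_of_dominated (bound := fun z => lc (h + √v * z) + S)
    (F := fun τ z => T τ lc (h + √v * z)) ?_ ?_ ?_ ?_
  · intro τ _
    exact ((expBdd_lc.T τ).integrable_comp h (√v)).aestronglyMeasurable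
  · intro τ hτ
    refine ae_of_all _ fun z => ?_
    rw [Real.norm_eq_abs, abs_of_nonneg (T_nonneg lc_nonneg _ _)]
    have := T_lc_le hτ.1 (h + √v * z)
    linarith [hτ.2]
  · exact (expBdd_lc.integrable_comp h (√v)).add (integrable_const _)
  · refine ae_of_all _ fun z => ?_
    exact (continuous_T_s expBdd_lc (h + √v * z)).continuousOn

lemma continuousOn_mean_sc_four (v h : ℝ) :
    ContinuousOn (fun τ => P v (T τ (fun y => sc y ^ 4)) h) (Ici 0) := by
  have b4 := expBdd_sc_pow 4
  refine continuousOn_of_dominated (bound := fun _ => 1)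
    (F := fun τ z => T τ (fun y => sc y ^ 4) (h + √v * z)) ?_ ?_ (integrable_const _) ?_
  · intro τ _
    exact ((b4.T τ).integrable_comp h (√v)).aestronglyMeasurable
  · intro τ hτ
    refine ae_of_all _ fun z => ?_
    have := T_sc_four_bounds hτ (h + √v * z)
    rw [Real.norm_eq_abs, abs_of_nonneg this.1]
    exact this.2
  · refine ae_of_all _ fun z => ?_
    exact (continuous_T_s b4 (h + √v * z)).continuousOn

/-- second order lower bound of the mean of `log cosh` along the tilted flow -/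
lemma mean_lc_ge {v h κ' : ℝ} (hκ' : κ' < P v (fun y => sc y ^ 4) h) :
    ∃ τ₀ > 0, ∀ τ, 0 ≤ τ → τ ≤ τ₀ →
      P v lc h + τ / 2 + τ / 2 * P v (fun y => tanh y ^ 2) h + κ' * τ ^ 2 / 4 ≤
        P v (T τ lc) h := by
  have hT0 : ∀ φ : ℝ → ℝ, T 0 φ = φ := fun φ => by funext x; exact T_zero φ x
  have hc4 := continuousOn_mean_sc_four v h 0 self_mem_Ici
  have hev : ∀ᶠ τ in 𝓝[Ici 0] (0:ℝ), κ' < P v (T τ (fun y => sc y ^ 4)) h := by
    refine hc4.eventually_const_lt ?_
    simp only [hT0]
    exact hκ'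
  rw [eventually_nhdsWithin_iff, Metric.eventually_nhds_iff] at hev
  obtain ⟨η, hη, hev⟩ := hev
  have h4 : ∀ τ, 0 ≤ τ → τ ≤ η / 2 → κ' < P v (T τ (fun y => sc y ^ 4)) h := by
    intro τ h1 h2
    exact hev (by rw [Real.dist_eq, sub_zero, abs_of_nonneg h1]; linarith) h1
  set τ₀ := η / 2 with hτ₀
  have hτ₀pos : 0 < τ₀ := by positivity
  -- the mean of tanh²
  have h2 : ∀ τ, 0 ≤ τ → τ ≤ τ₀ →
      P v (fun y => tanh y ^ 2) h + κ' * τ ≤ P v (T τ (fun y => tanh y ^ 2)) h := by
    have hanti : AntitoneOn (fun τ => P v (T τ (fun y => sc y ^ 2)) h + κ' * τ) (Icc 0 τ₀) := by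
      have hd : ∀ τ, 0 < τ → HasDerivAt (fun τ => P v (T τ (fun y => sc y ^ 2)) h + κ' * τ)
          (-(P v (T τ (fun y => sc y ^ 4)) h) + κ' * 1) τ := fun τ hτ =>
        (hasDerivAt_mean_sc_sq v h hτ).add ((hasDerivAt_id τ).const_mul κ')
      refine antitoneOn_of_deriv_nonpos (convex_Icc _ _) ?_ ?_ ?_
      · exact ((continuousOn_mean_sc_sq v h).mono Icc_subset_Ici_self).add
          (continuous_const.mul continuous_id).continuousOn
      · intro τ hτ
        rw [interior_Icc] at hτ
        exact (hd τ hτ.1).differentiableAt.differentiableWithinAt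
      · intro τ hτ
        rw [interior_Icc] at hτ
        rw [(hd τ hτ.1).deriv]
        have := h4 τ hτ.1.le hτ.2.le
        linarith
    intro τ h0 h1
    have := hanti ⟨le_refl _, hτ₀pos.le⟩ ⟨h0, h1⟩ h0
    simp only [hT0, mul_zero, add_zero] at this
    have e1 := mean_tanh_sq_eq (v := v) (h := h) h0
    have e2 := mean_tanh_sq_eq (v := v) (h := h) (le_refl (0:ℝ))
    simp only [hT0] at e2
    rw [e1, e2]
    linarith
  refine ⟨τ₀, hτ₀pos, ?_⟩
  intro τ h0 h1
  set q := P v (fun y => tanh y ^ 2) h with hq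
  have hmono : MonotoneOn (fun τ => P v (T τ lc) h - (τ / 2 + τ / 2 * q + κ' * τ ^ 2 / 4))
      (Icc 0 τ₀) := by
    have hd : ∀ τ, 0 < τ → HasDerivAt
        (fun τ => P v (T τ lc) h - (τ / 2 + τ / 2 * q + κ' * τ ^ 2 / 4))
        (1 / 2 + 1 / 2 * P v (T τ (fun y => tanh y ^ 2)) h - (1 / 2 + 1 / 2 * q + κ' * τ / 2))
        τ := by
      intro τ hτ
      have j1 : HasDerivAt (fun τ : ℝ => τ / 2 + τ / 2 * q + κ' * τ ^ 2 / 4)
          (1 / 2 + 1 / 2 * q + κ' * τ / 2) τ := by
        have k1 := (hasDerivAt_id τ).div_const 2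
        have k2 := k1.mul_const q
        have k3 := (((hasDerivAt_id τ).pow 2).const_mul κ').div_const 4
        have := (k1.add k2).add k3
        refine this.congr_deriv ?_
        simp only [id, Nat.cast_ofNat, Nat.add_one_sub_one, pow_one]
        ring
      exact (hasDerivAt_mean_lc v h hτ).sub j1
    refine monotoneOn_of_deriv_nonneg (convex_Icc _ _) ?_ ?_ ?_
    · exact (continuousOn_mean_lc v h τ₀).sub (by fun_prop)
    · intro τ hτ
      rw [interior_Icc] at hτ
      exact (hd τ hτ.1).differentiableAt.differentiableWithinAt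
    · intro τ hτ
      rw [interior_Icc] at hτ
      rw [(hd τ hτ.1).deriv]
      have := h2 τ hτ.1.le hτ.2.le
      linarith
  have := hmono ⟨le_refl _, hτ₀pos.le⟩ ⟨h0, h1⟩ h0
  simp only [hT0] at this
  norm_num at this
  linarith

/-! ### The Cole-Hopf evolution with a parameter close to one -/

lemma exp_neg_le {u : ℝ} (hu : 0 ≤ u) : exp (-u) ≤ 1 - u + u ^ 2 / 2 := by
  have hmono : MonotoneOn (fun u : ℝ => 1 - u + u ^ 2 / 2 - exp (-u)) (Ici 0) := by
    have hd : ∀ u : ℝ, HasDerivAt (fun u : ℝ => 1 - u + u ^ 2 / 2 - exp (-u))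
        (-1 + u + exp (-u)) u := by
      intro u
      have h1 := ((hasDerivAt_id u).const_sub 1).add (((hasDerivAt_id u).pow 2).div_const 2)
      have h2 := ((hasDerivAt_id u).neg).exp
      have := h1.sub h2
      refine this.congr_deriv ?_
      simp only [id, Nat.cast_ofNat, Nat.add_one_sub_one, pow_one, Pi.neg_apply]
      ring
    refine monotoneOn_of_deriv_nonneg (convex_Ici 0) ?_ ?_ ?_
    · exact fun u _ => (hd u).continuousAt.continuousWithinAt
    · exact fun u _ => (hd u).differentiableAt.differentiableWithinAt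
    · intro u _
      rw [(hd u).deriv]
      have := add_one_le_exp (-u)
      linarith
  have := hmono (show (0:ℝ) ∈ Ici 0 from self_mem_Ici) (show u ∈ Ici (0:ℝ) from hu) hu
  simp only at this
  norm_num at this
  linarith

lemma E_lc_le {m s : ℝ} (hm0 : 0 < m) (hm1 : m ≤ 1) (hs : 0 ≤ s) (x : ℝ) :
    E m s lc x ≤ lc x + s / 2 + (1 - m) / m *
      (s / 2 + lc x - T s lc x + (1 - m) / 2 * T s (fun y => lc y ^ 2) x) := by
  set δ := 1 - m with hδ
  have hδ0 : 0 ≤ δ := by rw [hδ]; linarith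
  have bl2 : ExpBdd (fun y => lc y ^ 2) := expBdd_lc.pow 2
  have bE : ExpBdd (fun y => exp (-(δ * lc y))) := by
    refine ExpBdd.of_bounded (C := 1) ?_ (fun y => ?_)
    · have := continuous_lc
      fun_prop
    · rw [abs_exp]
      apply exp_le_one_iff.2
      have := mul_nonneg hδ0 (lc_nonneg y)
      linarith
  have e1 : (fun y => exp (m * lc y)) = fun y => exp (-(δ * lc y)) * cosh y := by
    funext y
    have : cosh y = exp (lc y) := by rw [lc, exp_log (cosh_pos y)]
    rw [this, ← exp_add]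
    congr 1
    rw [hδ]; ring
  have e2 : P s (fun y => exp (-(δ * lc y)) * cosh y) x =
      exp (s / 2) * cosh x * T s (fun y => exp (-(δ * lc y))) x := by
    unfold T
    have h1 : exp (s / 2) * exp (-s / 2) = 1 := by
      rw [← exp_add]; ring_nf; simp
    have h2 := sc_mul_cosh x
    calc _ = 1 * 1 * P s (fun y => exp (-(δ * lc y)) * cosh y) x := by ring
      _ = (exp (s / 2) * exp (-s / 2)) * (sc x * cosh x) *
          P s (fun y => exp (-(δ * lc y)) * cosh y) x := by rw [h1, h2]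
      _ = _ := by ring
  have hTpos : 0 < T s (fun y => exp (-(δ * lc y))) x := by
    unfold T
    have h1 := P_pos (bE.mul ExpBdd.cosh) (fun y => mul_pos (exp_pos _) (cosh_pos y)) s x
    have h2 := sc_pos x
    positivity
  have hT : T s (fun y => exp (-(δ * lc y))) x ≤ 1 - δ * T s lc x
      + δ ^ 2 / 2 * T s (fun y => lc y ^ 2) x := by
    have h1 := T_mono bE (((ExpBdd.const 1).sub (expBdd_lc.const_mul δ)).add
      (bl2.const_mul (δ ^ 2 / 2))) (fun y => by
        have := exp_neg_le (mul_nonneg hδ0 (lc_nonneg y))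
        refine this.trans (le_of_eq ?_)
        ring) s x
    rw [T_add ((ExpBdd.const 1).sub (expBdd_lc.const_mul δ)) (bl2.const_mul (δ ^ 2 / 2)),
      T_sub (ExpBdd.const 1) (expBdd_lc.const_mul δ), T_const_mul, T_const_mul, T_one hs] at h1
    exact h1
  have hE : E m s lc x = 1 / m * (s / 2 + lc x + log (T s (fun y => exp (-(δ * lc y))) x)) := by
    unfold E
    rw [if_neg hm0.ne', e1, e2, log_mul (by positivity) hTpos.ne',
      log_mul (exp_pos _).ne' (cosh_pos x).ne', log_exp]
    rfl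
  rw [hE]
  have hlog := log_le_sub_one_of_pos hTpos
  have h3 : s / 2 + lc x + log (T s (fun y => exp (-(δ * lc y))) x) ≤
      s / 2 + lc x - δ * T s lc x + δ ^ 2 / 2 * T s (fun y => lc y ^ 2) x := by linarith
  have h4 : 1 / m * (s / 2 + lc x + log (T s (fun y => exp (-(δ * lc y))) x)) ≤
      1 / m * (s / 2 + lc x - δ * T s lc x + δ ^ 2 / 2 * T s (fun y => lc y ^ 2) x) := by
    gcongr
  refine h4.trans (le_of_eq ?_)
  field_simp
  rw [hδ]
  ring

lemma E_add_const {m s c x : ℝ} {F : ℝ → ℝ} (hF : ExpBdd F)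
    (hE : ExpBdd (fun y => exp (m * F y))) :
    E m s (fun y => F y + c) x = E m s F x + c := by
  unfold E
  by_cases hm : m = 0
  · rw [if_pos hm, if_pos hm, P_add hF (ExpBdd.const c), P_const]
  · rw [if_neg hm, if_neg hm]
    have e : (fun y => exp (m * (F y + c))) = fun y => exp (m * c) * exp (m * F y) := by
      funext y
      rw [← exp_add]; ring_nf
    have hpos := P_pos hE (fun y => exp_pos _) s x
    rw [e, P_const_mul, log_mul (exp_pos _).ne' hpos.ne', log_exp]
    field_simp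
    ring

end Pool.Agent.ATLine
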