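import Mathlib
import Pool.Agent.Lib.ATLine.Converse

/-!
# The de Almeida-Thouless line
-/

open MeasureTheory ProbabilityTheory Filter Topology Set Real

namespace Pool.Agent.ATLine

/-! ### Two point measures -/

/-- the measure `m δ_{q₀} + (1-m) δ_{q₁}` -/
noncomputable def twoPoint (m q₀ q₁ : ℝ) : Measure ℝ :=
  ENNReal.ofReal m • Measure.dirac q₀ + ENNReal.ofReal (1 - m) • Measure.dirac q₁

lemma twoPoint_prob {m : ℝ} (hm0 : 0 ≤ m) (hm1 : m ≤ 1) (q₀ q₁ : ℝ) :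
    IsProbabilityMeasure (twoPoint m q₀ q₁) := by
  refine ⟨?_⟩
  unfold twoPoint
  simp only [Measure.coe_add, Measure.coe_smul, Pi.add_apply, Pi.smul_apply, measure_univ,
    smul_eq_mul, mul_one]
  rw [← ENNReal.ofReal_add hm0 (by linarith)]
  simp

lemma twoPoint_Icc {m : ℝ} (hm0 : 0 ≤ m) (hm1 : m ≤ 1) {q₀ q₁ : ℝ} (h0 : q₀ ∈ Icc (0:ℝ) 1)
    (h1 : q₁ ∈ Icc (0:ℝ) 1) : twoPoint m q₀ q₁ (Icc 0 1) = 1 := by
  unfold twoPoint
  simp only [Measure.coe_add, Measure.coe_smul, Pi.add_apply, Pi.smul_apply, smul_eq_mul]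
  rw [Measure.dirac_apply' _ measurableSet_Icc, Measure.dirac_apply' _ measurableSet_Icc,
    indicator_of_mem h0, indicator_of_mem h1]
  simp only [Pi.one_apply, mul_one]
  rw [← ENNReal.ofReal_add hm0 (by linarith)]
  simp

lemma cdf_twoPoint {m : ℝ} (hm0 : 0 ≤ m) (hm1 : m ≤ 1) (q₀ q₁ t : ℝ) :
    cdf (twoPoint m q₀ q₁) t =
      m * cdf (Measure.dirac q₀) t + (1 - m) * cdf (Measure.dirac q₁) t := by
  have := twoPoint_prob hm0 hm1 q₀ q₁
  have hfin : ∀ (c q : ℝ), (ENNReal.ofReal c • Measure.dirac q) (Iic t) ≠ ⊤ := by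
    intro c q
    rw [Measure.smul_apply, smul_eq_mul]
    exact ENNReal.mul_ne_top ENNReal.ofReal_ne_top (measure_ne_top _ _)
  rw [cdf_eq_real, cdf_eq_real, cdf_eq_real]
  unfold twoPoint
  rw [measureReal_add_apply (hfin _ _) (hfin _ _), measureReal_ennreal_smul_apply,
    measureReal_ennreal_smul_apply,
    ENNReal.toReal_ofReal hm0, ENNReal.toReal_ofReal (by linarith)]

/-- the solution of the Parisi equation for a two point measure -/
theorem twoPoint_solution (β : ℝ) {m q₀ q₁ : ℝ} (hm0 : 0 < m) (hm1 : m ≤ 1) (hq0 : 0 ≤ q₀)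
    (hq : q₀ < q₁) (hq1 : q₁ ≤ 1) :
    ∃ f, IsParisiSolution β (cdf (twoPoint m q₀ q₁)) f ∧
      ∀ h, f 0 h = P (2 * β ^ 2 * q₀) (E m (2 * β ^ 2 * (q₁ - q₀)) lc) h + β ^ 2 * (1 - q₁) := by
  have hB : 0 ≤ β ^ 2 := sq_nonneg β
  obtain ⟨C1, g1, g2, g3, s2⟩ := (solOn_one (β ^ 2) (fun _ => 1)).step hB (le_refl 1) (a' := q₁)
    (m := 1) hq1 zero_le_one (le_refl 1)
  obtain ⟨C2, k1, k2, k3, s3⟩ := s2.step hB hq1 (a' := q₀) (m := m) hq.le hm0.le hm1
  obtain ⟨C3, l1, l2, l3, s4⟩ := s3.step hB (hq.le.trans hq1) (a' := 0) (m := 0) hq0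
    (le_refl 0) zero_le_one
  refine ⟨_, s4.isParisiSolution.congr_ae ?_, ?_⟩
  · have h1 : ∀ᵐ s : ℝ, s ≠ q₀ := by
      rw [ae_iff]
      simp
    have h2 : ∀ᵐ s : ℝ, s ≠ q₁ := by
      rw [ae_iff]
      simp
    filter_upwards [h1, h2] with s hs0 hs1 _
    rw [cdf_twoPoint hm0.le hm1, cdf_dirac, cdf_dirac]
    by_cases c0 : s ≤ q₀
    · have d0 : ¬ q₀ ≤ s := fun h => hs0 (le_antisymm c0 h)
      have d1 : ¬ q₁ ≤ s := fun h => d0 (hq.le.trans h)
      simp [c0, d0, d1]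
    · have d0 : q₀ ≤ s := (not_le.1 c0).le
      by_cases c1 : s ≤ q₁
      · have d1 : ¬ q₁ ≤ s := fun h => hs1 (le_antisymm c1 h)
        simp [c0, c1, d0, d1]
      · have d1 : q₁ ≤ s := (not_le.1 c1).le
        simp [c0, c1, d0, d1]
  · intro h
    simp only [if_pos hq0, if_pos hq.le, if_pos hq1, E_zero_eq, sub_zero]
    have e : E 1 (2 * β ^ 2 * (1 - q₁)) lc = fun x => lc x + β ^ 2 * (1 - q₁) := by
      funext x
      rw [E_one_lc (by have : 0 ≤ 1 - q₁ := by linarith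
                       positivity)]
      ring
    have e' : E m (2 * β ^ 2 * (q₁ - q₀)) (fun x => lc x + β ^ 2 * (1 - q₁)) =
        fun x => E m (2 * β ^ 2 * (q₁ - q₀)) lc x + β ^ 2 * (1 - q₁) := by
      funext x
      exact E_add_const nice_lc.e0 (nice_lc.expBdd_exp m)
    rw [e, e']
    have hn := nice_lc.evol hm0.le hm1 (2 * β ^ 2 * (q₁ - q₀))
    rw [P_add hn.e0 (ExpBdd.const _), P_const]

lemma integral_cdf_twoPoint {m : ℝ} (hm0 : 0 ≤ m) (hm1 : m ≤ 1) {q₀ q₁ : ℝ}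
    (h0 : q₀ ∈ Icc (0:ℝ) 1) (h1 : q₁ ∈ Icc (0:ℝ) 1) :
    ∫ t in (0:ℝ)..1, cdf (twoPoint m q₀ q₁) t * t =
      m * ((1 - q₀ ^ 2) / 2) + (1 - m) * ((1 - q₁ ^ 2) / 2) := by
  have i1 : ∀ q : ℝ, IntervalIntegrable (fun t => cdf (Measure.dirac q) t * t) volume 0 1 :=
    fun q => (cdf_intervalIntegrable _ 0 1).mul_continuousOn continuousOn_id
  have e : (fun t => cdf (twoPoint m q₀ q₁) t * t) = fun t =>
      m * (cdf (Measure.dirac q₀) t * t) + (1 - m) * (cdf (Measure.dirac q₁) t * t) := by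
    funext t
    rw [cdf_twoPoint hm0 hm1]
    ring
  rw [e, intervalIntegral.integral_add ((i1 q₀).const_mul _) ((i1 q₁).const_mul _),
    intervalIntegral.integral_const_mul, intervalIntegral.integral_const_mul,
    integral_dirac_cdf h0, integral_dirac_cdf h1]

/-- upper bound of the Parisi functional at a two point measure -/
lemma parisiValue_twoPoint_le {β m q₀ q₁ h : ℝ} (hm0 : 0 < m) (hm1 : m ≤ 1) (hq0 : 0 ≤ q₀)
    (hq : q₀ < q₁) (hq1 : q₁ ≤ 1) {f : ℝ → ℝ → ℝ}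
    (hf : f 0 h = P (2 * β ^ 2 * q₀) (E m (2 * β ^ 2 * (q₁ - q₀)) lc) h + β ^ 2 * (1 - q₁)) :
    parisiValue β h (cdf (twoPoint m q₀ q₁)) f ≤
      (Real.log 2 + P (2 * β ^ 2 * q₀) lc h + β ^ 2 * (1 - q₀) ^ 2 / 2) +
      (1 - m) / m * (β ^ 2 * (q₁ - q₀) + P (2 * β ^ 2 * q₀) lc h
        - P (2 * β ^ 2 * q₀) (T (2 * β ^ 2 * (q₁ - q₀)) lc) h
        + (1 - m) / 2 *
          P (2 * β ^ 2 * q₀) (T (2 * β ^ 2 * (q₁ - q₀)) (fun y => lc y ^ 2)) h)
      + β ^ 2 * (1 - m) * (q₁ ^ 2 - q₀ ^ 2) / 2 := by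
  have h0 : q₀ ∈ Icc (0:ℝ) 1 := ⟨hq0, hq.le.trans hq1⟩
  have h1 : q₁ ∈ Icc (0:ℝ) 1 := ⟨hq0.trans hq.le, hq1⟩
  set c := 2 * β ^ 2 * (q₁ - q₀) with hc
  have hc0 : 0 ≤ c := by
    have : 0 ≤ q₁ - q₀ := by linarith
    positivity
  set v := 2 * β ^ 2 * q₀ with hv
  have bl2 : ExpBdd (fun y => lc y ^ 2) := expBdd_lc.pow 2
  have hn := nice_lc.evol hm0.le hm1 c
  have bR : ExpBdd (fun x => c / 2 + lc x - T c lc x +
      (1 - m) / 2 * T c (fun y => lc y ^ 2) x) :=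
    (((ExpBdd.const (c / 2)).add expBdd_lc).sub (expBdd_lc.T c)).add
      ((bl2.T c).const_mul ((1 - m) / 2))
  have hP : P v (E m c lc) h ≤ P v (fun x => lc x + c / 2 + (1 - m) / m *
      (c / 2 + lc x - T c lc x + (1 - m) / 2 * T c (fun y => lc y ^ 2) x)) h :=
    P_mono hn.e0 ((expBdd_lc.add (ExpBdd.const _)).add (bR.const_mul _))
      (fun x => E_lc_le hm0 hm1 hc0 x) v h
  rw [P_add (expBdd_lc.add (ExpBdd.const _)) (bR.const_mul _), P_add expBdd_lc (ExpBdd.const _),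
    P_const_mul, P_add (((ExpBdd.const (c / 2)).add expBdd_lc).sub (expBdd_lc.T c))
      ((bl2.T c).const_mul ((1 - m) / 2)),
    P_sub ((ExpBdd.const (c / 2)).add expBdd_lc) (expBdd_lc.T c),
    P_add (ExpBdd.const (c / 2)) expBdd_lc, P_const_mul, P_const] at hP
  have ec : c / 2 = β ^ 2 * (q₁ - q₀) := by rw [hc]; ring
  rw [ec] at hP
  unfold parisiValue
  rw [hf, integral_cdf_twoPoint hm0.le hm1 h0 h1]
  nlinarith [hP]

/-- **Toninelli's theorem**: the dAT inequality is necessary for a point mass to be optimal -/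
theorem dAT_of_optimal {β h q : ℝ} (hβ : 0 < β) (hq : q ∈ Icc (0:ℝ) 1)
    (hopt : IsOptimal β h (Measure.dirac q))
    (hfix : q = P (2 * β ^ 2 * q) (fun y => tanh y ^ 2) h) :
    β ^ 2 * P (2 * β ^ 2 * q) (fun y => sc y ^ 4) h ≤ 1 / 2 := by
  by_contra hcon
  push Not at hcon
  set B := β ^ 2 with hB
  have hB0 : 0 < B := by positivity
  set v := 2 * B * q with hv
  obtain ⟨_, f, hf, hmin⟩ := hopt
  rw [parisiValue_dirac hq hf, ← hB, ← hv] at hmin
  have hq1 : q < 1 := by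
    rw [hfix]; exact P_tanh_sq_lt_one _ _
  -- choice of κ'
  have h1 : 1 / (2 * B) < P v (fun y => sc y ^ 4) h := by
    rw [div_lt_iff₀ (by positivity)]
    linarith
  obtain ⟨κ', hκ1, hκ2⟩ := exists_between h1
  obtain ⟨τ₀, hτ₀, hlow⟩ := mean_lc_ge hκ2
  have hκB : 1 / 2 < κ' * B := by
    rw [div_lt_iff₀ (by positivity)] at hκ1
    linarith
  -- choice of η
  set η := min (τ₀ / (2 * B)) (1 - q) with hη
  have hη0 : 0 < η := lt_min (by positivity) (by linarith)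
  have hη1 : 2 * B * η ≤ τ₀ := by
    have : η ≤ τ₀ / (2 * B) := min_le_left _ _
    rw [le_div_iff₀ (by positivity)] at this
    linarith
  have hη2 : q + η ≤ 1 := by
    have : η ≤ 1 - q := min_le_right _ _
    linarith
  set M := P v (T (2 * B * η) (fun y => lc y ^ 2)) h with hM
  have hM0 : 0 ≤ M := P_nonneg (fun y => T_nonneg (fun y => sq_nonneg _) _ _) _ _
  set g := B * η ^ 2 * (κ' * B - 1 / 2) with hg
  have hg0 : 0 < g := by
    have : 0 < κ' * B - 1 / 2 := by linarith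
    positivity
  set δ := min (1 / 2) (g / (2 * (M + 1))) with hδ
  have hδ0 : 0 < δ := lt_min (by norm_num) (by positivity)
  have hδ1 : δ ≤ 1 / 2 := min_le_left _ _
  have hδ2 : δ * (M + 1) ≤ g / 2 := by
    have : δ ≤ g / (2 * (M + 1)) := min_le_right _ _
    calc δ * (M + 1) ≤ g / (2 * (M + 1)) * (M + 1) := by gcongr
      _ = g / 2 := by field_simp
  set m := 1 - δ with hm
  have hm0 : 0 < m := by linarith
  have hm1 : m ≤ 1 := by linarith
  have hmδ : 1 - m = δ := by rw [hm]; ring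
  obtain ⟨F, hF, hF0⟩ := twoPoint_solution β (m := m) (q₀ := q) (q₁ := q + η) hm0 hm1 hq.1
    (by linarith) hη2
  have hup := parisiValue_twoPoint_le (β := β) (h := h) hm0 hm1 hq.1 (by linarith : q < q + η) hη2
    (hF0 h)
  have := twoPoint_prob hm0.le hm1 q (q + η)
  have hle := hmin (twoPoint m q (q + η)) F inferInstance
    (twoPoint_Icc hm0.le hm1 hq ⟨by linarith [hq.1], hη2⟩) hF
  have eη : q + η - q = η := by ring
  rw [← hB, ← hv, eη, ← hM, hmδ] at hup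
  have hl := hlow (2 * B * η) (by positivity) hη1
  rw [← hfix] at hl
  set X := P v (T (2 * B * η) lc) h with hX
  set Y := P v lc h with hY
  have hdiff := hle.trans hup
  -- the difference of the two values is nonnegative
  have h2 : 0 ≤ δ / m * (B * η + Y - X + δ / 2 * M) + B * δ * ((q + η) ^ 2 - q ^ 2) / 2 := by
    linarith
  have h3 : B * η + Y - X ≤ -(B * η * q) - κ' * B ^ 2 * η ^ 2 := by
    have e1 : 2 * B * η / 2 = B * η := by ring
    have e2 : κ' * (2 * B * η) ^ 2 / 4 = κ' * B ^ 2 * η ^ 2 := by ring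
    rw [e1, e2] at hl
    linarith
  have h4 : δ / m * (B * η + Y - X + δ / 2 * M) ≤
      δ / m * (-(B * η * q) - κ' * B ^ 2 * η ^ 2 + δ / 2 * M) := by
    have : 0 ≤ δ / m := by positivity
    exact mul_le_mul_of_nonneg_left (by linarith) this
  have h5 : 0 ≤ δ / m * (-(B * η * q) - κ' * B ^ 2 * η ^ 2 + δ / 2 * M)
      + B * δ * ((q + η) ^ 2 - q ^ 2) / 2 := by linarith
  have h6 : 0 ≤ m * (δ / m * (-(B * η * q) - κ' * B ^ 2 * η ^ 2 + δ / 2 * M)
      + B * δ * ((q + η) ^ 2 - q ^ 2) / 2) := mul_nonneg hm0.le h5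
  have h7 : m * (δ / m * (-(B * η * q) - κ' * B ^ 2 * η ^ 2 + δ / 2 * M)
      + B * δ * ((q + η) ^ 2 - q ^ 2) / 2) =
      δ * ((-(B * η * q) - κ' * B ^ 2 * η ^ 2 + δ / 2 * M) + m * (B * η * q + B * η ^ 2 / 2)) := by
    field_simp
    ring
  rw [h7] at h6
  have h8 : 0 ≤ (-(B * η * q) - κ' * B ^ 2 * η ^ 2 + δ / 2 * M)
      + m * (B * η * q + B * η ^ 2 / 2) := by
    by_contra hneg
    push Not at hneg
    have := mul_neg_of_pos_of_neg hδ0 hneg
    linarith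
  have h9 : m * (B * η * q + B * η ^ 2 / 2) ≤ B * η * q + B * η ^ 2 / 2 := by
    have h10 : 0 ≤ B * η * q + B * η ^ 2 / 2 := by
      have := hq.1
      positivity
    nlinarith
  have h11 : δ / 2 * M ≤ g / 2 := by nlinarith
  have h12 : κ' * B ^ 2 * η ^ 2 - B * η ^ 2 / 2 = g := by rw [hg]; ring
  linarith

/-- high temperature behaviour implies the de Almeida-Thouless condition -/
theorem dAT_of_optimalPoint {β h : ℝ} (hβ : 0 < β) (H : OptimalPoint β h) :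
    DATCondition β h := by
  obtain ⟨q, hq, hopt⟩ := H
  have hmin : ∀ q' ∈ Icc (0:ℝ) 1, rs β h q ≤ rs β h q' := by
    intro q' hq'
    obtain ⟨_, f, hf, hmin⟩ := hopt
    obtain ⟨g, hg, _⟩ := point_solution β hq'
    have h1 := hmin (Measure.dirac q') g inferInstance (by
      rw [Measure.dirac_apply' _ measurableSet_Icc, indicator_of_mem hq']
      rfl) hg
    rw [parisiValue_dirac hq hf, parisiValue_dirac hq' hg] at h1
    unfold rs
    linarith
  have hfix := fixed_of_min hβ hq hmin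
  have hcrit := dAT_of_optimal hβ hq hopt hfix
  have hB0 : 0 < β ^ 2 := by positivity
  refine ⟨q, ⟨⟨hq, by rw [gaussE_tanh hβ]; exact hfix⟩, ?_⟩, by rw [gaussE_cosh hβ]; exact hcrit⟩
  rintro q' ⟨hq', hfix'⟩
  rw [gaussE_tanh hβ] at hfix'
  by_contra hlt
  push Not at hlt
  rcases eq_or_lt_of_le hq.1 with h0 | h0
  · -- q = 0
    rw [← h0] at hfix hcrit hlt
    rw [mul_zero, P_zero] at hfix hcrit
    have ht : tanh h = 0 := (pow_eq_zero_iff two_ne_zero).1 hfix.symm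
    have hh : h = 0 := by
      have h1 : tanh h = tanh 0 := by rw [ht, tanh_zero]
      exact tanh_injective h1
    have hs1 : sc h ^ 4 = 1 := by
      have := sc_sq h
      rw [ht] at this
      have e : sc h ^ 4 = (sc h ^ 2) ^ 2 := by ring
      rw [e, this]
      norm_num
    rw [hs1] at hcrit
    rw [hh] at hfix'
    have h2 := P_tanh_sq_lt (s := 2 * β ^ 2 * q') (by positivity)
    rw [← hfix'] at h2
    nlinarith
  · exact absurd (fixed_point_unique hB0 h0 (h0.trans hlt) hfix hfix') hlt.ne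

/-- **The de Almeida-Thouless line of the Sherrington-Kirkpatrick model** -/
theorem optimalPoint_iff_dAT {β : ℝ} (hβ : 0 < β) (h : ℝ) :
    OptimalPoint β h ↔ DATCondition β h :=
  ⟨dAT_of_optimalPoint hβ, optimalPoint_of_dAT hβ⟩

end Pool.Agent.ATLine
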