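import Mathlib
import Pool.Agent.Lib.ATLine.Exist
import Pool.Agent.Lib.ATLine.Step
import Pool.Agent.Lib.ATLine.Lower

/-!
# Uniform bounds for the solutions of the Parisi equation with step functions
-/

open MeasureTheory ProbabilityTheory Filter Topology Set

namespace Pool.Agent.ATLine

/-- functions satisfying the bounds that are kept by the evolution -/
structure Nice2 (L : ℝ) (F F1 F2 F3 : ℝ → ℝ) : Prop where
  d1 : ∀ x, HasDerivAt F (F1 x) x
  d2 : ∀ x, HasDerivAt F1 (F2 x) x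
  d3 : ∀ x, HasDerivAt F2 (F3 x) x
  cont : Continuous F3
  b1 : ∀ x, |F1 x| ≤ 1
  b2 : ∀ x, 0 ≤ F2 x ∧ F2 x ≤ 1 - F1 x ^ 2
  b3 : ∀ x, |F3 x| ≤ L

lemma Nice2.nice {L : ℝ} (hL : 1 ≤ L) {F F1 F2 F3 : ℝ → ℝ} (h : Nice2 L F F1 F2 F3) :
    Nice L F F1 F2 F3 := by
  refine ⟨h.d1, h.d2, h.d3, h.cont, fun x => (h.b1 x).trans hL, fun x => ?_, h.b3⟩
  have := h.b2 x
  rw [abs_of_nonneg this.1]
  nlinarith [sq_nonneg (F1 x)]

lemma nice2_lc :
    Nice2 2 lc Real.tanh (fun x => sc x ^ 2) (fun x => -(2 * sc x ^ 2 * Real.tanh x)) := by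
  refine ⟨nice_lc.d1, nice_lc.d2, nice_lc.d3, nice_lc.cont, abs_tanh_le_one, fun x => ?_,
    nice_lc.b3⟩
  exact ⟨sq_nonneg _, (sc_sq x).le⟩

/-- the constant in the variance bound -/
noncomputable def cvar (S : ℝ) : ℝ :=
  (∫ z, z ^ 2 * Real.exp (√S * |z|) ∂gam) / ∫ z, Real.exp (-(√S * |z|)) ∂gam

lemma cvar_nonneg (S : ℝ) : 0 ≤ cvar S :=
  div_nonneg (integral_nonneg fun z => by positivity) (integral_nonneg fun z => by positivity)

lemma integrable_sq_exp (a : ℝ) : Integrable (fun z : ℝ => z ^ 2 * Real.exp (a * |z|)) gam := by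
  have h1 : ExpBdd (fun z : ℝ => Real.exp (a * z) + Real.exp (-a * z)) :=
    (ExpBdd.exp_mul a).add (ExpBdd.exp_mul (-a))
  have h2 := ((ExpBdd.id.pow 2).mul h1).integrable
  refine h2.mono' (Continuous.aestronglyMeasurable (by fun_prop)) (ae_of_all _ fun z => ?_)
  rw [Real.norm_eq_abs, abs_mul, Real.abs_exp, abs_of_nonneg (sq_nonneg z)]
  refine mul_le_mul_of_nonneg_left ?_ (sq_nonneg z)
  rcases abs_cases z with ⟨h, _⟩ | ⟨h, _⟩ <;> rw [h]
  · have := Real.exp_pos (-a * z); linarith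
  · have e : a * -z = -a * z := by ring
    rw [e]
    have := Real.exp_pos (a * z); linarith

lemma integral_exp_neg_pos (a : ℝ) : 0 < ∫ z, Real.exp (-(a * |z|)) ∂gam := by
  have hi : Integrable (fun z : ℝ => Real.exp (-(a * |z|))) gam := by
    have := integrable_exp_abs (-a)
    simpa only [neg_mul] using this
  rw [integral_pos_iff_support_of_nonneg (fun _ => (Real.exp_pos _).le) hi]
  have : Function.support (fun z : ℝ => Real.exp (-(a * |z|))) = univ := by
    ext z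
    simp [(Real.exp_pos _).ne']
  rw [this]
  simp

lemma A_sq_le {K m : ℝ} {F F1 F2 F3 : ℝ → ℝ} (h : Nice K F F1 F2 F3) (h1 : ∀ x, |F1 x| ≤ 1)
    (hm0 : 0 ≤ m) (hm1 : m ≤ 1) {s S : ℝ} (hs : 0 ≤ s) (hS : s ≤ S) (x : ℝ) :
    A m F (fun y => (y - x) ^ 2) s x ≤ cvar S * s := by
  have hsq : ExpBdd (fun y : ℝ => (y - x) ^ 2) := (ExpBdd.id.sub (ExpBdd.const x)).pow 2
  unfold A
  have hw : ∀ z, |m * F (x + √s * z) - m * F x| ≤ √S * |z| := by
    intro z
    rw [← mul_sub, abs_mul, abs_of_nonneg hm0]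
    have k1 := lip_of_deriv h.d1 h1 x (x + √s * z)
    have e2 : x + √s * z - x = √s * z := by ring
    rw [e2, abs_mul, abs_of_nonneg (Real.sqrt_nonneg s), one_mul] at k1
    have k2 : √s * |z| ≤ √S * |z| := by
      have := Real.sqrt_le_sqrt hS
      gcongr
    calc m * |F (x + √s * z) - F x| ≤ 1 * (√S * |z|) :=
          mul_le_mul hm1 (k1.trans k2) (abs_nonneg _) zero_le_one
      _ = √S * |z| := one_mul _
  have hnum : P s (fun y => (y - x) ^ 2 * Real.exp (m * F y)) x ≤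
      s * Real.exp (m * F x) * ∫ z, z ^ 2 * Real.exp (√S * |z|) ∂gam := by
    unfold P
    rw [← integral_const_mul]
    refine integral_mono ((hsq.mul (h.expBdd_exp m)).integrable_comp x (√s))
      ((integrable_sq_exp (√S)).const_mul _) (fun z => ?_)
    simp only
    have e2 : (x + √s * z - x) ^ 2 = s * z ^ 2 := by
      have : (x + √s * z - x) ^ 2 = (√s) ^ 2 * z ^ 2 := by ring
      rw [this, Real.sq_sqrt hs]
    rw [e2]
    have k2 : Real.exp (m * F (x + √s * z)) ≤ Real.exp (m * F x) * Real.exp (√S * |z|) := by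
      rw [← Real.exp_add]
      apply Real.exp_le_exp.2
      have := (abs_le.1 (hw z)).2
      linarith
    calc s * z ^ 2 * Real.exp (m * F (x + √s * z))
        ≤ s * z ^ 2 * (Real.exp (m * F x) * Real.exp (√S * |z|)) := by gcongr
      _ = _ := by ring
  have hden : Real.exp (m * F x) * ∫ z, Real.exp (-(√S * |z|)) ∂gam ≤
      P s (fun y => Real.exp (m * F y)) x := by
    unfold P
    rw [← integral_const_mul]
    have hi : Integrable (fun z : ℝ => Real.exp (-(√S * |z|))) gam := by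
      have := integrable_exp_abs (-√S)
      simpa only [neg_mul] using this
    refine integral_mono (hi.const_mul _) ((h.expBdd_exp m).integrable_comp x (√s)) (fun z => ?_)
    simp only
    rw [← Real.exp_add]
    apply Real.exp_le_exp.2
    have := (abs_le.1 (hw z)).1
    linarith
  have hIpos := integral_exp_neg_pos (√S)
  have hw0 := Real.exp_pos (m * F x)
  have hJ0 : 0 ≤ ∫ z, z ^ 2 * Real.exp (√S * |z|) ∂gam := integral_nonneg fun z => by positivity
  rw [div_le_iff₀ (Z_pos h m s x)]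
  refine hnum.trans ?_
  have h3 : s * Real.exp (m * F x) * ∫ z, z ^ 2 * Real.exp (√S * |z|) ∂gam
      = cvar S * s * (Real.exp (m * F x) * ∫ z, Real.exp (-(√S * |z|)) ∂gam) := by
    unfold cvar
    generalize (∫ z, z ^ 2 * Real.exp (√S * |z|) ∂gam) = J at hJ0 ⊢
    generalize (∫ z, Real.exp (-(√S * |z|)) ∂gam) = D at hIpos ⊢
    field_simp
  rw [h3]
  have := cvar_nonneg S
  exact mul_le_mul_of_nonneg_left hden (by positivity)

section

variable {K m : ℝ} {F F1 F2 F3 : ℝ → ℝ}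

/-- the second moment about a point -/
lemma A_var (h : Nice K F F1 F2 F3) {φ : ℝ → ℝ} (hφ : ExpBdd φ) (k s x : ℝ) :
    A m F (fun y => (φ y - k) ^ 2) s x =
      (A m F (fun y => φ y * φ y) s x - A m F φ s x ^ 2) + (A m F φ s x - k) ^ 2 := by
  have e : (fun y => (φ y - k) ^ 2) = fun y => (φ y * φ y - (2 * k) * φ y) + k ^ 2 := by
    funext y; ring
  rw [e, A_add h ((hφ.mul hφ).sub (hφ.const_mul _)) (ExpBdd.const _),
    A_sub h (hφ.mul hφ) (hφ.const_mul _), A_const_mul, A_const h]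
  ring

lemma A_jensen (h : Nice K F F1 F2 F3) {φ : ℝ → ℝ} (hφ : ExpBdd φ) (s x : ℝ) :
    A m F φ s x ^ 2 ≤ A m F (fun y => φ y * φ y) s x := by
  have h1 := A_var (m := m) h hφ (A m F φ s x) s x
  have h2 : 0 ≤ A m F (fun y => (φ y - A m F φ s x) ^ 2) s x := by
    have := A_mono (m := m) h (ExpBdd.const 0) ((hφ.sub (ExpBdd.const (A m F φ s x))).pow 2)
      (fun y => sq_nonneg _) s x
    rwa [A_const h] at this
  rw [h1, sub_self] at h2
  nlinarith

/-- variance bound for Lipschitz functions -/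
lemma A_var_le (h : Nice K F F1 F2 F3) (h1 : ∀ x, |F1 x| ≤ 1) (hm0 : 0 ≤ m) (hm1 : m ≤ 1)
    {s S : ℝ} (hs : 0 ≤ s) (hS : s ≤ S) {φ : ℝ → ℝ} (hφ : ExpBdd φ) {C : ℝ} (x : ℝ)
    (hL : ∀ y, |φ y - φ x| ≤ C * |y - x|) :
    A m F (fun y => φ y * φ y) s x - A m F φ s x ^ 2 ≤ C ^ 2 * (cvar S * s) := by
  have k1 := A_var (m := m) h hφ (φ x) s x
  have k2 : A m F (fun y => (φ y - φ x) ^ 2) s x ≤ A m F (fun y => C ^ 2 * (y - x) ^ 2) s x :=
    A_mono h ((hφ.sub (ExpBdd.const (φ x))).pow 2)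
      (((ExpBdd.id.sub (ExpBdd.const x)).pow 2).const_mul _) (fun y => by
        have := hL y
        rw [← mul_pow, ← sq_abs (φ y - φ x), ← sq_abs (C * (y - x)), abs_mul]
        refine pow_le_pow_left₀ (abs_nonneg _) (this.trans ?_) 2
        exact mul_le_mul_of_nonneg_right (le_abs_self C) (abs_nonneg _)) s x
  rw [A_const_mul] at k2
  have k3 := mul_le_mul_of_nonneg_left (A_sq_le h h1 hm0 hm1 hs hS x) (sq_nonneg C)
  nlinarith [sq_nonneg (A m F φ s x - φ x)]

/-- covariance bound -/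
lemma A_cov_le (h : Nice K F F1 F2 F3) {φ ψ : ℝ → ℝ} (hφ : ExpBdd φ) (hψ : ExpBdd ψ)
    {s x v L : ℝ} (hL : 0 < L)
    (h1 : A m F (fun y => φ y * φ y) s x - A m F φ s x ^ 2 ≤ v)
    (h2 : A m F (fun y => ψ y * ψ y) s x - A m F ψ s x ^ 2 ≤ L ^ 2 * v) :
    |A m F (fun y => φ y * ψ y) s x - A m F φ s x * A m F ψ s x| ≤ L * v := by
  have key : ∀ σ : ℝ, σ ^ 2 = 1 → 0 ≤ L ^ 2 * (A m F (fun y => φ y * φ y) s x - A m F φ s x ^ 2)
      + (A m F (fun y => ψ y * ψ y) s x - A m F ψ s x ^ 2)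
      + 2 * (L * σ) * (A m F (fun y => φ y * ψ y) s x - A m F φ s x * A m F ψ s x) := by
    intro σ hσ
    have hχ : ExpBdd (fun y => (L * σ) * φ y + ψ y) := (hφ.const_mul _).add hψ
    have j := A_jensen (m := m) h hχ s x
    have e : (fun y => ((L * σ) * φ y + ψ y) * ((L * σ) * φ y + ψ y)) =
        fun y => (L ^ 2 * (φ y * φ y) + (2 * (L * σ)) * (φ y * ψ y)) + ψ y * ψ y := by
      funext y
      linear_combination (L ^ 2 * φ y ^ 2) * hσ
    rw [e, A_add h (((hφ.mul hφ).const_mul _).add ((hφ.mul hψ).const_mul _)) (hψ.mul hψ),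
      A_add h ((hφ.mul hφ).const_mul _) ((hφ.mul hψ).const_mul _),
      A_add h (hφ.const_mul _) hψ, A_const_mul, A_const_mul, A_const_mul] at j
    have e2 : (L * σ * A m F φ s x + A m F ψ s x) ^ 2 = L ^ 2 * A m F φ s x ^ 2
        + 2 * (L * σ) * (A m F φ s x * A m F ψ s x) + A m F ψ s x ^ 2 := by
      linear_combination (L ^ 2 * A m F φ s x ^ 2) * hσ
    rw [e2] at j
    linarith
  have k1 := key 1 (by norm_num)
  have k2 := key (-1) (by norm_num)
  have k3 : L ^ 2 * (A m F (fun y => φ y * φ y) s x - A m F φ s x ^ 2) ≤ L ^ 2 * v := by gcongr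
  rw [abs_le]
  constructor
  · have : 0 ≤ 2 * L * (L * v + (A m F (fun y => φ y * ψ y) s x - A m F φ s x * A m F ψ s x)) := by
      nlinarith
    have := nonneg_of_mul_nonneg_right this (by positivity)
    linarith
  · have : 0 ≤ 2 * L * (L * v - (A m F (fun y => φ y * ψ y) s x - A m F φ s x * A m F ψ s x)) := by
      nlinarith
    have := nonneg_of_mul_nonneg_right this (by positivity)
    linarith

/-- third cumulant bound -/
lemma A_cum_le (h : Nice K F F1 F2 F3) {φ : ℝ → ℝ} (hφ : ExpBdd φ) (hb : ∀ y, |φ y| ≤ 1)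
    {s x v : ℝ} (h1 : A m F (fun y => φ y * φ y) s x - A m F φ s x ^ 2 ≤ v) :
    |A m F (fun y => φ y ^ 3) s x - 3 * A m F (fun y => φ y * φ y) s x * A m F φ s x
      + 2 * A m F φ s x ^ 3| ≤ 2 * v := by
  set a := A m F φ s x with ha
  have ha1 : |a| ≤ 1 := A_abs_le h hφ hb s x
  have bc : ExpBdd (fun y => (φ y - a) ^ 3) := (hφ.sub (ExpBdd.const a)).pow 3
  have bs : ExpBdd (fun y => (φ y - a) ^ 2) := (hφ.sub (ExpBdd.const a)).pow 2
  have e : A m F (fun y => (φ y - a) ^ 3) s x =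
      A m F (fun y => φ y ^ 3) s x - 3 * A m F (fun y => φ y * φ y) s x * a + 2 * a ^ 3 := by
    have e1 : (fun y => (φ y - a) ^ 3) =
        fun y => ((φ y ^ 3 - (3 * a) * (φ y * φ y)) + (3 * a ^ 2) * φ y) - a ^ 3 := by
      funext y; ring
    have b1 : ExpBdd (fun y => φ y ^ 3 - (3 * a) * (φ y * φ y)) :=
      (hφ.pow 3).sub ((hφ.mul hφ).const_mul _)
    rw [e1, A_sub h (b1.add (hφ.const_mul _)) (ExpBdd.const _), A_add h b1 (hφ.const_mul _),
      A_sub h (hφ.pow 3) ((hφ.mul hφ).const_mul _), A_const_mul, A_const_mul, A_const h, ← ha]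
    ring
  rw [← e]
  have hv : A m F (fun y => (φ y - a) ^ 2) s x ≤ v := by
    rw [A_var h hφ a s x, ← ha, sub_self]
    linarith
  have hle : ∀ y, |(φ y - a) ^ 3| ≤ 2 * (φ y - a) ^ 2 := by
    intro y
    have h2 : |φ y - a| ≤ 2 := by
      have := abs_sub (φ y) a
      have := hb y
      linarith
    have : |(φ y - a) ^ 3| = (φ y - a) ^ 2 * |φ y - a| := by
      rw [pow_succ, abs_mul, abs_of_nonneg (sq_nonneg _)]
    rw [this]
    nlinarith [sq_nonneg (φ y - a)]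
  have k1 := A_mono (m := m) h bc (bs.const_mul 2) (fun y => (abs_le.1 (hle y)).2) s x
  have k2 := A_mono (m := m) h (bs.const_mul (-2)) bc (fun y => by
    have := (abs_le.1 (hle y)).1
    linarith) s x
  rw [A_const_mul] at k1 k2
  rw [abs_le]
  constructor <;> linarith

end

/-- the class `Nice2` is kept by the evolution -/
lemma Nice2.evol {L : ℝ} {F F1 F2 F3 : ℝ → ℝ} (h : Nice2 L F F1 F2 F3) (hL : 1 ≤ L) {m : ℝ}
    (hm0 : 0 ≤ m) (hm1 : m ≤ 1) {s S : ℝ} (hs : 0 ≤ s) (hS : s ≤ S) :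
    Nice2 (L * Real.exp (5 * cvar S * s)) (E m s F) (E1 m s F F1) (E2 m s F F1 F2)
      (E3 m s F F1 F2 F3) := by
  have hN := h.nice hL
  have hN' := hN.evol hm0 hm1 s
  have hc := cvar_nonneg S
  refine ⟨hN'.d1, hN'.d2, hN'.d3, hN'.cont, fun x => A_abs_le hN hN.e1 h.b1 s x, fun x => ?_,
    fun x => ?_⟩
  · -- second derivative
    have j := A_jensen (m := m) hN hN.e1 s x
    have b2 := hN.e2
    have b11 : ExpBdd (fun y => F1 y * F1 y) := hN.e1.mul hN.e1
    have e : A m F (fun y => F2 y + m * F1 y * F1 y) s x =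
        A m F F2 s x + m * A m F (fun y => F1 y * F1 y) s x := by
      have e1 : (fun y => F2 y + m * F1 y * F1 y) = fun y => F2 y + m * (F1 y * F1 y) := by
        funext y; ring
      rw [e1, A_add hN b2 (b11.const_mul m), A_const_mul]
    have p1 : 0 ≤ A m F F2 s x := by
      have := A_mono (m := m) hN (ExpBdd.const 0) b2 (fun y => (h.b2 y).1) s x
      rwa [A_const hN] at this
    have p2 : A m F F2 s x ≤ 1 - A m F (fun y => F1 y * F1 y) s x := by
      have := A_mono (m := m) hN b2 ((ExpBdd.const 1).sub b11) (fun y => by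
        have := (h.b2 y).2
        nlinarith) s x
      rwa [A_sub hN (ExpBdd.const 1) b11, A_const hN] at this
    unfold E2 E1
    rw [e]
    constructor
    · nlinarith
    · nlinarith
  · -- third derivative
    have hcs : 0 ≤ cvar S * s := by positivity
    have L0 : 0 < L := by linarith
    have F2le : ∀ y, |F2 y| ≤ 1 := fun y => by
      have := h.b2 y
      rw [abs_of_nonneg this.1]
      nlinarith [sq_nonneg (F1 y)]
    have v1 := A_var_le hN h.b1 hm0 hm1 hs hS hN.e1 (C := 1) x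
      (fun y => lip_of_deriv h.d2 F2le x y)
    have v2 := A_var_le hN h.b1 hm0 hm1 hs hS hN.e2 (C := L) x
      (fun y => lip_of_deriv h.d3 h.b3 x y)
    rw [one_pow, one_mul] at v1
    have cov := A_cov_le (m := m) hN hN.e1 hN.e2 L0 v1 v2
    have cum := A_cum_le (m := m) hN hN.e1 h.b1 v1
    have a3 := A_abs_le (m := m) hN hN.e3 h.b3 s x
    have b12 : ExpBdd (fun y => F1 y * F2 y) := hN.e1.mul hN.e2
    have b11 : ExpBdd (fun y => F1 y * F1 y) := hN.e1.mul hN.e1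
    have b111 : ExpBdd (fun y => F1 y ^ 3) := hN.e1.pow 3
    have e1 : A m F (fun y => F3 y + 3 * m * F1 y * F2 y + m ^ 2 * F1 y ^ 3) s x =
        A m F F3 s x + 3 * m * A m F (fun y => F1 y * F2 y) s x +
          m ^ 2 * A m F (fun y => F1 y ^ 3) s x := by
      have e2 : (fun y => F3 y + 3 * m * F1 y * F2 y + m ^ 2 * F1 y ^ 3) =
          fun y => (F3 y + (3 * m) * (F1 y * F2 y)) + m ^ 2 * F1 y ^ 3 := by
        funext y; ring
      rw [e2, A_add hN (hN.e3.add (b12.const_mul _)) (b111.const_mul _),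
        A_add hN hN.e3 (b12.const_mul _), A_const_mul, A_const_mul]
    have e3 : A m F (fun y => F2 y + m * F1 y * F1 y) s x =
        A m F F2 s x + m * A m F (fun y => F1 y * F1 y) s x := by
      have e4 : (fun y => F2 y + m * F1 y * F1 y) = fun y => F2 y + m * (F1 y * F1 y) := by
        funext y; ring
      rw [e4, A_add hN hN.e2 (b11.const_mul m), A_const_mul]
    have e5 : E3 m s F F1 F2 F3 x = A m F F3 s x
        + 3 * m * (A m F (fun y => F1 y * F2 y) s x - A m F F1 s x * A m F F2 s x)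
        + m ^ 2 * (A m F (fun y => F1 y ^ 3) s x
          - 3 * A m F (fun y => F1 y * F1 y) s x * A m F F1 s x + 2 * A m F F1 s x ^ 3) := by
      unfold E3
      rw [e1, e3]
      ring
    rw [e5]
    have hm2 : m ^ 2 ≤ 1 := pow_le_one₀ hm0 hm1
    have t1 : |3 * m * (A m F (fun y => F1 y * F2 y) s x - A m F F1 s x * A m F F2 s x)| ≤
        3 * (L * (cvar S * s)) := by
      rw [abs_mul, abs_mul, abs_of_nonneg hm0, abs_of_pos (by norm_num : (0:ℝ) < 3)]
      have : m * |A m F (fun y => F1 y * F2 y) s x - A m F F1 s x * A m F F2 s x| ≤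
          1 * (L * (cvar S * s)) := mul_le_mul hm1 cov (abs_nonneg _) zero_le_one
      linarith
    have t2 : |m ^ 2 * (A m F (fun y => F1 y ^ 3) s x
          - 3 * A m F (fun y => F1 y * F1 y) s x * A m F F1 s x + 2 * A m F F1 s x ^ 3)| ≤
        2 * (cvar S * s) := by
      rw [abs_mul, abs_of_nonneg (sq_nonneg m)]
      have : m ^ 2 * |A m F (fun y => F1 y ^ 3) s x
          - 3 * A m F (fun y => F1 y * F1 y) s x * A m F F1 s x + 2 * A m F F1 s x ^ 3| ≤
          1 * (2 * (cvar S * s)) := mul_le_mul hm2 cum (abs_nonneg _) zero_le_one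
      linarith
    have t3 := abs_add_le (A m F F3 s x
        + 3 * m * (A m F (fun y => F1 y * F2 y) s x - A m F F1 s x * A m F F2 s x))
      (m ^ 2 * (A m F (fun y => F1 y ^ 3) s x
          - 3 * A m F (fun y => F1 y * F1 y) s x * A m F F1 s x + 2 * A m F F1 s x ^ 3))
    have t4 := abs_add_le (A m F F3 s x)
      (3 * m * (A m F (fun y => F1 y * F2 y) s x - A m F F1 s x * A m F F2 s x))
    have t5 : L + 3 * (L * (cvar S * s)) + 2 * (cvar S * s) ≤ L * (1 + 5 * cvar S * s) := by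
      have : cvar S * s ≤ L * (cvar S * s) := le_mul_of_one_le_left hcs hL
      nlinarith
    have t6 : L * (1 + 5 * cvar S * s) ≤ L * Real.exp (5 * cvar S * s) := by
      have := Real.add_one_le_exp (5 * cvar S * s)
      exact mul_le_mul_of_nonneg_left (by linarith) L0.le
    linarith

/-- the time dependent bound of the third derivative -/
noncomputable def Lt (B t : ℝ) : ℝ := 2 * Real.exp (5 * cvar (2 * B) * (2 * B * (1 - t)))

lemma one_le_Lt {B t : ℝ} (hB : 0 ≤ B) (ht : t ≤ 1) : 1 ≤ Lt B t := by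
  unfold Lt
  have hc := cvar_nonneg (2 * B)
  have : 0 ≤ 1 - t := by linarith
  have := Real.one_le_exp (x := 5 * cvar (2 * B) * (2 * B * (1 - t))) (by positivity)
  linarith

lemma Lt_le {B t : ℝ} (hB : 0 ≤ B) (ht : 0 ≤ t) : Lt B t ≤ Lt B 0 := by
  unfold Lt
  have hc := cvar_nonneg (2 * B)
  gcongr

/-- solutions on `[a,1]` with uniform bounds -/
def Good (B : ℝ) (ζ : ℝ → ℝ) (a : ℝ) (f : ℝ → ℝ → ℝ) : Prop :=
  (∃ C f1 f2 f3, SolOn B ζ a C f f1 f2 f3) ∧
  ∀ t ∈ Icc a 1, ∃ F1 F2 F3, Nice2 (Lt B t) (f t) F1 F2 F3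

lemma good_one (B : ℝ) (ζ : ℝ → ℝ) : Good B ζ 1 (fun _ => lc) := by
  refine ⟨⟨_, _, _, _, solOn_one B ζ⟩, fun t ht =>
    ⟨Real.tanh, fun x => sc x ^ 2, fun x => -(2 * sc x ^ 2 * Real.tanh x), ?_⟩⟩
  have : t = 1 := le_antisymm ht.2 ht.1
  subst this
  have e : Lt B 1 = 2 := by unfold Lt; simp
  rw [e]
  exact nice2_lc

lemma Good.step {B a : ℝ} {ζ : ℝ → ℝ} {f : ℝ → ℝ → ℝ} (h : Good B ζ a f) (hB : 0 ≤ B)
    (ha : a ≤ 1) {a' m : ℝ} (ha0 : 0 ≤ a') (ha' : a' ≤ a) (hm0 : 0 ≤ m) (hm1 : m ≤ 1) :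
    Good B (fun t => if t ≤ a then m else ζ t) a'
      (fun t x => if t ≤ a then E m (2 * B * (a - t)) (f a) x else f t x) := by
  obtain ⟨⟨C, f1, f2, f3, hS⟩, hN⟩ := h
  refine ⟨hS.step hB ha ha' hm0 hm1, fun t ht => ?_⟩
  by_cases h1 : t ≤ a
  · obtain ⟨F1, F2, F3, hF⟩ := hN a ⟨le_refl _, ha⟩
    simp only [if_pos h1]
    have h2 : 0 ≤ 2 * B * (a - t) := by
      have : 0 ≤ a - t := by linarith
      positivity
    have h3 : 2 * B * (a - t) ≤ 2 * B := by
      have : a - t ≤ 1 := by linarith [ht.1]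
      nlinarith
    have h4 := hF.evol (one_le_Lt hB ha) hm0 hm1 h2 h3
    have e : Lt B a * Real.exp (5 * cvar (2 * B) * (2 * B * (a - t))) = Lt B t := by
      unfold Lt
      rw [mul_assoc, ← Real.exp_add]
      ring_nf
    rw [e] at h4
    exact ⟨_, _, _, h4⟩
  · simp only [if_neg h1]
    push Not at h1
    exact hN t ⟨h1.le, ht.2⟩

lemma SolOn.congr {B a C : ℝ} {ζ ζ' : ℝ → ℝ} {f f1 f2 f3 : ℝ → ℝ → ℝ}
    (h : SolOn B ζ a C f f1 f2 f3) (ha : a ≤ 1) (hζ : ∀ t ∈ Ioc a 1, ζ t = ζ' t) :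
    SolOn B ζ' a C f f1 f2 f3 := by
  refine ⟨h.terminal, h.nice, h.time1, h.time2, fun x => ?_, fun t ht x => ?_⟩
  · have h1 := h.int x
    rw [intervalIntegrable_iff, uIoc_of_le ha] at h1 ⊢
    refine h1.congr_fun (fun s hs => ?_) measurableSet_Ioc
    simp only
    rw [hζ s hs]
  · rw [h.pde t ht x, intervalIntegral.integral_of_le ht.2, intervalIntegral.integral_of_le ht.2]
    congr 2
    refine setIntegral_congr_fun measurableSet_Ioc (fun s hs => ?_)
    rw [hζ s ⟨lt_of_le_of_lt ht.1 hs.1, hs.2⟩]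

lemma Good.congr {B a : ℝ} {ζ ζ' : ℝ → ℝ} {f : ℝ → ℝ → ℝ} (h : Good B ζ a f) (ha : a ≤ 1)
    (hζ : ∀ t ∈ Ioc a 1, ζ t = ζ' t) : Good B ζ' a f := by
  obtain ⟨⟨C, f1, f2, f3, hS⟩, hN⟩ := h
  exact ⟨⟨C, f1, f2, f3, hS.congr ha hζ⟩, hN⟩

/-- the discretised parameter -/
noncomputable def disc (ζ : ℝ → ℝ) (n : ℕ) (t : ℝ) : ℝ := ζ (⌈((n:ℝ) + 1) * t⌉ / ((n:ℝ) + 1))

/-- solutions for the discretised parameter -/
lemma exists_good (B : ℝ) (hB : 0 ≤ B) {ζ : ℝ → ℝ} (hζ : ∀ t, 0 ≤ ζ t ∧ ζ t ≤ 1) (n : ℕ) :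
    ∃ f, Good B (disc ζ n) 0 f := by
  have hn : (0:ℝ) < (n:ℝ) + 1 := by positivity
  have key : ∀ k : ℕ, k ≤ n + 1 → ∃ f, Good B (disc ζ n) (1 - k / ((n:ℝ) + 1)) f := by
    intro k
    induction k with
    | zero =>
      intro _
      simp only [Nat.cast_zero, zero_div, sub_zero]
      exact ⟨_, good_one B _⟩
    | succ k ih =>
      intro hk
      obtain ⟨f, hf⟩ := ih (by omega)
      have hk' : (k:ℝ) + 1 ≤ (n:ℝ) + 1 := by exact_mod_cast hk
      have h1 : (1:ℝ) - k / ((n:ℝ) + 1) ≤ 1 := by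
        have : 0 ≤ (k:ℝ) / ((n:ℝ) + 1) := by positivity
        linarith
      have h2 : (0:ℝ) ≤ 1 - (k + 1 : ℕ) / ((n:ℝ) + 1) := by
        push_cast
        rw [sub_nonneg, div_le_one hn]
        exact hk'
      have h3 : (1:ℝ) - (k + 1 : ℕ) / ((n:ℝ) + 1) ≤ 1 - k / ((n:ℝ) + 1) := by
        push_cast
        have : (k:ℝ) / ((n:ℝ) + 1) ≤ (k + 1) / ((n:ℝ) + 1) := by gcongr; linarith
        linarith
      have h4 := hf.step hB h1 h2 h3 (hζ (1 - k / ((n:ℝ) + 1))).1 (hζ (1 - k / ((n:ℝ) + 1))).2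
      refine ⟨_, h4.congr (h3.trans h1) (fun t ht => ?_)⟩
      by_cases h5 : t ≤ 1 - k / ((n:ℝ) + 1)
      · simp only [if_pos h5]
        unfold disc
        congr 1
        -- the ceiling is `n + 1 - k`
        have h6 : ⌈((n:ℝ) + 1) * t⌉ = (n:ℤ) + 1 - k := by
          rw [Int.ceil_eq_iff]
          push_cast
          constructor
          · have := ht.1
            push_cast at this
            have h7 : ((n:ℝ) + 1) * (1 - (k + 1) / ((n:ℝ) + 1)) < ((n:ℝ) + 1) * t := by gcongr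
            have h8 : ((n:ℝ) + 1) * (1 - (k + 1) / ((n:ℝ) + 1)) = (n:ℝ) + 1 - k - 1 := by
              field_simp
              ring
            linarith
          · have h7 : ((n:ℝ) + 1) * t ≤ ((n:ℝ) + 1) * (1 - k / ((n:ℝ) + 1)) := by gcongr
            have h8 : ((n:ℝ) + 1) * (1 - k / ((n:ℝ) + 1)) = (n:ℝ) + 1 - k := by
              field_simp
            linarith
        rw [h6]
        push_cast
        field_simp
      · simp only [if_neg h5]
  obtain ⟨f, hf⟩ := key (n + 1) (le_refl _)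
  refine ⟨f, ?_⟩
  have e : (1:ℝ) - (n + 1 : ℕ) / ((n:ℝ) + 1) = 0 := by
    push_cast
    rw [div_self hn.ne', sub_self]
  rwa [e] at hf

end Pool.Agent.ATLine
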