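import Mathlib
import Pool.Agent.Lib.ATLine.Uniform
import Pool.Agent.Lib.ATLine.Point

/-!
# Well-posedness of the Parisi equation
-/

open MeasureTheory ProbabilityTheory Filter Topology Set

namespace Pool.Agent.ATLine

/-! ### Stability -/

/-- Gaussian averages of a function with derivative bounded by one are Lipschitz -/
lemma P_lip {F : ℝ → ℝ} (hF : ExpBdd F) (hL : ∀ x y, |F y - F x| ≤ |y - x|) (s x y : ℝ) :
    P s F x ≤ P s F y + |y - x| := by
  have h1 : Integrable (fun z => F (x + √s * z)) gam := hF.integrable_comp _ _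
  have h2 : Integrable (fun z => F (y + √s * z) + |y - x|) gam :=
    (hF.integrable_comp _ _).add (integrable_const _)
  have h3 := integral_mono h1 h2 (fun z => by
    have := hL (y + √s * z) (x + √s * z)
    have e : x + √s * z - (y + √s * z) = x - y := by ring
    rw [e] at this
    have h4 := le_abs_self (F (x + √s * z) - F (y + √s * z))
    have h5 : |x - y| = |y - x| := abs_sub_comm x y
    simp only
    linarith)
  rw [integral_add (hF.integrable_comp _ _) (integrable_const _)] at h3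
  simpa [P] using h3

/-- stability of the solutions with respect to the parameter -/
lemma stability {β : ℝ} {ζ ξ : ℝ → ℝ} {f g : ℝ → ℝ → ℝ} (hf : IsParisiSolution β ζ f)
    (hg : IsParisiSolution β ξ g) (hζ : IntervalIntegrable ζ volume 0 1)
    (hζ01 : ∀ s ∈ Icc (0:ℝ) 1, 0 ≤ ζ s ∧ ζ s ≤ 1) (hξ : IntervalIntegrable ξ volume 0 1)
    (hξ01 : ∀ s ∈ Icc (0:ℝ) 1, 0 ≤ ξ s ∧ ξ s ≤ 1)
    (hf1 : ∀ t ∈ Icc (0:ℝ) 1, ∀ x, |deriv (f t) x| ≤ 1)
    (hg1 : ∀ t ∈ Icc (0:ℝ) 1, ∀ x, |deriv (g t) x| ≤ 1) {t : ℝ} (ht : t ∈ Icc (0:ℝ) 1) (y : ℝ) :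
    f t y - g t y ≤ 3 * β ^ 2 * ∫ s in t..1, |ζ s - ξ s| := by
  have hI : ∀ a ∈ Icc (0:ℝ) 1, ∀ b ∈ Icc (0:ℝ) 1, IntervalIntegrable ζ volume a b ∧
      IntervalIntegrable ξ volume a b := by
    intro a ha b hb
    constructor
    · refine hζ.mono_set ?_
      rw [uIcc_of_le zero_le_one]
      exact uIcc_subset_Icc ha hb
    · refine hξ.mono_set ?_
      rw [uIcc_of_le zero_le_one]
      exact uIcc_subset_Icc ha hb
  have key : ∀ e > 0, ∀ y, f t y - g t y ≤ 3 * β ^ 2 * (∫ s in t..1, |ζ s - ξ s|) + e := by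
    intro e he
    refine backward (a := t) (b := 1) ht.2
      (fun t e => ∀ y, f t y - g t y ≤ 3 * β ^ 2 * (∫ s in t..1, |ζ s - ξ s|) + e)
      (fun t e e' h1 h2 y => (h2 y).trans (by linarith)) (fun e he y => ?_) ?_ he
    · rw [hf.terminal, hg.terminal, intervalIntegral.integral_same]; linarith
    · intro ε hε
      obtain ⟨δ₁, hδ₁, h1⟩ := hf.control hζ hζ01 zero_le_one (half_pos hε)
      obtain ⟨δ₂, hδ₂, h2⟩ := hg.control hξ hξ01 zero_le_one (half_pos hε)
      refine ⟨min δ₁ δ₂, lt_min hδ₁ hδ₂, ?_⟩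
      intro s s' hs hss' hs' hd e he hS y
      have ms : s ∈ Icc (0:ℝ) 1 := ⟨ht.1.trans hs, hss'.trans hs'⟩
      have ms' : s' ∈ Icc (0:ℝ) 1 := ⟨ms.1.trans hss', hs'⟩
      set v := deriv (f s') y with hv
      have hv1 : |v| ≤ 1 := hf1 s' ms' y
      have g1 := h1 s ms s' ms' hss' (hd.trans (min_le_left _ _)) y v hv1
      have g2 := h2 s ms s' ms' hss' (hd.trans (min_le_right _ _)) y v hv1
      have hsub : Icc s s' ⊆ Icc (0:ℝ) 1 := Icc_subset_Icc ms.1 ms'.2
      set I := ∫ u in s..s', ζ u with hIdef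
      set J := ∫ u in s..s', ξ u with hJdef
      have hJ0 : 0 ≤ J :=
        intervalIntegral.integral_nonneg hss' (fun u hu => (hξ01 u (hsub hu)).1)
      rw [← hv, sub_self] at g1
      have b1 := hf.expBdd ms'
      have b2 := hg.expBdd ms'
      obtain ⟨iζ, iξ⟩ := hI s ms s' ms'
      obtain ⟨iζ', iξ'⟩ := hI s' ms' 1 ⟨zero_le_one, le_refl _⟩
      have iabs : IntervalIntegrable (fun u => |ζ u - ξ u|) volume s s' := (iζ.sub iξ).abs
      have iabs' : IntervalIntegrable (fun u => |ζ u - ξ u|) volume s' 1 := (iζ'.sub iξ').abs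
      have hIJ : |I - J| ≤ ∫ u in s..s', |ζ u - ξ u| := by
        rw [hIdef, hJdef, ← intervalIntegral.integral_sub iζ iξ]
        exact intervalIntegral.abs_integral_le_integral_abs hss'
      set D := ∫ u in s..s', |ζ u - ξ u| with hD
      rw [← intervalIntegral.integral_add_adjacent_intervals iabs iabs']
      -- compare the two Gaussian averages
      set c := 2 * β ^ 2 * (s' - s) with hc
      have g3 : P c (f s') (y + 2 * β ^ 2 * v * I) - P c (g s') (y + 2 * β ^ 2 * v * I) ≤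
          3 * β ^ 2 * (∫ u in s'..1, |ζ u - ξ u|) + e := by
        rw [← P_sub b1 b2]
        have := P_mono (b1.sub b2) (ExpBdd.const _) hS c (y + 2 * β ^ 2 * v * I)
        rwa [P_const] at this
      have hlip : ∀ x y, |g s' y - g s' x| ≤ |y - x| := by
        intro x y
        have := lip_of_deriv (fun z => (hg.diff s' ms' z).hasDerivAt) (hg1 s' ms') x y
        rwa [one_mul] at this
      have g4 := P_lip b2 hlip c (y + 2 * β ^ 2 * v * I) (y + 2 * β ^ 2 * v * J)
      have g5 : |y + 2 * β ^ 2 * v * J - (y + 2 * β ^ 2 * v * I)| ≤ 2 * β ^ 2 * D := by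
        have e1 : y + 2 * β ^ 2 * v * J - (y + 2 * β ^ 2 * v * I) =
            2 * β ^ 2 * (v * (J - I)) := by ring
        rw [e1, abs_mul, abs_of_nonneg (by positivity : 0 ≤ 2 * β ^ 2), abs_mul]
        have : |v| * |J - I| ≤ 1 * D := by
          refine mul_le_mul hv1 ?_ (abs_nonneg _) zero_le_one
          rw [abs_sub_comm]; exact hIJ
        rw [one_mul] at this
        gcongr
      have g6 : β ^ 2 * v ^ 2 * (J - I) ≤ β ^ 2 * D := by
        have hv2 : v ^ 2 ≤ 1 := by
          rw [← sq_abs]; exact pow_le_one₀ (abs_nonneg _) hv1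
        have h7 : J - I ≤ D := by
          have := (abs_le.1 hIJ).1
          linarith
        have h8 : 0 ≤ D := (abs_nonneg _).trans hIJ
        have h9 : v ^ 2 * (J - I) ≤ D := by
          calc v ^ 2 * (J - I) ≤ v ^ 2 * D := by gcongr
            _ ≤ 1 * D := by gcongr
            _ = D := one_mul _
        rw [mul_assoc]
        gcongr
      have g7 : 0 ≤ β ^ 2 * J * (deriv (g s') y - v) ^ 2 := by positivity
      have g8 := (abs_le.1 g1).2
      have g9 := (abs_le.1 g2).1
      have e2 : 3 * β ^ 2 * (D + ∫ u in s'..1, |ζ u - ξ u|) =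
          3 * β ^ 2 * D + 3 * β ^ 2 * ∫ u in s'..1, |ζ u - ξ u| := by ring
      rw [e2]
      nlinarith [g3, g4, g5, g6, g7, g8, g9]
  by_contra hcon
  push Not at hcon
  have := key ((f t y - g t y - 3 * β ^ 2 * ∫ s in t..1, |ζ s - ξ s|) / 2) (by linarith) y
  linarith

/-! ### Interpolation -/

lemma interp {w : ℝ → ℝ} (h1 : Differentiable ℝ w) (h2 : Differentiable ℝ (deriv w)) {ε C : ℝ}
    (hC : 0 < C) (hw : ∀ x, |w x| ≤ ε) (hw2 : ∀ x, |deriv (deriv w) x| ≤ C) (x : ℝ) :
    |deriv w x| ≤ 2 * √(C * ε) := by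
  have hε : 0 ≤ ε := (abs_nonneg _).trans (hw 0)
  have key : ∀ r : ℝ, r * deriv w x ≤ 2 * ε + C * r ^ 2 / 2 := by
    intro r
    have := taylor_lower h1 h2 (y := x) (u := r) (K := -C) (fun z _ => (abs_le.1 (hw2 z)).1)
    have k1 := (abs_le.1 (hw (x + r))).2
    have k2 := (abs_le.1 (hw x)).1
    linarith
  have k := key (deriv w x / C)
  have e1 : deriv w x / C * deriv w x = deriv w x ^ 2 / C := by ring
  have e2 : C * (deriv w x / C) ^ 2 / 2 = deriv w x ^ 2 / C / 2 := by
    field_simp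
  rw [e1, e2] at k
  have k3 : deriv w x ^ 2 / C ≤ 4 * ε := by linarith
  rw [div_le_iff₀ hC] at k3
  have k4 : deriv w x ^ 2 ≤ (2 * √(C * ε)) ^ 2 := by
    rw [mul_pow, Real.sq_sqrt (by positivity)]
    linarith
  exact abs_le_of_sq_le_sq k4 (by positivity)

lemma sqrt_add_le {a b : ℝ} (ha : 0 ≤ a) (hb : 0 ≤ b) : √(a + b) ≤ √a + √b := by
  rw [Real.sqrt_le_left (by positivity)]
  nlinarith [Real.sq_sqrt ha, Real.sq_sqrt hb, mul_nonneg (Real.sqrt_nonneg a) (Real.sqrt_nonneg b)]

/-- a uniform Cauchy criterion -/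
lemma exists_limit {g : ℕ → ℝ → ℝ → ℝ} {e : ℕ → ℝ} (he : Tendsto e atTop (𝓝 0))
    (hg : ∀ n m, ∀ t ∈ Icc (0:ℝ) 1, ∀ x, |g n t x - g m t x| ≤ e n + e m) :
    ∃ G : ℝ → ℝ → ℝ, ∀ t ∈ Icc (0:ℝ) 1, ∀ x,
      Tendsto (fun n => g n t x) atTop (𝓝 (G t x)) ∧ ∀ n, |g n t x - G t x| ≤ e n := by
  have hex : ∀ t x, ∃ L : ℝ, t ∈ Icc (0:ℝ) 1 → Tendsto (fun n => g n t x) atTop (𝓝 L) := by
    intro t x
    by_cases ht : t ∈ Icc (0:ℝ) 1
    · have hc : CauchySeq (fun n => g n t x) := by
        rw [Metric.cauchySeq_iff]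
        intro ε hε
        have h1 := he.eventually (gt_mem_nhds (half_pos hε))
        obtain ⟨N, hN⟩ := eventually_atTop.1 h1
        refine ⟨N, fun m hm n hn => ?_⟩
        rw [Real.dist_eq]
        have := hg m n t ht x
        have := hN m hm
        have := hN n hn
        linarith
      obtain ⟨L, hL⟩ := cauchySeq_tendsto_of_complete hc
      exact ⟨L, fun _ => hL⟩
    · exact ⟨0, fun h => absurd h ht⟩
  choose G hG using hex
  refine ⟨G, fun t ht x => ⟨hG t x ht, fun n => ?_⟩⟩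
  have h1 : Tendsto (fun m => |g n t x - g m t x|) atTop (𝓝 (|g n t x - G t x|)) :=
    (tendsto_const_nhds.sub (hG t x ht)).abs
  have h2 : Tendsto (fun m => e n + e m) atTop (𝓝 (e n + 0)) := tendsto_const_nhds.add he
  rw [add_zero] at h2
  exact le_of_tendsto_of_tendsto' h1 h2 (fun m => hg n m t ht x)

/-- uniform limits of uniformly continuous functions -/
lemma unif_limit {g : ℕ → ℝ → ℝ → ℝ} {G : ℝ → ℝ → ℝ} {e : ℕ → ℝ} (he : Tendsto e atTop (𝓝 0))
    (hg : ∀ t ∈ Icc (0:ℝ) 1, ∀ x n, |g n t x - G t x| ≤ e n)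
    (hu : ∀ n, UniformContinuousOn (fun p : ℝ × ℝ => g n p.1 p.2) (Icc 0 1 ×ˢ univ)) :
    UniformContinuousOn (fun p : ℝ × ℝ => G p.1 p.2) (Icc 0 1 ×ˢ univ) := by
  rw [Metric.uniformContinuousOn_iff]
  intro ε hε
  have h1 := he.eventually (gt_mem_nhds (by positivity : (0:ℝ) < ε / 3))
  obtain ⟨n, hn⟩ := h1.exists
  obtain ⟨δ, hδ, h2⟩ := Metric.uniformContinuousOn_iff.1 (hu n) (ε / 3) (by positivity)
  refine ⟨δ, hδ, fun p hp p' hp' hd => ?_⟩
  have h3 := h2 p hp p' hp' hd
  have h4 := hg p.1 hp.1 p.2 n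
  have h5 := hg p'.1 hp'.1 p'.2 n
  simp only [Real.dist_eq] at h3 ⊢
  rw [abs_sub_comm] at h4
  have e1 : G p.1 p.2 - G p'.1 p'.2 = (G p.1 p.2 - g n p.1 p.2) +
    ((g n p.1 p.2 - g n p'.1 p'.2) + (g n p'.1 p'.2 - G p'.1 p'.2)) := by ring
  rw [e1]
  have h6 := abs_add_le (G p.1 p.2 - g n p.1 p.2)
    ((g n p.1 p.2 - g n p'.1 p'.2) + (g n p'.1 p'.2 - G p'.1 p'.2))
  have h7 := abs_add_le (g n p.1 p.2 - g n p'.1 p'.2) (g n p'.1 p'.2 - G p'.1 p'.2)
  linarith

/-! ### Existence -/

/-- existence of solutions for right-continuous parameters -/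
theorem exists_solution (β : ℝ) {ζ : ℝ → ℝ} (hmono : Monotone ζ) (hζ : ∀ t, 0 ≤ ζ t ∧ ζ t ≤ 1)
    (hrc : ∀ t, ContinuousWithinAt ζ (Ici t) t) : ∃ f, IsParisiSolution β ζ f := by
  set B := β ^ 2 with hB
  have hB0 : 0 ≤ B := sq_nonneg β
  -- the approximations
  have hex := fun n => exists_good B hB0 hζ n
  choose F hF using hex
  have hsol : ∀ n, IsParisiSolution β (disc ζ n) (F n) := by
    intro n
    obtain ⟨⟨C, f1, f2, f3, hS⟩, _⟩ := hF n
    exact hS.isParisiSolution
  have hdmono : ∀ n, Monotone (disc ζ n) := by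
    intro n a b hab
    unfold disc
    apply hmono
    have h1 : (⌈((n:ℝ) + 1) * a⌉ : ℝ) ≤ ⌈((n:ℝ) + 1) * b⌉ := by
      have : ⌈((n:ℝ) + 1) * a⌉ ≤ ⌈((n:ℝ) + 1) * b⌉ := Int.ceil_mono (by gcongr)
      exact_mod_cast this
    gcongr
  have hdI : ∀ n, IntervalIntegrable (disc ζ n) volume 0 1 := fun n =>
    (hdmono n).intervalIntegrable
  have hζI : IntervalIntegrable ζ volume 0 1 := hmono.intervalIntegrable
  have hd01 : ∀ n, ∀ s ∈ Icc (0:ℝ) 1, 0 ≤ disc ζ n s ∧ disc ζ n s ≤ 1 := fun n s _ => hζ _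
  -- pointwise convergence of the discretised parameter
  have hdisc : ∀ t, Tendsto (fun n => disc ζ n t) atTop (𝓝 (ζ t)) := by
    intro t
    have h1 : Tendsto (fun n : ℕ => (⌈((n:ℝ) + 1) * t⌉ : ℝ) / ((n:ℝ) + 1)) atTop (𝓝[Ici t] t) := by
      refine tendsto_nhdsWithin_iff.2 ⟨?_, Eventually.of_forall fun n => ?_⟩
      · have h2 : Tendsto (fun n : ℕ => t + 1 / ((n:ℝ) + 1)) atTop (𝓝 (t + 0)) :=
          tendsto_const_nhds.add tendsto_one_div_add_atTop_nhds_zero_nat
        rw [add_zero] at h2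
        refine tendsto_of_tendsto_of_tendsto_of_le_of_le tendsto_const_nhds h2 (fun n => ?_)
          (fun n => ?_)
        · have hn : (0:ℝ) < (n:ℝ) + 1 := by positivity
          simp only
          rw [le_div_iff₀ hn]
          have := Int.le_ceil (((n:ℝ) + 1) * t)
          linarith
        · have hn : (0:ℝ) < (n:ℝ) + 1 := by positivity
          simp only
          rw [div_le_iff₀ hn]
          have := (Int.ceil_lt_add_one (((n:ℝ) + 1) * t)).le
          have e : (t + 1 / ((n:ℝ) + 1)) * ((n:ℝ) + 1) = ((n:ℝ) + 1) * t + 1 := by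
            field_simp
          linarith
      · have hn : (0:ℝ) < (n:ℝ) + 1 := by positivity
        rw [mem_Ici, le_div_iff₀ hn]
        have := Int.le_ceil (((n:ℝ) + 1) * t)
        linarith
    exact (hrc t).tendsto.comp h1
  -- the errors
  set e0 : ℕ → ℝ := fun n => 3 * B * ∫ s in (0:ℝ)..1, |disc ζ n s - ζ s| with he0
  have he0nn : ∀ n, 0 ≤ e0 n := fun n =>
    mul_nonneg (by positivity) (intervalIntegral.integral_nonneg zero_le_one fun s _ => abs_nonneg _)
  have he0t : Tendsto e0 atTop (𝓝 0) := by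
    have h1 : Tendsto (fun n => ∫ s in (0:ℝ)..1, |disc ζ n s - ζ s|) atTop
        (𝓝 (∫ s in (0:ℝ)..1, (0:ℝ))) := by
      refine intervalIntegral.tendsto_integral_filter_of_dominated_convergence (fun _ => 1) ?_ ?_
        intervalIntegrable_const ?_
      · refine Eventually.of_forall fun n => ?_
        exact (intervalIntegrable_iff.1 (((hdI n).sub hζI).abs)).aestronglyMeasurable
      · refine Eventually.of_forall fun n => ae_of_all _ fun s _ => ?_
        rw [Real.norm_eq_abs, abs_abs, abs_le]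
        have a1 := hζ s
        have a2 : 0 ≤ disc ζ n s ∧ disc ζ n s ≤ 1 := hζ _
        constructor <;> linarith [a1.1, a1.2, a2.1, a2.2]
      · refine ae_of_all _ fun s _ => ?_
        have := ((hdisc s).sub_const (ζ s)).abs
        rwa [sub_self, abs_zero] at this
    have h2 := h1.const_mul (3 * B)
    simpa using h2
  -- bounds of the derivatives
  set L := Lt B 0 with hL
  have hL1 : 1 ≤ L := one_le_Lt hB0 zero_le_one
  have hder : ∀ n, ∀ t ∈ Icc (0:ℝ) 1, (∀ x, |deriv (F n t) x| ≤ 1) ∧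
      (∀ x, 0 ≤ deriv (deriv (F n t)) x ∧ deriv (deriv (F n t)) x ≤ 1) ∧
      Differentiable ℝ (deriv (deriv (F n t))) ∧
      (∀ x, |deriv (deriv (deriv (F n t))) x| ≤ L) := by
    intro n t ht
    obtain ⟨_, hN⟩ := hF n
    obtain ⟨F1, F2, F3, hn⟩ := hN t ht
    have d1 : deriv (F n t) = F1 := funext fun x => (hn.d1 x).deriv
    have d2 : deriv F1 = F2 := funext fun x => (hn.d2 x).deriv
    have d3 : deriv F2 = F3 := funext fun x => (hn.d3 x).deriv
    rw [d1, d2, d3]
    refine ⟨hn.b1, fun x => ⟨(hn.b2 x).1, ?_⟩, fun x => (hn.d3 x).differentiableAt,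
      fun x => (hn.b3 x).trans (Lt_le hB0 ht.1)⟩
    have := (hn.b2 x).2
    nlinarith [sq_nonneg (F1 x)]
  -- differences of the approximations
  have hc0 : ∀ n m, ∀ t ∈ Icc (0:ℝ) 1, ∀ x, |F n t x - F m t x| ≤ e0 n + e0 m := by
    have hone : ∀ n m, ∀ t ∈ Icc (0:ℝ) 1, ∀ x, F n t x - F m t x ≤ e0 n + e0 m := by
      intro n m t ht x
      have h1 := stability (hsol n) (hsol m) (hdI n) (hd01 n) (hdI m) (hd01 m)
        (fun t ht => (hder n t ht).1) (fun t ht => (hder m t ht).1) ht x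
      have i1 : IntervalIntegrable (fun s => |disc ζ n s - disc ζ m s|) volume 0 1 :=
        ((hdI n).sub (hdI m)).abs
      have i2 : IntervalIntegrable (fun s => |disc ζ n s - ζ s| + |disc ζ m s - ζ s|) volume 0 1 :=
        (((hdI n).sub hζI).abs).add (((hdI m).sub hζI).abs)
      have h2 : ∫ s in t..1, |disc ζ n s - disc ζ m s| ≤
          ∫ s in (0:ℝ)..1, |disc ζ n s - disc ζ m s| := by
        refine intervalIntegral.integral_mono_interval ht.1 ht.2 (le_refl _)
          (ae_of_all _ fun s => abs_nonneg _) i1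
      have h3 : ∫ s in (0:ℝ)..1, |disc ζ n s - disc ζ m s| ≤
          ∫ s in (0:ℝ)..1, (|disc ζ n s - ζ s| + |disc ζ m s - ζ s|) := by
        refine intervalIntegral.integral_mono_on zero_le_one i1 i2 (fun s _ => ?_)
        have := abs_sub_le (disc ζ n s) (ζ s) (disc ζ m s)
        rw [abs_sub_comm (ζ s)] at this
        exact this
      rw [intervalIntegral.integral_add ((hdI n).sub hζI).abs ((hdI m).sub hζI).abs] at h3
      have h4 := mul_le_mul_of_nonneg_left (h2.trans h3) (by positivity : 0 ≤ 3 * B)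
      rw [mul_add] at h4
      exact h1.trans h4
    intro n m t ht x
    rw [abs_le]
    constructor
    · have := hone m n t ht x
      linarith
    · exact hone n m t ht x
  set e1 : ℕ → ℝ := fun n => 2 * √(e0 n) with he1
  have he1nn : ∀ n, 0 ≤ e1 n := fun n => by positivity
  have he1t : Tendsto e1 atTop (𝓝 0) := by
    have := (Real.continuous_sqrt.tendsto 0).comp he0t
    rw [Real.sqrt_zero] at this
    simpa using this.const_mul 2
  have hdsub : ∀ n m, ∀ t ∈ Icc (0:ℝ) 1, deriv (fun x => F n t x - F m t x) =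
      fun x => deriv (F n t) x - deriv (F m t) x := by
    intro n m t ht
    funext x
    exact deriv_fun_sub ((hsol n).diff t ht x) ((hsol m).diff t ht x)
  have hdsub2 : ∀ n m, ∀ t ∈ Icc (0:ℝ) 1, deriv (fun x => deriv (F n t) x - deriv (F m t) x) =
      fun x => deriv (deriv (F n t)) x - deriv (deriv (F m t)) x := by
    intro n m t ht
    funext x
    exact deriv_fun_sub ((hsol n).diff2 t ht x) ((hsol m).diff2 t ht x)
  have hdsub3 : ∀ n m, ∀ t ∈ Icc (0:ℝ) 1,
      deriv (fun x => deriv (deriv (F n t)) x - deriv (deriv (F m t)) x) =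
      fun x => deriv (deriv (deriv (F n t))) x - deriv (deriv (deriv (F m t))) x := by
    intro n m t ht
    funext x
    exact deriv_fun_sub ((hder n t ht).2.2.1 x) ((hder m t ht).2.2.1 x)
  have hc1 : ∀ n m, ∀ t ∈ Icc (0:ℝ) 1, ∀ x,
      |deriv (F n t) x - deriv (F m t) x| ≤ e1 n + e1 m := by
    intro n m t ht x
    have h1 := interp (w := fun x => F n t x - F m t x) (ε := e0 n + e0 m) (C := 1)
      (fun x => ((hsol n).diff t ht x).sub ((hsol m).diff t ht x))
      (by rw [hdsub n m t ht]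
          exact fun x => ((hsol n).diff2 t ht x).sub ((hsol m).diff2 t ht x))
      one_pos (hc0 n m t ht) (by
        rw [hdsub n m t ht, hdsub2 n m t ht]
        intro x
        have a1 := (hder n t ht).2.1 x
        have a2 := (hder m t ht).2.1 x
        rw [abs_le]
        constructor <;> linarith [a1.1, a1.2, a2.1, a2.2]) x
    rw [hdsub n m t ht, one_mul] at h1
    have h2 := sqrt_add_le (he0nn n) (he0nn m)
    simp only [he1]
    linarith
  set e2 : ℕ → ℝ := fun n => 2 * √(2 * L * e1 n) with he2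
  have he2t : Tendsto e2 atTop (𝓝 0) := by
    have h1 : Tendsto (fun n => 2 * L * e1 n) atTop (𝓝 0) := by
      simpa using he1t.const_mul (2 * L)
    have := (Real.continuous_sqrt.tendsto 0).comp h1
    rw [Real.sqrt_zero] at this
    simpa using this.const_mul 2
  have hc2 : ∀ n m, ∀ t ∈ Icc (0:ℝ) 1, ∀ x,
      |deriv (deriv (F n t)) x - deriv (deriv (F m t)) x| ≤ e2 n + e2 m := by
    intro n m t ht x
    have h1 := interp (w := fun x => deriv (F n t) x - deriv (F m t) x) (ε := e1 n + e1 m)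
      (C := 2 * L)
      (fun x => ((hsol n).diff2 t ht x).sub ((hsol m).diff2 t ht x))
      (by rw [hdsub2 n m t ht]
          exact fun x => ((hder n t ht).2.2.1 x).sub ((hder m t ht).2.2.1 x))
      (by linarith) (hc1 n m t ht) (by
        rw [hdsub2 n m t ht, hdsub3 n m t ht]
        intro x
        have a1 := (hder n t ht).2.2.2 x
        have a2 := (hder m t ht).2.2.2 x
        refine (abs_sub _ _).trans ?_
        linarith) x
    rw [hdsub2 n m t ht, mul_add] at h1
    have h2 := sqrt_add_le (a := 2 * L * e1 n) (b := 2 * L * e1 m)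
      (mul_nonneg (by linarith) (he1nn n)) (mul_nonneg (by linarith) (he1nn m))
    simp only [he2]
    linarith
  -- the limits
  obtain ⟨f, hf⟩ := exists_limit he0t hc0
  obtain ⟨p, hp⟩ := exists_limit (g := fun n t x => deriv (F n t) x) he1t hc1
  obtain ⟨q, hq⟩ := exists_limit (g := fun n t x => deriv (deriv (F n t)) x) he2t hc2
  have hunif : ∀ {g : ℕ → ℝ → ℝ} {G : ℝ → ℝ} {e : ℕ → ℝ}, Tendsto e atTop (𝓝 0) →
      (∀ x n, |g n x - G x| ≤ e n) → TendstoUniformly g G atTop := by
    intro g G e he hg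
    rw [Metric.tendstoUniformly_iff]
    intro ε hε
    filter_upwards [he.eventually (gt_mem_nhds hε)] with n hn x
    rw [Real.dist_eq, abs_sub_comm]
    exact lt_of_le_of_lt (hg x n) hn
  have hdf : ∀ t ∈ Icc (0:ℝ) 1, ∀ x, HasDerivAt (f t) (p t x) x := by
    intro t ht x
    exact hasDerivAt_of_tendstoUniformly (f := fun n => F n t) (f' := fun n => deriv (F n t))
      (hunif he1t (fun x n => (hp t ht x).2 n))
      (Eventually.of_forall fun n x => ((hsol n).diff t ht x).hasDerivAt)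
      (fun x => (hf t ht x).1) x
  have hdp : ∀ t ∈ Icc (0:ℝ) 1, ∀ x, HasDerivAt (p t) (q t x) x := by
    intro t ht x
    exact hasDerivAt_of_tendstoUniformly (f := fun n => deriv (F n t))
      (f' := fun n => deriv (deriv (F n t)))
      (hunif he2t (fun x n => (hq t ht x).2 n))
      (Eventually.of_forall fun n x => ((hsol n).diff2 t ht x).hasDerivAt)
      (fun x => (hp t ht x).1) x
  have ef : ∀ t ∈ Icc (0:ℝ) 1, deriv (f t) = p t := fun t ht =>
    funext fun x => (hdf t ht x).deriv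
  have ep : ∀ t ∈ Icc (0:ℝ) 1, deriv (p t) = q t := fun t ht =>
    funext fun x => (hdp t ht x).deriv
  have bp : ∀ t ∈ Icc (0:ℝ) 1, ∀ x, |p t x| ≤ 1 := fun t ht x =>
    le_of_tendsto (hp t ht x).1.abs (Eventually.of_forall fun n => (hder n t ht).1 x)
  have bq : ∀ t ∈ Icc (0:ℝ) 1, ∀ x, |q t x| ≤ 1 := fun t ht x =>
    le_of_tendsto (hq t ht x).1.abs (Eventually.of_forall fun n => by
      have := (hder n t ht).2.1 x
      rw [abs_of_nonneg this.1]
      exact this.2)
  have up := unif_limit he1t (g := fun n t x => deriv (F n t) x) (G := p)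
    (fun t ht x => (hp t ht x).2) (fun n => (hsol n).unif)
  have uq := unif_limit he2t (g := fun n t x => deriv (deriv (F n t)) x) (G := q)
    (fun t ht x => (hq t ht x).2) (fun n => (hsol n).unif2)
  have hterm : ∀ x, f 1 x = Real.log (Real.cosh x) := by
    intro x
    refine tendsto_nhds_unique (hf 1 ⟨zero_le_one, le_refl _⟩ x).1 ?_
    have : (fun n => F n 1 x) = fun _ => Real.log (Real.cosh x) :=
      funext fun n => (hsol n).terminal x
    rw [this]
    exact tendsto_const_nhds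
  refine ⟨f, hterm, fun t ht x => (hdf t ht x).differentiableAt, fun t ht x => ?_,
    ⟨1, fun t ht x => ?_⟩, ?_, ?_, fun t ht x => ?_⟩
  · rw [ef t ht]
    exact (hdp t ht x).differentiableAt
  · rw [ef t ht, ep t ht]
    exact ⟨bp t ht x, bq t ht x⟩
  · refine up.congr (fun z hz => ?_)
    simp only
    rw [ef z.1 hz.1]
  · refine uq.congr (fun z hz => ?_)
    simp only
    rw [ef z.1 hz.1, ep z.1 hz.1]
  · -- the equation
    have hlim : Tendsto (fun n => F n 1 x + β ^ 2 * ∫ s in t..1,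
        (deriv (deriv (F n s)) x + disc ζ n s * (deriv (F n s) x) ^ 2)) atTop
        (𝓝 (f 1 x + β ^ 2 * ∫ s in t..1, (q s x + ζ s * p s x ^ 2))) := by
      refine ((hf 1 ⟨zero_le_one, le_refl _⟩ x).1).add (Tendsto.const_mul _ ?_)
      refine intervalIntegral.tendsto_integral_filter_of_dominated_convergence (fun _ => 2) ?_ ?_
        intervalIntegrable_const ?_
      · refine Eventually.of_forall fun n => ?_
        have := ((hsol n).integrable_rhs (hdI n) x).mono_set (c := t) (d := 1) (by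
          rw [uIcc_of_le zero_le_one, uIcc_of_le ht.2]
          exact Icc_subset_Icc ht.1 (le_refl _))
        exact (intervalIntegrable_iff.1 this).aestronglyMeasurable
      · refine Eventually.of_forall fun n => ae_of_all _ fun s hs => ?_
        rw [uIoc_of_le ht.2] at hs
        have ms : s ∈ Icc (0:ℝ) 1 := ⟨ht.1.trans hs.1.le, hs.2⟩
        have a1 := (hder n s ms).1 x
        have a2 := (hder n s ms).2.1 x
        have a3 := hd01 n s ms
        have a4 : (deriv (F n s) x) ^ 2 ≤ 1 := by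
          rw [← sq_abs]; exact pow_le_one₀ (abs_nonneg _) a1
        have a5 : 0 ≤ disc ζ n s * (deriv (F n s) x) ^ 2 := mul_nonneg a3.1 (sq_nonneg _)
        have a6 : disc ζ n s * (deriv (F n s) x) ^ 2 ≤ 1 * 1 :=
          mul_le_mul a3.2 a4 (sq_nonneg _) zero_le_one
        rw [Real.norm_eq_abs, abs_of_nonneg (by linarith [a2.1])]
        linarith [a2.2]
      · refine ae_of_all _ fun s hs => ?_
        rw [uIoc_of_le ht.2] at hs
        have ms : s ∈ Icc (0:ℝ) 1 := ⟨ht.1.trans hs.1.le, hs.2⟩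
        exact ((hq s ms x).1).add ((hdisc s).mul (((hp s ms x).1).pow 2))
    have h1 : Tendsto (fun n => F n t x) atTop
        (𝓝 (f 1 x + β ^ 2 * ∫ s in t..1, (q s x + ζ s * p s x ^ 2))) := by
      refine hlim.congr (fun n => ?_)
      exact ((hsol n).pde t ht x).symm
    have h2 := tendsto_nhds_unique (hf t ht x).1 h1
    rw [h2]
    congr 2
    refine intervalIntegral.integral_congr (fun s hs => ?_)
    rw [uIcc_of_le ht.2] at hs
    have ms : s ∈ Icc (0:ℝ) 1 := ⟨ht.1.trans hs.1, hs.2⟩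
    rw [ef s ms, ep s ms]

/-- **Well-posedness**: for every probability measure `ν` the Parisi equation for the distribution
function of `ν` has a solution, and it is unique on `[0,1] × ℝ`. -/
theorem parisi_wellPosed (β : ℝ) (ν : Measure ℝ) [IsProbabilityMeasure ν] :
    (∃ f, IsParisiSolution β (cdf ν) f) ∧
    ∀ f g, IsParisiSolution β (cdf ν) f → IsParisiSolution β (cdf ν) g →
      ∀ t ∈ Icc (0:ℝ) 1, ∀ x, f t x = g t x := by
  refine ⟨exists_solution β (monotone_cdf ν) (fun t => ⟨cdf_nonneg ν t, cdf_le_one ν t⟩)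
    (fun t => (cdf ν).right_continuous t), fun f g hf hg t ht x => ?_⟩
  exact hf.unique hg (cdf_intervalIntegrable ν 0 1) (cdf_bounds ν) ht x

end Pool.Agent.ATLine
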