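import Mathlib
import Pool.Agent.Lib.ATLine.WellPosed
import Pool.Agent.Lib.ATLine.Final

/-!
# The Parisi functional, the Parisi measure and the high temperature region
-/

open MeasureTheory ProbabilityTheory Set

namespace Pool.Agent.ATLine

/-- For every probability measure `ν` there is exactly one number that is the value
`log 2 + f(0,h) - β² ∫₀¹ ζ(t) t dt` for a solution `f` of the Parisi equation for the distribution
function `ζ` of `ν`. -/
theorem existsUnique_parisiValue (β h : ℝ) (ν : Measure ℝ) [IsProbabilityMeasure ν] :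
    ∃! p : ℝ, ∃ f, IsParisiSolution β (cdf ν) f ∧
      p = Real.log 2 + f 0 h - β ^ 2 * ∫ t in (0:ℝ)..1, cdf ν t * t := by
  obtain ⟨⟨f, hf⟩, hu⟩ := parisi_wellPosed β ν
  refine ⟨_, ⟨f, hf, rfl⟩, ?_⟩
  rintro p ⟨g, hg, rfl⟩
  rw [hu g f hg hf 0 ⟨le_refl _, zero_le_one⟩ h]

/-- the Parisi functional `P_{β,h}` of a probability measure `ν`: the number
`log 2 + f(0,h) - β² ∫₀¹ ζ(t) t dt`, where `ζ` is the distribution function of `ν` and `f` is a
solution of the Parisi equation for `ζ` -/
noncomputable def parisiFunctional (β h : ℝ) (ν : Measure ℝ) [IsProbabilityMeasure ν] : ℝ :=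
  (existsUnique_parisiValue β h ν).exists.choose

lemma parisiFunctional_eq {β : ℝ} (h : ℝ) {ν : Measure ℝ} [IsProbabilityMeasure ν]
    {f : ℝ → ℝ → ℝ} (hf : IsParisiSolution β (cdf ν) f) :
    parisiFunctional β h ν = parisiValue β h (cdf ν) f :=
  (existsUnique_parisiValue β h ν).unique (existsUnique_parisiValue β h ν).exists.choose_spec
    ⟨f, hf, rfl⟩

/-- `μ` is a Parisi measure: a probability measure on `[0,1]` at which the Parisi functional is
minimal among all probability measures on `[0,1]`. -/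
def IsParisiMeasure (β h : ℝ) (μ : Measure ℝ) [IsProbabilityMeasure μ] : Prop :=
  μ (Icc 0 1) = 1 ∧ ∀ (ν : Measure ℝ) [IsProbabilityMeasure ν], ν (Icc 0 1) = 1 →
    parisiFunctional β h μ ≤ parisiFunctional β h ν

/-- `(β,h)` is in the high temperature region: the Parisi measure is concentrated on one point. -/
def HighTemperature (β h : ℝ) : Prop :=
  ∃ q : ℝ, IsParisiMeasure β h (Measure.dirac q)

lemma isParisiMeasure_iff {β h : ℝ} {μ : Measure ℝ} [IsProbabilityMeasure μ] :
    IsParisiMeasure β h μ ↔ IsOptimal β h μ := by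
  constructor
  · rintro ⟨h1, h2⟩
    obtain ⟨f, hf⟩ := (parisi_wellPosed β μ).1
    refine ⟨⟨inferInstance, h1⟩, f, hf, fun ν g hν h3 hg => ?_⟩
    rw [← parisiFunctional_eq h hf, ← parisiFunctional_eq h hg]
    exact h2 ν h3
  · rintro ⟨⟨_, h1⟩, f, hf, h2⟩
    refine ⟨h1, fun ν _ h3 => ?_⟩
    obtain ⟨g, hg⟩ := (parisi_wellPosed β ν).1
    rw [parisiFunctional_eq h hf, parisiFunctional_eq h hg]
    exact h2 ν g inferInstance h3 hg

lemma highTemperature_iff {β h : ℝ} : HighTemperature β h ↔ OptimalPoint β h := by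
  constructor
  · rintro ⟨q, hq⟩
    refine ⟨q, ?_, isParisiMeasure_iff.1 hq⟩
    have h1 := hq.1
    rw [Measure.dirac_apply' _ measurableSet_Icc] at h1
    by_contra hcon
    rw [indicator_of_notMem hcon] at h1
    exact zero_ne_one h1
  · rintro ⟨q, _, hq⟩
    exact ⟨q, isParisiMeasure_iff.2 hq⟩

/-- **The de Almeida-Thouless line of the Sherrington-Kirkpatrick model** -/
theorem highTemperature_iff_dAT {β : ℝ} (hβ : 0 < β) (h : ℝ) :
    HighTemperature β h ↔ DATCondition β h :=
  highTemperature_iff.trans (optimalPoint_iff_dAT hβ h)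

end Pool.Agent.ATLine
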